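import Mathlib

/-!
Coefficients of `(1 - x)^{-z}` and algebraic identities for palindromic sequences.
-/

set_option autoImplicit false

namespace Pool.Agent.Helper22.Half

section generic
variable {𝕜 : Type*} [Field 𝕜] [CharZero 𝕜]

/-- coefficients of `(1-x)^{-z}` -/
def pq (z : 𝕜) : ℕ → 𝕜
  | 0 => 1
  | n + 1 => pq z n * ((z + n) / (n + 1))

omit [CharZero 𝕜] in
theorem pq_zero (z : 𝕜) : pq z 0 = 1 := rfl

omit [CharZero 𝕜] in
theorem pq_succ (z : 𝕜) (n : ℕ) : pq z (n + 1) = pq z n * ((z + n) / (n + 1)) := rfl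

theorem pq_succ' (z : 𝕜) (n : ℕ) : ((n : 𝕜) + 1) * pq z (n + 1) = pq z n * (z + n) := by
  rw [pq_succ]
  have : (n : 𝕜) + 1 ≠ 0 := Nat.cast_add_one_ne_zero n
  field_simp

theorem pq_shift (z : 𝕜) (n : ℕ) : ((n : 𝕜) + 1) * pq z (n + 1) = z * pq (z + 1) n := by
  induction n with
  | zero => simp [pq]
  | succ n ih =>
    rw [pq_succ', pq_succ (z + 1) n]
    have h : (n : 𝕜) + 1 ≠ 0 := Nat.cast_add_one_ne_zero n
    have e : z * (pq (z + 1) n * ((z + 1 + n) / (n + 1)))
        = (z * pq (z + 1) n) * ((z + 1 + n) / (n + 1)) := by ring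
    rw [e, ← ih]
    push_cast
    field_simp
    ring

theorem pq_add_one (z : 𝕜) (n : ℕ) : z * pq (z + 1) n = pq z n * (z + n) := by
  rw [← pq_shift, pq_succ']

theorem pq_one (n : ℕ) : pq (1 : 𝕜) n = 1 := by
  induction n with
  | zero => rfl
  | succ n ih =>
    rw [pq_succ, ih]
    have h : (n : 𝕜) + 1 ≠ 0 := Nat.cast_add_one_ne_zero n
    rw [add_comm (1 : 𝕜), div_self h, one_mul]

theorem pq_two (n : ℕ) : pq (2 : 𝕜) n = n + 1 := by
  have h := pq_add_one (1 : 𝕜) n
  rw [pq_one, one_mul, one_mul, one_add_one_eq_two] at h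
  rw [h]; ring

/-- Vandermonde's identity -/
theorem vander (z w : 𝕜) (M : ℕ) :
    ∑ k ∈ Finset.range (M + 1), pq z k * pq w (M - k) = pq (z + w) M := by
  induction M with
  | zero => simp [pq]
  | succ M ih =>
    have h1 : ∑ k ∈ Finset.range (M + 2), (k : 𝕜) * (pq z k * pq w (M + 1 - k))
        = ∑ k ∈ Finset.range (M + 1), (z + k) * (pq z k * pq w (M - k)) := by
      rw [Finset.sum_range_succ']
      simp only [Nat.cast_zero, zero_mul, add_zero]
      apply Finset.sum_congr rfl
      intro k _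
      have e : M + 1 - (k + 1) = M - k := by omega
      rw [e]
      have := pq_succ' z k
      push_cast
      linear_combination (pq w (M - k)) * this
    have h2 : ∑ k ∈ Finset.range (M + 2), ((M + 1 - k : ℕ) : 𝕜) * (pq z k * pq w (M + 1 - k))
        = ∑ k ∈ Finset.range (M + 1), (w + (M - k : ℕ)) * (pq z k * pq w (M - k)) := by
      rw [Finset.sum_range_succ]
      simp only [Nat.sub_self, Nat.cast_zero, zero_mul, add_zero]
      apply Finset.sum_congr rfl
      intro k hk
      rw [Finset.mem_range] at hk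
      have e : M + 1 - k = (M - k) + 1 := by omega
      rw [e]
      have := pq_succ' w (M - k)
      push_cast at this ⊢
      linear_combination (pq z k) * this
    have h3 : ((M : 𝕜) + 1) * ∑ k ∈ Finset.range (M + 2), pq z k * pq w (M + 1 - k)
        = (z + w + M) * ∑ k ∈ Finset.range (M + 1), pq z k * pq w (M - k) := by
      have e1 : ((M : 𝕜) + 1) * ∑ k ∈ Finset.range (M + 2), pq z k * pq w (M + 1 - k)
          = ∑ k ∈ Finset.range (M + 2), (k : 𝕜) * (pq z k * pq w (M + 1 - k))
            + ∑ k ∈ Finset.range (M + 2), ((M + 1 - k : ℕ) : 𝕜) * (pq z k * pq w (M + 1 - k)) := by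
        rw [← Finset.sum_add_distrib, Finset.mul_sum]
        apply Finset.sum_congr rfl
        intro k hk
        rw [Finset.mem_range] at hk
        rw [Nat.cast_sub (by omega)]
        push_cast
        ring
      rw [e1, h1, h2, ← Finset.sum_add_distrib, Finset.mul_sum]
      apply Finset.sum_congr rfl
      intro k hk
      rw [Finset.mem_range] at hk
      rw [Nat.cast_sub (by omega)]
      ring
    rw [ih] at h3
    have h4 := pq_succ' (z + w) M
    have h5 : ((M : 𝕜) + 1) ≠ 0 := Nat.cast_add_one_ne_zero M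
    apply mul_left_cancel₀ h5
    rw [h3, h4]
    ring

end generic

/-- the coefficients `A_{M,k}` of the partial fraction expansion -/
noncomputable def Ac (s : ℂ) (M k : ℕ) : ℂ :=
  ((M - k : ℕ) : ℂ) * pq (1 + s) (M - k) * pq (-s) k

theorem conv_one (s : ℂ) (M : ℕ) :
    ∑ k ∈ Finset.range (M + 1), pq (1 + s) (M - k) * pq (-s) k = 1 := by
  have h := vander (-s) (1 + s) M
  have e : -s + (1 + s) = 1 := by ring
  rw [e, pq_one] at h
  refine Eq.trans ?_ h
  apply Finset.sum_congr rfl
  intro k _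
  ring

theorem conv_moment (s : ℂ) (M : ℕ) :
    ∑ k ∈ Finset.range M, Ac s M k = (1 + s) * M := by
  cases M with
  | zero => simp
  | succ M =>
    have h := vander (-s) (2 + s) M
    have e : -s + (2 + s) = 2 := by ring
    rw [e, pq_two] at h
    push_cast
    rw [← h, Finset.mul_sum]
    apply Finset.sum_congr rfl
    intro k hk
    rw [Finset.mem_range] at hk
    unfold Ac
    have e2 : M + 1 - k = (M - k) + 1 := by omega
    rw [e2]
    have h2 := pq_shift (1 + s) (M - k)
    have e3 : (1 + s + 1 : ℂ) = 2 + s := by ring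
    rw [e3] at h2
    push_cast
    linear_combination (pq (-s) k) * h2

theorem Ac_succ (s : ℂ) {M k : ℕ} (hk : k < M) :
    Ac s (M + 1) k * ((M - k : ℕ) : ℂ) = Ac s M k * (((M - k : ℕ) : ℂ) + (1 + s)) := by
  unfold Ac
  have e : M + 1 - k = (M - k) + 1 := by omega
  rw [e]
  have h := pq_succ' (1 + s) (M - k)
  push_cast
  linear_combination (pq (-s) k * ((M - k : ℕ) : ℂ)) * h

/-- partial fraction expansion of a quotient of coefficients -/
theorem partial_frac (s : ℂ) (p : ℕ) (hs : ∀ k : ℕ, ((p + k : ℕ) : ℂ) - s ≠ 0) (M : ℕ) :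
    pq (-s) p = pq (-s) (p + M) * (1 + ∑ k ∈ Finset.range M, Ac s M k / (((p + k : ℕ) : ℂ) - s)) := by
  induction M with
  | zero => simp
  | succ M ih =>
    have hne := hs M
    have hpM : pq (-s) (p + M) * (((p + M : ℕ) : ℂ) - s)
        = pq (-s) (p + M + 1) * (((p + M : ℕ) : ℂ) + 1) := by
      have := pq_succ' (-s) (p + M)
      linear_combination -this
    have h1 : pq (-s) (p + M) = pq (-s) (p + (M + 1)) * ((((p + M : ℕ) : ℂ) + 1)
        / (((p + M : ℕ) : ℂ) - s)) := by
      rw [← add_assoc, mul_div_assoc', eq_div_iff hne, hpM]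
    rw [ih, h1, mul_assoc]
    congr 1
    -- the coefficient identity
    have h2 : ∀ k ∈ Finset.range M, Ac s M k / (((p + k : ℕ) : ℂ) - s)
        * ((((p + M : ℕ) : ℂ) + 1) / (((p + M : ℕ) : ℂ) - s))
        = Ac s (M + 1) k / (((p + k : ℕ) : ℂ) - s)
          - (1 + s) * (pq (1 + s) (M - k) * pq (-s) k) / (((p + M : ℕ) : ℂ) - s) := by
      intro k hk
      rw [Finset.mem_range] at hk
      have hk1 := hs k
      have hMk : ((M - k : ℕ) : ℂ) ≠ 0 := by
        have : M - k ≠ 0 := by omega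
        exact_mod_cast this
      have e1 : Ac s (M + 1) k = Ac s M k * (((M - k : ℕ) : ℂ) + (1 + s)) / ((M - k : ℕ) : ℂ) := by
        rw [eq_div_iff hMk, Ac_succ s hk]
      have e2 : pq (1 + s) (M - k) * pq (-s) k = Ac s M k / ((M - k : ℕ) : ℂ) := by
        rw [eq_div_iff hMk]
        unfold Ac; ring
      rw [e1, e2]
      have e3 : ((p + M : ℕ) : ℂ) = ((p + k : ℕ) : ℂ) + ((M - k : ℕ) : ℂ) := by
        rw [← Nat.cast_add]; congr 1; omega
      rw [e3] at hne ⊢
      field_simp
      ring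
    rw [mul_add, mul_one, mul_comm _ (∑ k ∈ Finset.range M, _), Finset.sum_mul,
      Finset.sum_congr rfl h2, Finset.sum_sub_distrib, Finset.sum_range_succ (fun k => Ac s (M + 1) k / _)]
    have h3 : ∑ k ∈ Finset.range M, (1 + s) * (pq (1 + s) (M - k) * pq (-s) k)
        / (((p + M : ℕ) : ℂ) - s) = (1 + s) * (1 - pq (-s) M) / (((p + M : ℕ) : ℂ) - s) := by
      rw [← Finset.sum_div, ← Finset.mul_sum]
      have h4 := conv_one s M
      rw [Finset.sum_range_succ, Nat.sub_self, pq_zero, one_mul] at h4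
      have h4' : ∑ k ∈ Finset.range M, pq (1 + s) (M - k) * pq (-s) k = 1 - pq (-s) M := by
        linear_combination h4
      rw [h4']
    rw [h3]
    have h5 : Ac s (M + 1) M = (1 + s) * pq (-s) M := by
      unfold Ac
      have : M + 1 - M = 1 := by omega
      rw [this]
      simp [pq]
    rw [h5]
    field_simp
    ring

theorem sum_tri (f : ℕ → ℕ → ℂ) (m : ℕ) :
    ∑ l ∈ Finset.range (m + 1), ∑ k ∈ Finset.range (m - l), f l (l + k)
      = ∑ i ∈ Finset.range m, ∑ l ∈ Finset.range (i + 1), f l i := by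
  rw [Finset.sum_sigma', Finset.sum_sigma']
  apply Finset.sum_bij' (i := fun (x : (_ : ℕ) × ℕ) _ => (⟨x.1 + x.2, x.1⟩ : (_ : ℕ) × ℕ))
    (j := fun (x : (_ : ℕ) × ℕ) _ => (⟨x.2, x.1 - x.2⟩ : (_ : ℕ) × ℕ))
  · rintro ⟨l, k⟩ h
    simp only [Finset.mem_sigma, Finset.mem_range] at h ⊢
    omega
  · rintro ⟨i, l⟩ h
    simp only [Finset.mem_sigma, Finset.mem_range] at h ⊢
    omega
  · rintro ⟨l, k⟩ h
    simp only [Finset.mem_sigma, Finset.mem_range] at h ⊢
    simp
  · rintro ⟨i, l⟩ h
    simp only [Finset.mem_sigma, Finset.mem_range] at h ⊢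
    have : l + (i - l) = i := by omega
    simp [this]
  · rintro ⟨l, k⟩ h
    simp

/-- the sequence `V_i = ∑_{l ≤ min(i,m)} c_{i-l} d_l` -/
noncomputable def Vd (s : ℂ) (d : ℕ → ℂ) (m i : ℕ) : ℂ :=
  ∑ l ∈ Finset.range (min i m + 1), pq (-s) (i - l) * d l

theorem g_formula (s : ℂ) (d : ℕ → ℂ) (m : ℕ) (hd : ∀ l ≤ m, d l = d (m - l)) :
    (1 + s) * (m * ∑ l ∈ Finset.range (m + 1), d l) / 2
      = ∑ i ∈ Finset.range m, ((m - i : ℕ) : ℂ) * pq (1 + s) (m - i) * Vd s d m i := by
  have h1 : ∑ l ∈ Finset.range (m + 1), ((m - l : ℕ) : ℂ) * d l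
      = m * (∑ l ∈ Finset.range (m + 1), d l) / 2 := by
    have h2 : ∑ l ∈ Finset.range (m + 1), ((m - l : ℕ) : ℂ) * d l
        = ∑ l ∈ Finset.range (m + 1), (l : ℂ) * d l := by
      rw [← Finset.sum_range_reflect]
      apply Finset.sum_congr rfl
      intro l hl
      rw [Finset.mem_range] at hl
      have e1 : m + 1 - 1 - l = m - l := by omega
      have e2 : m - (m - l) = l := by omega
      rw [e1, e2, ← hd l (by omega)]
    have h3 : ∑ l ∈ Finset.range (m + 1), ((m - l : ℕ) : ℂ) * d l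
        + ∑ l ∈ Finset.range (m + 1), (l : ℂ) * d l = m * ∑ l ∈ Finset.range (m + 1), d l := by
      rw [← Finset.sum_add_distrib, Finset.mul_sum]
      apply Finset.sum_congr rfl
      intro l hl
      rw [Finset.mem_range] at hl
      rw [Nat.cast_sub (by omega)]
      ring
    rw [← h2] at h3
    linear_combination h3 / 2
  have h4 : (1 + s) * (m * ∑ l ∈ Finset.range (m + 1), d l) / 2
      = ∑ l ∈ Finset.range (m + 1), ∑ k ∈ Finset.range (m - l), Ac s (m - l) k * d l := by
    rw [mul_div_assoc, ← h1, Finset.mul_sum]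
    apply Finset.sum_congr rfl
    intro l _
    rw [← Finset.sum_mul, conv_moment]
    ring
  rw [h4]
  have h5 := sum_tri (fun l i => ((m - i : ℕ) : ℂ) * pq (1 + s) (m - i) * pq (-s) (i - l) * d l) m
  have h6 : ∑ l ∈ Finset.range (m + 1), ∑ k ∈ Finset.range (m - l), Ac s (m - l) k * d l
      = ∑ l ∈ Finset.range (m + 1), ∑ k ∈ Finset.range (m - l),
        ((m - (l + k) : ℕ) : ℂ) * pq (1 + s) (m - (l + k)) * pq (-s) (l + k - l) * d l := by
    apply Finset.sum_congr rfl
    intro l _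
    apply Finset.sum_congr rfl
    intro k _
    unfold Ac
    have e1 : m - l - k = m - (l + k) := by omega
    have e2 : l + k - l = k := by omega
    rw [e1, e2]
  rw [h6, h5]
  apply Finset.sum_congr rfl
  intro i hi
  rw [Finset.mem_range] at hi
  unfold Vd
  have e : min i m = i := by omega
  rw [e, Finset.mul_sum]
  apply Finset.sum_congr rfl
  intro l _
  ring

/-- the values beyond the palindrome in terms of those before -/
theorem V_formula (s : ℂ) (d : ℕ → ℂ) (m j : ℕ) (hm : 1 ≤ m) (h1s : 1 + s ≠ 0)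
    (hd : ∀ l ≤ m, d l = d (m - l)) (hs : ∀ k : ℕ, ((j + k : ℕ) : ℂ) - s ≠ 0) :
    Vd s d m (m + j) = pq (-s) (m + j) * ∑ i ∈ Finset.range m,
      ((m - i : ℕ) : ℂ) * pq (1 + s) (m - i) * Vd s d m i
        * (2 / (m * (1 + s)) + 1 / (((j + i : ℕ) : ℂ) - s)) := by
  have hm0 : (m : ℂ) ≠ 0 := by
    have : m ≠ 0 := by omega
    exact_mod_cast this
  -- reflect
  have h1 : Vd s d m (m + j) = ∑ l ∈ Finset.range (m + 1), pq (-s) (j + l) * d l := by
    unfold Vd
    have e : min (m + j) m = m := by omega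
    rw [e, ← Finset.sum_range_reflect]
    apply Finset.sum_congr rfl
    intro l hl
    rw [Finset.mem_range] at hl
    have e1 : m + 1 - 1 - l = m - l := by omega
    have e2 : m + j - (m - l) = j + l := by omega
    rw [e1, e2, ← hd l (by omega)]
  have h2 : ∀ l ∈ Finset.range (m + 1), pq (-s) (j + l) * d l = pq (-s) (m + j) * (d l
      + ∑ k ∈ Finset.range (m - l), Ac s (m - l) k * d l / (((j + (l + k) : ℕ) : ℂ) - s)) := by
    intro l hl
    rw [Finset.mem_range] at hl
    have h3 := partial_frac s (j + l) (fun k => by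
      have := hs (l + k)
      rwa [← add_assoc] at this) (m - l)
    have e1 : j + l + (m - l) = m + j := by omega
    rw [e1] at h3
    rw [h3, mul_assoc]
    congr 1
    rw [add_mul, one_mul, Finset.sum_mul]
    congr 1
    apply Finset.sum_congr rfl
    intro k _
    rw [add_assoc]
    ring
  rw [h1, Finset.sum_congr rfl h2, ← Finset.mul_sum, Finset.sum_add_distrib]
  congr 1
  have h5 := sum_tri (fun l i => ((m - i : ℕ) : ℂ) * pq (1 + s) (m - i) * pq (-s) (i - l) * d l
    / (((j + i : ℕ) : ℂ) - s)) m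
  have h6 : ∑ l ∈ Finset.range (m + 1), ∑ k ∈ Finset.range (m - l), Ac s (m - l) k * d l
        / (((j + (l + k) : ℕ) : ℂ) - s)
      = ∑ l ∈ Finset.range (m + 1), ∑ k ∈ Finset.range (m - l),
        ((m - (l + k) : ℕ) : ℂ) * pq (1 + s) (m - (l + k)) * pq (-s) (l + k - l) * d l
          / (((j + (l + k) : ℕ) : ℂ) - s) := by
    apply Finset.sum_congr rfl
    intro l _
    apply Finset.sum_congr rfl
    intro k _
    unfold Ac
    have e1 : m - l - k = m - (l + k) := by omega
    have e2 : l + k - l = k := by omega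
    rw [e1, e2]
  rw [h6, h5]
  have h7 := g_formula s d m hd
  have h8 : ∑ l ∈ Finset.range (m + 1), d l = (2 / (m * (1 + s))) *
      ∑ i ∈ Finset.range m, ((m - i : ℕ) : ℂ) * pq (1 + s) (m - i) * Vd s d m i := by
    rw [← h7]
    field_simp
  rw [h8, Finset.mul_sum, ← Finset.sum_add_distrib]
  apply Finset.sum_congr rfl
  intro i hi
  rw [Finset.mem_range] at hi
  have h9 : ∑ l ∈ Finset.range (i + 1), ((m - i : ℕ) : ℂ) * pq (1 + s) (m - i) * pq (-s) (i - l)
      * d l / (((j + i : ℕ) : ℂ) - s)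
      = ((m - i : ℕ) : ℂ) * pq (1 + s) (m - i) * Vd s d m i / (((j + i : ℕ) : ℂ) - s) := by
    unfold Vd
    have e : min i m = i := by omega
    rw [e, Finset.mul_sum, Finset.sum_div]
    apply Finset.sum_congr rfl
    intro l _
    ring
  rw [h9]
  ring

end Pool.Agent.Helper22.Half
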