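import Mathlib
import Pool.Agent.Helper22.Half.Binom

/-!
Bounds for the coefficients of `(1-x)^{-1-s}` and `(1-x)^s`.
-/

set_option autoImplicit false

namespace Pool.Agent.Helper22.Half

theorem pq_pos {z : ℝ} (hz : 0 < z) (n : ℕ) : 0 < pq z n := by
  induction n with
  | zero => simp [pq]
  | succ n ih => rw [pq_succ]; positivity

theorem pq_mono_z {z w : ℝ} (hz : 0 < z) (hzw : z ≤ w) (n : ℕ) : pq z n ≤ pq w n := by
  induction n with
  | zero => simp [pq]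
  | succ n ih =>
    rw [pq_succ, pq_succ]
    have := pq_pos hz n
    have := pq_pos (hz.trans_le hzw) n
    gcongr

theorem pq_mono_n {z : ℝ} (hz : 1 ≤ z) {a b : ℕ} (hab : a ≤ b) : pq z a ≤ pq z b := by
  induction b, hab using Nat.le_induction with
  | base => exact le_rfl
  | succ n _ ih =>
    refine ih.trans ?_
    rw [pq_succ]
    have h1 := pq_pos (by linarith : 0 < z) n
    have h2 : 1 ≤ (z + n) / (n + 1) := by
      rw [one_le_div (by positivity)]; linarith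
    nlinarith

theorem normSq_one_add (s : ℂ) (n : ℕ) :
    ‖1 + s + n‖ ^ 2 = ((n : ℝ) + 1) ^ 2 + 2 * s.re * (n + 1) + ‖s‖ ^ 2 := by
  rw [← Complex.normSq_eq_norm_sq, ← Complex.normSq_eq_norm_sq, Complex.normSq_apply,
    Complex.normSq_apply]
  simp only [Complex.add_re, Complex.one_re, Complex.natCast_re, Complex.add_im, Complex.one_im,
    Complex.natCast_im]
  ring

theorem normSq_nat_sub (s : ℂ) (n : ℕ) :
    ‖(n : ℂ) - s‖ ^ 2 = (n : ℝ) ^ 2 - 2 * s.re * n + ‖s‖ ^ 2 := by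
  rw [← Complex.normSq_eq_norm_sq, ← Complex.normSq_eq_norm_sq, Complex.normSq_apply,
    Complex.normSq_apply]
  simp only [Complex.sub_re, Complex.natCast_re, Complex.sub_im, Complex.natCast_im]
  ring

/-- the products `∏_{k=2}^{n+1} (1 + ρ / (k (k + 2r)))` -/
noncomputable def kap (r ρ : ℝ) : ℕ → ℝ
  | 0 => 1
  | n + 1 => kap r ρ n * (1 + ρ / (((n : ℝ) + 2) * (n + 2 + 2 * r)))

theorem kap_zero (r ρ : ℝ) : kap r ρ 0 = 1 := rfl

theorem kap_succ (r ρ : ℝ) (n : ℕ) :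
    kap r ρ (n + 1) = kap r ρ n * (1 + ρ / (((n : ℝ) + 2) * (n + 2 + 2 * r))) := rfl

theorem kap_ge_one {r ρ : ℝ} (hr : -1 < r) (hρ : 0 ≤ ρ) (n : ℕ) : 1 ≤ kap r ρ n := by
  induction n with
  | zero => exact le_rfl
  | succ n ih =>
    rw [kap_succ]
    have h1 : 0 ≤ ρ / (((n : ℝ) + 2) * (n + 2 + 2 * r)) := by
      apply div_nonneg hρ
      have : (0 : ℝ) ≤ n := Nat.cast_nonneg n
      apply mul_nonneg <;> linarith
    nlinarith

theorem kap_mono {r ρ : ℝ} (hr : -1 < r) (hρ : 0 ≤ ρ) {a b : ℕ} (hab : a ≤ b) :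
    kap r ρ a ≤ kap r ρ b := by
  induction b, hab using Nat.le_induction with
  | base => exact le_rfl
  | succ n _ ih =>
    refine ih.trans ?_
    rw [kap_succ]
    have h0 := kap_ge_one hr hρ n
    have h1 : 0 ≤ ρ / (((n : ℝ) + 2) * (n + 2 + 2 * r)) := by
      apply div_nonneg hρ
      have : (0 : ℝ) ≤ n := Nat.cast_nonneg n
      apply mul_nonneg <;> linarith
    nlinarith

theorem norm_Q (s : ℂ) (hr : -1 < s.re) (n : ℕ) :
    ((n : ℝ) + 1) * ‖pq (1 + s) (n + 1)‖ ^ 2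
      = ‖1 + s‖ ^ 2 * kap s.re (‖s‖ ^ 2) n * pq (2 + 2 * s.re) n := by
  induction n with
  | zero => simp [pq, kap]
  | succ n ih =>
    have h1 : ‖pq (1 + s) (n + 1 + 1)‖ ^ 2 = ‖pq (1 + s) (n + 1)‖ ^ 2
        * ((((n : ℝ) + 2) ^ 2 + 2 * s.re * (n + 2) + ‖s‖ ^ 2) / ((n : ℝ) + 2) ^ 2) := by
      rw [pq_succ, norm_mul, norm_div, mul_pow, div_pow, normSq_one_add]
      have e : ‖((n + 1 : ℕ) : ℂ) + 1‖ = (n : ℝ) + 2 := by
        have : ((n + 1 : ℕ) : ℂ) + 1 = (((n : ℝ) + 2 : ℝ) : ℂ) := by push_cast; ring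
        rw [this, Complex.norm_real, Real.norm_of_nonneg (by positivity)]
      rw [e]
      push_cast
      ring
    have h2 : (0 : ℝ) < (n : ℝ) + 2 + 2 * s.re := by
      have : (0 : ℝ) ≤ n := Nat.cast_nonneg n
      linarith
    rw [h1, kap_succ, pq_succ (2 + 2 * s.re)]
    push_cast
    have e2 : ((n : ℝ) + 1 + 1) * (‖pq (1 + s) (n + 1)‖ ^ 2
        * ((((n : ℝ) + 2) ^ 2 + 2 * s.re * (n + 2) + ‖s‖ ^ 2) / ((n : ℝ) + 2) ^ 2))
        = (((n : ℝ) + 1) * ‖pq (1 + s) (n + 1)‖ ^ 2)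
        * ((((n : ℝ) + 2) ^ 2 + 2 * s.re * (n + 2) + ‖s‖ ^ 2) / (((n : ℝ) + 2) * (n + 1))) := by
      field_simp
      ring
    rw [e2, ih]
    field_simp
    ring

theorem norm_c (s : ℂ) (hr : s.re < 1) (n : ℕ) :
    ((n : ℝ) + 2) ^ 2 * ‖pq (-s) (n + 2)‖ ^ 2 * (1 - 2 * s.re)
      = ‖s‖ ^ 2 * ((1 - 2 * s.re) + ‖s‖ ^ 2) * kap (-s.re) (‖s‖ ^ 2) n
        * pq (1 - 2 * s.re) (n + 1) := by
  induction n with
  | zero =>
    have h1 : ‖pq (-s) (0 + 2)‖ ^ 2 = ‖s‖ ^ 2 * ((1 - 2 * s.re) + ‖s‖ ^ 2) / 4 := by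
      have e : pq (-s) (0 + 2) = -s * ((((1 : ℕ) : ℂ) - s) / 2) := by
        rw [zero_add, pq_succ, pq_succ, pq_zero]
        push_cast
        ring
      rw [e, norm_mul, norm_div, mul_pow, div_pow, normSq_nat_sub, norm_neg, Complex.norm_two]
      push_cast
      ring
    rw [h1, zero_add, pq_succ, pq_zero, kap_zero]
    push_cast
    ring
  | succ n ih =>
    have h1 : ‖pq (-s) (n + 1 + 2)‖ ^ 2 = ‖pq (-s) (n + 2)‖ ^ 2
        * ((((n : ℝ) + 2) ^ 2 - 2 * s.re * (n + 2) + ‖s‖ ^ 2) / ((n : ℝ) + 3) ^ 2) := by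
      have e0 : n + 1 + 2 = (n + 2) + 1 := by ring
      rw [e0, pq_succ, norm_mul, norm_div, mul_pow, div_pow]
      have e1 : -s + ((n + 2 : ℕ) : ℂ) = ((n + 2 : ℕ) : ℂ) - s := by ring
      rw [e1, normSq_nat_sub]
      have e : ‖((n + 2 : ℕ) : ℂ) + 1‖ = (n : ℝ) + 3 := by
        have : ((n + 2 : ℕ) : ℂ) + 1 = (((n : ℝ) + 3 : ℝ) : ℂ) := by push_cast; ring
        rw [this, Complex.norm_real, Real.norm_of_nonneg (by positivity)]
      rw [e]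
      push_cast
      ring
    have h2 : (n : ℝ) + 2 - 2 * s.re ≠ 0 := by
      have : (0 : ℝ) ≤ n := Nat.cast_nonneg n
      apply ne_of_gt
      linarith
    have h3 : (n : ℝ) + 2 + 2 * (-s.re) = (n : ℝ) + 2 - 2 * s.re := by ring
    have h4 : 1 - 2 * s.re + ((n + 1 : ℕ) : ℝ) = (n : ℝ) + 2 - 2 * s.re := by push_cast; ring
    have h5 : ((n + 1 : ℕ) : ℝ) + 1 = (n : ℝ) + 2 := by push_cast; ring
    rw [h1, kap_succ, pq_succ (1 - 2 * s.re) (n + 1), h3, h4, h5]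
    push_cast
    have e2 : ((n : ℝ) + 1 + 2) ^ 2 * (‖pq (-s) (n + 2)‖ ^ 2
        * ((((n : ℝ) + 2) ^ 2 - 2 * s.re * (n + 2) + ‖s‖ ^ 2) / ((n : ℝ) + 3) ^ 2)) * (1 - 2 * s.re)
        = (((n : ℝ) + 2) ^ 2 * ‖pq (-s) (n + 2)‖ ^ 2 * (1 - 2 * s.re))
          * ((((n : ℝ) + 2) ^ 2 - 2 * s.re * (n + 2) + ‖s‖ ^ 2) / ((n : ℝ) + 2) ^ 2) := by
      field_simp
      ring
    rw [e2, ih]
    have h6 : 1 - 2 * s.re = ((n : ℝ) + 2 - 2 * s.re) - (n + 1) := by ring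
    have h7 : ((n : ℝ) + 2) ^ 2 - 2 * s.re * (n + 2) = ((n : ℝ) + 2) * ((n : ℝ) + 2 - 2 * s.re) := by
      ring
    rw [h7]
    generalize pq (1 - 2 * s.re) (n + 1) = P
    generalize (1 - 2 * s.re + ‖s‖ ^ 2) = T
    generalize (n : ℝ) + 2 - 2 * s.re = u at h2
    field_simp

/-- the constant `B` -/
noncomputable def Bc (r ρ : ℝ) : ℝ :=
  (1 + ρ / (2 * (2 + 2 * r))) * (1 + ρ / (2 * (2 - 2 * r))) * Real.exp (5 * ρ / 6)

theorem kap_step {r ρ : ℝ} (hr : 4 * r ^ 2 ≤ 1) (hρ : 0 ≤ ρ) {k : ℝ} (hk : 2 ≤ k) :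
    (1 + ρ / (k * (k + 2 * r))) * (1 + ρ / (k * (k + 2 * (-r))))
      ≤ Real.exp (ρ * (1 / (k - 1) - 1 / (k + 1))) := by
  have hr1 : -1 ≤ 2 * r ∧ 2 * r ≤ 1 := by
    constructor <;> nlinarith
  have p1 : 0 < k + 2 * r := by linarith
  have p2 : 0 < k + 2 * (-r) := by linarith
  have h1 := Real.add_one_le_exp (ρ / (k * (k + 2 * r)))
  have h2 := Real.add_one_le_exp (ρ / (k * (k + 2 * (-r))))
  have h3 : ρ / (k * (k + 2 * r)) + ρ / (k * (k + 2 * (-r))) ≤ ρ * (1 / (k - 1) - 1 / (k + 1)) := by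
    have e1 : ρ / (k * (k + 2 * r)) + ρ / (k * (k + 2 * (-r)))
        = ρ * (2 / ((k + 2 * r) * (k + 2 * (-r)))) := by
      have : k ≠ 0 := by linarith
      have e0 : k + 2 * (-r) = k - 2 * r := by ring
      rw [e0] at p2 ⊢
      have e9 : k - 2 * r ≠ 0 := p2.ne'
      have e8 : k + 2 * r ≠ 0 := p1.ne'
      field_simp
      ring
    have e2 : 1 / (k - 1) - 1 / (k + 1) = 2 / ((k - 1) * (k + 1)) := by
      have q1 : k - 1 ≠ 0 := by linarith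
      have q2 : k + 1 ≠ 0 := by linarith
      field_simp
      ring
    rw [e1, e2]
    apply mul_le_mul_of_nonneg_left _ hρ
    apply div_le_div_of_nonneg_left (by norm_num)
    · have : 0 < k - 1 := by linarith
      positivity
    · nlinarith
  calc (1 + ρ / (k * (k + 2 * r))) * (1 + ρ / (k * (k + 2 * (-r))))
      ≤ Real.exp (ρ / (k * (k + 2 * r))) * Real.exp (ρ / (k * (k + 2 * (-r)))) := by
        apply mul_le_mul
        · linarith
        · linarith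
        · have : 0 ≤ ρ / (k * (k + 2 * (-r))) := by positivity
          linarith
        · exact (Real.exp_pos _).le
    _ = Real.exp (ρ / (k * (k + 2 * r)) + ρ / (k * (k + 2 * (-r)))) := (Real.exp_add _ _).symm
    _ ≤ _ := Real.exp_le_exp.mpr h3

theorem kap_prod {r ρ : ℝ} (hr : 4 * r ^ 2 ≤ 1) (hρ : 0 ≤ ρ) (n : ℕ) :
    kap r ρ (n + 1) * kap (-r) ρ (n + 1)
      ≤ (1 + ρ / (2 * (2 + 2 * r))) * (1 + ρ / (2 * (2 - 2 * r)))
        * Real.exp (ρ * (5 / 6 - 1 / ((n : ℝ) + 2) - 1 / ((n : ℝ) + 3))) := by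
  induction n with
  | zero =>
    rw [kap_succ, kap_succ, kap_zero, kap_zero]
    have e : (5 / 6 - 1 / (((0 : ℕ) : ℝ) + 2) - 1 / (((0 : ℕ) : ℝ) + 3)) = 0 := by norm_num
    rw [e, mul_zero, Real.exp_zero]
    push_cast
    apply le_of_eq
    ring_nf
  | succ n ih =>
    rw [kap_succ r ρ (n + 1), kap_succ (-r) ρ (n + 1)]
    have h1 := kap_step hr hρ (k := (n : ℝ) + 3) (by
      have : (0 : ℝ) ≤ n := Nat.cast_nonneg n
      linarith)
    have hr1 : -1 ≤ 2 * r ∧ 2 * r ≤ 1 := by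
      constructor <;> nlinarith
    have g1 := kap_ge_one (by linarith : -1 < r) hρ (n + 1)
    have g2 := kap_ge_one (by linarith : -1 < -r) hρ (n + 1)
    push_cast
    have e3 : (n : ℝ) + 1 + 2 = n + 3 := by ring
    have e4 : (n : ℝ) + 1 + 3 = n + 4 := by ring
    rw [e3, e4]
    have f0 : 0 ≤ (1 + ρ / (((n : ℝ) + 3) * (n + 3 + 2 * r)))
        * (1 + ρ / (((n : ℝ) + 3) * (n + 3 + 2 * (-r)))) := by
      have a1 : 0 ≤ (n : ℝ) + 3 + 2 * r := by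
        have : (0 : ℝ) ≤ n := Nat.cast_nonneg n
        linarith
      have a2 : 0 ≤ (n : ℝ) + 3 + 2 * (-r) := by
        have : (0 : ℝ) ≤ n := Nat.cast_nonneg n
        linarith
      positivity
    calc kap r ρ (n + 1) * (1 + ρ / (((n : ℝ) + 3) * (n + 3 + 2 * r)))
          * (kap (-r) ρ (n + 1) * (1 + ρ / (((n : ℝ) + 3) * (n + 3 + 2 * (-r)))))
        = (kap r ρ (n + 1) * kap (-r) ρ (n + 1)) * ((1 + ρ / (((n : ℝ) + 3) * (n + 3 + 2 * r)))
          * (1 + ρ / (((n : ℝ) + 3) * (n + 3 + 2 * (-r))))) := by ring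
      _ ≤ ((1 + ρ / (2 * (2 + 2 * r))) * (1 + ρ / (2 * (2 - 2 * r)))
        * Real.exp (ρ * (5 / 6 - 1 / ((n : ℝ) + 2) - 1 / ((n : ℝ) + 3))))
          * Real.exp (ρ * (1 / ((n : ℝ) + 3 - 1) - 1 / ((n : ℝ) + 3 + 1))) := by
          apply mul_le_mul ih h1 f0
          have b1 : 0 ≤ 2 + 2 * r := by linarith
          have b2 : 0 ≤ 2 - 2 * r := by linarith
          positivity
      _ = _ := by
          rw [mul_assoc, ← Real.exp_add]
          congr 2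
          have q : (n : ℝ) + 3 - 1 = n + 2 := by ring
          have q' : (n : ℝ) + 3 + 1 = n + 4 := by ring
          rw [q, q']
          ring

theorem kap_prod' {r ρ : ℝ} (hr : 4 * r ^ 2 ≤ 1) (hρ : 0 ≤ ρ) (a b : ℕ) :
    kap r ρ a * kap (-r) ρ b ≤ Bc r ρ := by
  have hr1 : -1 ≤ 2 * r ∧ 2 * r ≤ 1 := by
    constructor <;> nlinarith
  have m1 := kap_mono (by linarith : -1 < r) hρ (a := a) (b := a + b + 1) (by omega)
  have m2 := kap_mono (by linarith : -1 < -r) hρ (a := b) (b := a + b + 1) (by omega)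
  have g2 := kap_ge_one (by linarith : -1 < -r) hρ b
  have g1 := kap_ge_one (by linarith : -1 < r) hρ (a + b + 1)
  have h := kap_prod hr hρ (a + b)
  calc kap r ρ a * kap (-r) ρ b ≤ kap r ρ (a + b + 1) * kap (-r) ρ (a + b + 1) := by gcongr
    _ ≤ _ := h
    _ ≤ Bc r ρ := by
      unfold Bc
      have b1 : 0 ≤ 2 + 2 * r := by linarith
      have b2 : 0 ≤ 2 - 2 * r := by linarith
      apply mul_le_mul_of_nonneg_left _ (by positivity)
      apply Real.exp_le_exp.mpr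
      have h1 : 0 ≤ 1 / (((a + b : ℕ) : ℝ) + 2) := by positivity
      have h2 : 0 ≤ 1 / (((a + b : ℕ) : ℝ) + 3) := by positivity
      nlinarith

/-- the combined bound -/
theorem QC_bound (s : ℂ) (hs : ‖s‖ < 1 / 2) (i k : ℕ) :
    (((i : ℝ) + 1) * ‖pq (1 + s) (i + 1)‖ ^ 2) * (((k : ℝ) + 2) ^ 2 * ‖pq (-s) (k + 2)‖ ^ 2)
        * (1 - 2 * s.re)
      ≤ ‖s‖ ^ 2 * ‖1 + s‖ ^ 2 * ((1 - 2 * s.re) + ‖s‖ ^ 2) * Bc s.re (‖s‖ ^ 2)
        * pq (2 + 2 * s.re) i * pq (1 - 2 * s.re) (k + 1) := by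
  have hre := Complex.abs_re_le_norm s
  have hre2 := abs_le.mp (hre.trans hs.le)
  have hr4 : 4 * s.re ^ 2 ≤ 1 := by nlinarith [hre2.1, hre2.2]
  have hc : 0 < 1 - 2 * s.re := by
    have := (abs_lt.mp (hre.trans_lt hs)).2
    linarith
  rw [norm_Q s (by linarith), mul_assoc (_ * _) (_ * _) (1 - 2 * s.re), norm_c s (by linarith)]
  have h := kap_prod' hr4 (sq_nonneg ‖s‖) i k
  have p1 := pq_pos (by linarith : 0 < 2 + 2 * s.re) i
  have p2 := pq_pos hc (k + 1)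
  calc ‖1 + s‖ ^ 2 * kap s.re (‖s‖ ^ 2) i * pq (2 + 2 * s.re) i *
      (‖s‖ ^ 2 * (1 - 2 * s.re + ‖s‖ ^ 2) * kap (-s.re) (‖s‖ ^ 2) k * pq (1 - 2 * s.re) (k + 1))
      = (‖s‖ ^ 2 * ‖1 + s‖ ^ 2 * ((1 - 2 * s.re) + ‖s‖ ^ 2) * pq (2 + 2 * s.re) i
        * pq (1 - 2 * s.re) (k + 1)) * (kap s.re (‖s‖ ^ 2) i * kap (-s.re) (‖s‖ ^ 2) k) := by ring
    _ ≤ (‖s‖ ^ 2 * ‖1 + s‖ ^ 2 * ((1 - 2 * s.re) + ‖s‖ ^ 2) * pq (2 + 2 * s.re) i
        * pq (1 - 2 * s.re) (k + 1)) * Bc s.re (‖s‖ ^ 2) := by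
        apply mul_le_mul_of_nonneg_left h
        positivity
    _ = _ := by ring

end Pool.Agent.Helper22.Half
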