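import Mathlib
import Pool.Agent.Helper22.Half.Norms

/-!
The lower half form.
-/

set_option autoImplicit false

namespace Pool.Agent.Helper22.Half

/-- the lower half form -/
noncomputable def Pf (s : ℂ) (b : ℝ) (d : ℕ → ℂ) (m : ℕ) : ℝ :=
  ∑ i ∈ Finset.range m, ((m - i : ℕ) : ℝ) * (pq (b + 1 - 2 * s.re) i)⁻¹ * ‖Vd s d m i‖ ^ 2

theorem Pf_nonneg {s : ℂ} {b : ℝ} (hσ : 0 < b + 1 - 2 * s.re) (d : ℕ → ℂ) (m : ℕ) :
    0 ≤ Pf s b d m := by
  apply Finset.sum_nonneg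
  intro i _
  have := pq_pos hσ i
  positivity

end Pool.Agent.Helper22.Half
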