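import Mathlib
import Pool.Agent.Helper22.Half.PfDef

/-!
Finite double sums.
-/

set_option autoImplicit false

namespace Pool.Agent.Helper22.Half

/-- interchange of the finite sums -/
theorem double_fin {S : ℕ → ℕ → ℝ} {lam : ℕ → ℝ} {κ : ℝ}
    (hlam : ∀ i, 0 ≤ lam i)
    (h : ∀ i M : ℕ, ∑ m ∈ Finset.range M, ((m - i : ℕ) : ℝ) * S m i
      ≤ κ * ∑ m ∈ Finset.range i, ((i - m : ℕ) : ℝ) * S m i) (I : ℕ) :
    ∑ m ∈ Finset.range I, ∑ i ∈ Finset.range I, ((m - i : ℕ) : ℝ) * lam i * S m i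
      ≤ κ * ∑ m ∈ Finset.range I, ∑ i ∈ Finset.range I, ((i - m : ℕ) : ℝ) * lam i * S m i := by
  rw [Finset.sum_comm, Finset.sum_comm (f := fun m i => ((i - m : ℕ) : ℝ) * lam i * S m i),
    Finset.mul_sum]
  apply Finset.sum_le_sum
  intro i hi
  rw [Finset.mem_range] at hi
  have h1 := mul_le_mul_of_nonneg_left (h i I) (hlam i)
  have e1 : ∑ m ∈ Finset.range I, ((m - i : ℕ) : ℝ) * lam i * S m i
      = lam i * ∑ m ∈ Finset.range I, ((m - i : ℕ) : ℝ) * S m i := by
    rw [Finset.mul_sum]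
    apply Finset.sum_congr rfl
    intro m _; ring
  have e2 : ∑ m ∈ Finset.range I, ((i - m : ℕ) : ℝ) * lam i * S m i
      = lam i * ∑ m ∈ Finset.range i, ((i - m : ℕ) : ℝ) * S m i := by
    have hsub : Finset.range i ⊆ Finset.range I := by
      intro m hm
      rw [Finset.mem_range] at hm ⊢
      omega
    rw [← Finset.sum_subset hsub, Finset.mul_sum]
    · apply Finset.sum_congr rfl
      intro m _; ring
    · intro m _ hm
      rw [Finset.mem_range, not_lt] at hm
      have : i - m = 0 := by omega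
      rw [this]; simp
  rw [e1, e2]
  calc lam i * ∑ m ∈ Finset.range I, ((m - i : ℕ) : ℝ) * S m i
      ≤ lam i * (κ * ∑ m ∈ Finset.range i, ((i - m : ℕ) : ℝ) * S m i) := h1
    _ = _ := by ring

/-- the upper part written with an explicit index -/
theorem upper_eq (a : ℕ → ℝ) (m I : ℕ) :
    ∑ i ∈ Finset.range I, ((i - m : ℕ) : ℝ) * a i
      = ∑ j ∈ Finset.range (I - (m + 1)), ((j : ℝ) + 1) * a (m + 1 + j) := by
  rcases le_or_gt I (m + 1) with h | h
  · have e : I - (m + 1) = 0 := by omega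
    rw [e, Finset.sum_range_zero]
    apply Finset.sum_eq_zero
    intro i hi
    rw [Finset.mem_range] at hi
    have : i - m = 0 := by omega
    rw [this]; simp
  · obtain ⟨J, rfl⟩ : ∃ J, I = m + 1 + J := ⟨I - (m + 1), by omega⟩
    have e : m + 1 + J - (m + 1) = J := by omega
    rw [e, Finset.sum_range_add]
    have h0 : ∑ i ∈ Finset.range (m + 1), ((i - m : ℕ) : ℝ) * a i = 0 := by
      apply Finset.sum_eq_zero
      intro i hi
      rw [Finset.mem_range] at hi
      have : i - m = 0 := by omega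
      rw [this]; simp
    rw [h0, zero_add]
    apply Finset.sum_congr rfl
    intro j _
    have : m + 1 + j - m = j + 1 := by omega
    rw [this]
    push_cast
    ring

theorem lower_eq {s : ℂ} {b : ℝ} (d : ℕ → ℂ) {m I : ℕ} (hm : m < I) :
    ∑ i ∈ Finset.range I, ((m - i : ℕ) : ℝ) * (pq (b + 1 - 2 * s.re) i)⁻¹ * ‖Vd s d m i‖ ^ 2
      = Pf s b d m := by
  unfold Pf
  have hsub : Finset.range m ⊆ Finset.range I := by
    intro i hi
    rw [Finset.mem_range] at hi ⊢
    omega
  rw [← Finset.sum_subset hsub]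
  intro i _ hi
  rw [Finset.mem_range, not_lt] at hi
  have : m - i = 0 := by omega
  rw [this]; simp

end Pool.Agent.Helper22.Half
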