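import Mathlib
import Pool.Agent.Helper22.Marshall.LogPhi
import Pool.Agent.Helper22.Half.Binom

/-!
The Faber type polynomials: coefficients of `ω^i` in `(ω(φ(ω) - φ(ζ)))^{s}`.
-/

set_option autoImplicit false

open MeasureTheory Set Metric Filter Topology
open scoped ENNReal NNReal Real Nat

namespace Pool.Agent.Helper22.Half

open Pool.Agent.Helper39.Area (Ext phi dphi qq_ne qq_diff phi_sub)
open Pool.Agent.Helper22.Marshall (coeff coeff_mul coeff_const_mul coeff_deriv coeff_zero coeff_congr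
  coeff_eq_of_hasSum hasSum_coeff LogPhi)

/-- abstract Taylor recursion: `D T' = -θ D' T` with `D = 1 + ω (β - φ)` -/
theorem coeff_rec {D T : ℂ → ℂ} (hD : AnalyticAt ℂ D 0) (hT : AnalyticAt ℂ T 0) {θ : ℂ}
    (hD0 : D 0 = 1) (h : ∀ᶠ w in 𝓝 (0 : ℂ), D w * deriv T w = -θ * (deriv D w * T w)) (n : ℕ) :
    ((n : ℂ) + 1) * coeff T (n + 1)
      = -∑ i ∈ Finset.range (n + 1), (θ * ((i : ℂ) + 1) + ((n - i : ℕ) : ℂ)) * coeff D (i + 1)
          * coeff T (n - i) := by
  have h1 := coeff_congr h n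
  rw [coeff_mul hD hT.deriv, coeff_const_mul, coeff_mul hD.deriv hT] at h1
  simp_rw [coeff_deriv] at h1
  rw [Finset.sum_range_succ'] at h1
  simp only [coeff_zero, hD0, one_mul, Nat.sub_zero] at h1
  -- the shifted sum
  have h2 : ∑ k ∈ Finset.range n, coeff D (k + 1) * (((n - (k + 1) : ℕ) : ℂ) + 1)
      * coeff T (n - (k + 1) + 1)
      = ∑ i ∈ Finset.range (n + 1), ((n - i : ℕ) : ℂ) * coeff D (i + 1) * coeff T (n - i) := by
    rw [Finset.sum_range_succ]
    simp only [Nat.sub_self, Nat.cast_zero, zero_mul, add_zero]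
    apply Finset.sum_congr rfl
    intro k hk
    rw [Finset.mem_range] at hk
    have e : n - (k + 1) + 1 = n - k := by omega
    rw [e]
    have e2 : ((n - (k + 1) : ℕ) : ℂ) + 1 = ((n - k : ℕ) : ℂ) := by
      rw [← e]; push_cast; ring
    rw [e2]
    ring
  have h3 : ∑ k ∈ Finset.range n, coeff D (k + 1) * ((((n - (k + 1) : ℕ) : ℂ) + 1)
      * coeff T (n - (k + 1) + 1))
      = ∑ i ∈ Finset.range (n + 1), ((n - i : ℕ) : ℂ) * coeff D (i + 1) * coeff T (n - i) := by
    rw [← h2]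
    apply Finset.sum_congr rfl
    intro k _
    ring
  rw [h3] at h1
  have h4 : ∑ i ∈ Finset.range (n + 1), (θ * ((i : ℂ) + 1) + ((n - i : ℕ) : ℂ)) * coeff D (i + 1)
          * coeff T (n - i)
      = θ * ∑ i ∈ Finset.range (n + 1), ((i : ℂ) + 1) * coeff D (i + 1) * coeff T (n - i)
        + ∑ i ∈ Finset.range (n + 1), ((n - i : ℕ) : ℂ) * coeff D (i + 1) * coeff T (n - i) := by
    rw [Finset.mul_sum, ← Finset.sum_add_distrib]
    apply Finset.sum_congr rfl
    intro i _
    ring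
  rw [h4]
  linear_combination h1

/-- polynomials with prescribed recursion -/
theorem exists_poly (θ : ℂ) (bc : ℕ → ℂ) (n : ℕ) : ∃ P : ℕ → Polynomial ℂ,
    (∀ k ≤ n, (P k).natDegree ≤ k) ∧ P 0 = 1 ∧ ∀ k < n, Polynomial.C ((k : ℂ) + 1) * P (k + 1)
      = -∑ i ∈ Finset.range (k + 1), Polynomial.C (θ * ((i : ℂ) + 1) + ((k - i : ℕ) : ℂ))
        * (Polynomial.C (bc i) - if i = 0 then Polynomial.X else 0) * P (k - i) := by
  induction n with
  | zero =>
    refine ⟨fun _ => 1, fun k hk => by simp, rfl, fun k hk => by omega⟩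
  | succ n ih =>
    obtain ⟨P, hP1, hP0, hP2⟩ := ih
    obtain ⟨Q, hQ⟩ : ∃ Q : Polynomial ℂ, Q = Polynomial.C (((n : ℂ) + 1)⁻¹) * (-∑ i ∈ Finset.range (n + 1), Polynomial.C (θ * ((i : ℂ) + 1) + ((n - i : ℕ) : ℂ))
        * (Polynomial.C (bc i) - if i = 0 then Polynomial.X else 0) * P (n - i)) := ⟨_, rfl⟩
    have hQd : Q.natDegree ≤ n + 1 := by
      rw [hQ]
      refine (Polynomial.natDegree_C_mul_le _ _).trans ?_
      rw [Polynomial.natDegree_neg]
      apply Polynomial.natDegree_sum_le_of_forall_le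
      intro i hi
      rw [Finset.mem_range] at hi
      rw [mul_assoc]
      refine (Polynomial.natDegree_C_mul_le _ _).trans ?_
      refine Polynomial.natDegree_mul_le.trans ?_
      have h1 := hP1 (n - i) (by omega)
      have h2 : (Polynomial.C (bc i) - if i = 0 then Polynomial.X else 0 : Polynomial ℂ).natDegree
          ≤ i + 1 := by
        refine (Polynomial.natDegree_sub_le _ _).trans ?_
        rw [Polynomial.natDegree_C]
        split_ifs
        · simp
        · simp
      omega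
    refine ⟨fun k => if k = n + 1 then Q else P k, ?_, ?_, ?_⟩
    · intro k hk
      by_cases h : k = n + 1
      · simp only [h, if_true]; exact hQd
      · simp only [h, if_false]; exact hP1 k (by omega)
    · simp only [Nat.zero_ne_add_one, if_false]; exact hP0
    · intro k hk
      have e : ∀ i, (if k - i = n + 1 then Q else P (k - i)) = P (k - i) := by
        intro i
        rw [if_neg (by omega)]
      simp only [e]
      by_cases h : k = n
      · subst h
        simp only [if_true]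
        rw [hQ, ← mul_assoc, ← Polynomial.C_mul]
        have : ((k : ℂ) + 1) * ((k : ℂ) + 1)⁻¹ = 1 := mul_inv_cancel₀ (Nat.cast_add_one_ne_zero k)
        rw [this, Polynomial.C_1, one_mul]
      · rw [if_neg (by omega)]
        exact hP2 k (by omega)

theorem coeff_D {g : ℂ → ℂ} (hg : DifferentiableOn ℂ g (ball 0 1)) (n : ℕ) :
    coeff (fun w => 1 + w * g w) (n + 1) = coeff g n := by
  have h := coeff_eq_of_hasSum (f := fun w => 1 + w * g w) (r := 1) one_pos
    (a := fun n => if n = 0 then 1 else coeff g (n - 1)) (fun z hz => by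
      have h1 := (hasSum_coeff hg hz).mul_left z
      rw [← hasSum_nat_add_iff' 1]
      simp only [Finset.range_one, Finset.sum_singleton, if_true, pow_zero, mul_one,
        Nat.add_eq_zero_iff, one_ne_zero, and_false, if_false, Nat.add_sub_cancel, add_sub_cancel_left]
      have e : (fun n => coeff g n * z ^ (n + 1)) = fun n => z * (coeff g n * z ^ n) := by
        funext n; ring
      rw [e]
      exact h1) (n + 1)
  rw [h]
  simp

theorem choose_eq_pq (α : ℂ) (n : ℕ) : Ring.choose (α + n - 1) n = pq α n := by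
  rw [← Ring.multichoose_eq]
  have h : ∀ n : ℕ, (n.factorial : ℂ) * Ring.multichoose α n = (n.factorial : ℂ) * pq α n := by
    intro n
    have e := Ring.factorial_nsmul_multichoose_eq_ascPochhammer α n
    rw [nsmul_eq_mul] at e
    rw [e, Polynomial.ascPochhammer_smeval_eq_eval]
    induction n with
    | zero => simp [pq]
    | succ n ih =>
      have e2 := Ring.factorial_nsmul_multichoose_eq_ascPochhammer α n
      rw [nsmul_eq_mul] at e2
      have ih' := ih e2
      rw [ascPochhammer_succ_eval, ih']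
      have h3 := pq_succ' α n
      rw [Nat.factorial_succ]
      push_cast
      linear_combination (-(n.factorial : ℂ)) * h3
  have hne : (n.factorial : ℂ) ≠ 0 := Nat.cast_ne_zero.mpr (Nat.factorial_ne_zero n)
  exact mul_left_cancel₀ hne (h n)

theorem hasSum_pq (α : ℂ) {x : ℂ} (hx : ‖x‖ < 1) :
    HasSum (fun n : ℕ => pq α n * x ^ n) (1 / (1 - x) ^ α) := by
  have h := (Complex.one_div_one_sub_cpow_hasFPowerSeriesOnBall_zero α).hasSum
    (y := x) (by
      rw [Metric.mem_eball, edist_zero_right]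
      rw [← ofReal_norm]
      exact ENNReal.ofReal_lt_one.mpr hx)
  rw [zero_add] at h
  have e : (fun n : ℕ => pq α n * x ^ n) = fun n => ((FormalMultilinearSeries.ofScalars ℂ
      fun n ↦ Ring.choose (α + n - 1) n) n) fun _ => x := by
    funext n
    rw [FormalMultilinearSeries.ofScalars_apply_eq, choose_eq_pq]
    simp
  rw [e]
  exact h

theorem coeff_power (s : ℂ) {ζ : ℂ} (h0 : ζ ≠ 0) (n : ℕ) :
    coeff (fun w => Complex.exp (s * Complex.log (1 - w / ζ))) n = pq (-s) n * (ζ⁻¹) ^ n := by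
  apply coeff_eq_of_hasSum (r := ‖ζ‖) (norm_pos_iff.mpr h0)
  intro z hz
  have hx : ‖z / ζ‖ < 1 := by
    rw [norm_div, div_lt_one (norm_pos_iff.mpr h0)]; exact hz
  have h1 := hasSum_pq (-s) hx
  have hne : 1 - z / ζ ≠ 0 := by
    intro h
    rw [sub_eq_zero] at h
    rw [← h] at hx
    simp at hx
  have e : (1 / (1 - z / ζ) ^ (-s)) = Complex.exp (s * Complex.log (1 - z / ζ)) := by
    rw [Complex.cpow_def_of_ne_zero hne, one_div, ← Complex.exp_neg]
    congr 1; ring
  rw [e] at h1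
  have e2 : (fun n => pq (-s) n * ζ⁻¹ ^ n * z ^ n) = fun n => pq (-s) n * (z / ζ) ^ n := by
    funext n
    rw [div_eq_mul_inv, mul_pow]
    ring
  rw [e2]
  exact h1

theorem one_sub_slit {ζ w : ℂ} (h0 : ζ ≠ 0) (hw : ‖w‖ < ‖ζ‖) : 1 - w / ζ ∈ Complex.slitPlane := by
  have hx : ‖w / ζ‖ < 1 := by
    rw [norm_div, div_lt_one (norm_pos_iff.mpr h0)]; exact hw
  left
  have := (abs_le.mp (Complex.abs_re_le_norm (w / ζ))).2
  rw [Complex.sub_re, Complex.one_re]
  linarith

section
variable {β H : ℂ → ℂ} {Φ : ℂ → ℂ → ℂ}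

/-- the function `T` -/
noncomputable def TF (Φ : ℂ → ℂ → ℂ) (s ζ w : ℂ) : ℂ :=
  Complex.exp (s * (Complex.log (1 - w / ζ) + Φ ζ w))

theorem TF_diff (hΦ : LogPhi β H Φ) {ζ : ℂ} (hζ : ζ ∈ ball (0 : ℂ) 1) (h0 : ζ ≠ 0) :
    ∀ w : ℂ, ‖w‖ < ‖ζ‖ → DifferentiableAt ℂ (fun w => Complex.log (1 - w / ζ) + Φ ζ w) w := by
  intro w hw
  rw [mem_ball_zero_iff] at hζ
  apply DifferentiableAt.add
  · apply DifferentiableAt.clog
    · fun_prop
    · exact one_sub_slit h0 hw
  · exact (hΦ.sep.right ζ (mem_ball_zero_iff.mpr hζ)).differentiableAt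
      (isOpen_ball.mem_nhds (mem_ball_zero_iff.mpr (hw.trans hζ)))

theorem D_eq (hΦ : LogPhi β H Φ) {ζ : ℂ} (hζ : ζ ∈ ball (0 : ℂ) 1) (h0 : ζ ≠ 0) {w : ℂ}
    (hw : ‖w‖ < ‖ζ‖) :
    Complex.exp (Complex.log (1 - w / ζ) + Φ ζ w) = 1 + w * (β w - phi β ζ) := by
  have hz1 := hζ
  rw [mem_ball_zero_iff] at hz1
  have hne : 1 - w / ζ ≠ 0 := Complex.slitPlane_ne_zero (one_sub_slit h0 hw)
  rw [Complex.exp_add, Complex.exp_log hne, hΦ.exp_eq ζ hζ w (mem_ball_zero_iff.mpr (hw.trans hz1))]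
  by_cases hw0 : w = 0
  · subst hw0
    simp [Pool.Agent.Helper39.Area.qq]
  · have h1 := phi_sub (β := β) ζ w h0 hw0
    have h2 : phi β w = w⁻¹ + β w := rfl
    have h3 : (1 - w / ζ) * Pool.Agent.Helper39.Area.qq β ζ w
        = w * ((w⁻¹ - ζ⁻¹) * Pool.Agent.Helper39.Area.qq β ζ w) := by
      field_simp
    rw [h3, ← h1, h2]
    field_simp
    ring

theorem TF_ode (hΦ : LogPhi β H Φ) (s : ℂ) {ζ : ℂ} (hζ : ζ ∈ ball (0 : ℂ) 1) (h0 : ζ ≠ 0) :
    ∀ᶠ w in 𝓝 (0 : ℂ), (1 + w * (β w - phi β ζ)) * deriv (TF Φ s ζ) w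
      = -(-s) * (deriv (fun w => 1 + w * (β w - phi β ζ)) w * TF Φ s ζ w) := by
  have hpos : 0 < ‖ζ‖ := norm_pos_iff.mpr h0
  filter_upwards [ball_mem_nhds (0 : ℂ) hpos] with w hw
  rw [mem_ball_zero_iff] at hw
  have h1 := (TF_diff hΦ hζ h0 w hw).hasDerivAt
  have h2 := h1.cexp
  have h3 := (h1.const_mul s).cexp
  have e3 : deriv (TF Φ s ζ) w = TF Φ s ζ w * (s *
      deriv (fun w => Complex.log (1 - w / ζ) + Φ ζ w) w) := by
    have : TF Φ s ζ = fun w => Complex.exp (s * (Complex.log (1 - w / ζ) + Φ ζ w)) := rfl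
    rw [this]
    exact h3.deriv
  have e2 : deriv (fun w => 1 + w * (β w - phi β ζ)) w
      = (1 + w * (β w - phi β ζ)) * deriv (fun w => Complex.log (1 - w / ζ) + Φ ζ w) w := by
    have h4 : (fun w => 1 + w * (β w - phi β ζ)) =ᶠ[𝓝 w]
        fun w => Complex.exp (Complex.log (1 - w / ζ) + Φ ζ w) := by
      have : ball (0 : ℂ) ‖ζ‖ ∈ 𝓝 w := isOpen_ball.mem_nhds (mem_ball_zero_iff.mpr hw)
      filter_upwards [this] with v hv
      rw [mem_ball_zero_iff] at hv
      exact (D_eq hΦ hζ h0 hv).symm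
    rw [h4.deriv_eq, h2.deriv, D_eq hΦ hζ h0 hw]
  rw [e3, e2]
  ring

theorem TF_analytic (hΦ : LogPhi β H Φ) (s : ℂ) {ζ : ℂ} (hζ : ζ ∈ ball (0 : ℂ) 1) (h0 : ζ ≠ 0) :
    AnalyticAt ℂ (TF Φ s ζ) 0 := by
  have hpos : 0 < ‖ζ‖ := norm_pos_iff.mpr h0
  have hd : DifferentiableOn ℂ (TF Φ s ζ) (ball 0 ‖ζ‖) := by
    intro w hw
    rw [mem_ball_zero_iff] at hw
    exact ((TF_diff hΦ hζ h0 w hw).const_mul s).cexp.differentiableWithinAt
  exact hd.analyticAt (ball_mem_nhds (0 : ℂ) hpos)

/-- the Faber type polynomials -/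
theorem faber_T (h : Ext β) (hΦ : LogPhi β H Φ) (s : ℂ) (n : ℕ) :
    ∃ P : ℕ → Polynomial ℂ, (∀ k ≤ n, (P k).natDegree ≤ k) ∧
      ∀ ζ ∈ ball (0 : ℂ) 1, ζ ≠ 0 → ∀ k ≤ n, coeff (TF Φ s ζ) k = (P k).eval (phi β ζ) := by
  obtain ⟨P, hP1, hP0, hP2⟩ := exists_poly (-s) (coeff β) n
  refine ⟨P, hP1, fun ζ hζ h0 => ?_⟩
  have hrec := coeff_rec (D := fun w => 1 + w * (β w - phi β ζ)) (T := TF Φ s ζ) (θ := -s)
    (by
      have : DifferentiableOn ℂ (fun w => 1 + w * (β w - phi β ζ)) (ball 0 1) := by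
        have := h.diff
        fun_prop
      exact this.analyticAt (ball_mem_nhds _ one_pos))
    (TF_analytic hΦ s hζ h0) (by simp) (TF_ode hΦ s hζ h0)
  intro k
  induction k using Nat.strong_induction_on with
  | _ k ih =>
    intro hk
    cases k with
    | zero =>
      rw [coeff_zero, hP0]
      simp [TF, hΦ.zero_right ζ hζ]
    | succ k =>
      have h1 := hrec k
      have h2 := congrArg (Polynomial.eval (phi β ζ)) (hP2 k (by omega))
      rw [Polynomial.eval_mul, Polynomial.eval_C, Polynomial.eval_neg,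
        Polynomial.eval_finsetSum] at h2
      have hne : ((k : ℂ) + 1) ≠ 0 := Nat.cast_add_one_ne_zero k
      apply mul_left_cancel₀ hne
      rw [h1, h2]
      congr 1
      apply Finset.sum_congr rfl
      intro i hi
      rw [Finset.mem_range] at hi
      rw [Polynomial.eval_mul, Polynomial.eval_mul, Polynomial.eval_C, ih (k - i) (by omega) (by omega)]
      have e : coeff (fun w => 1 + w * (β w - phi β ζ)) (i + 1)
          = Polynomial.eval (phi β ζ) (Polynomial.C (coeff β i) - if i = 0 then Polynomial.X else 0) := by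
        rw [coeff_D (g := fun w => β w - phi β ζ) (by
          have := h.diff
          fun_prop)]
        have e2 : coeff (fun w => β w - phi β ζ) i = coeff β i - if i = 0 then phi β ζ else 0 := by
          cases i with
          | zero => simp [coeff_zero]
          | succ i =>
            simp only [Nat.add_eq_zero_iff, one_ne_zero, and_false, if_false, sub_zero]
            unfold coeff
            congr 1
            rw [iteratedDeriv_succ', iteratedDeriv_succ']
            congr 1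
            funext w
            simp
        rw [e2]
        rw [Polynomial.eval_sub, Polynomial.eval_C]
        split_ifs <;> simp
      rw [e]

/-- the Faber type polynomials for the symmetric kernel -/
theorem faber_E (h : Ext β) (hΦ : LogPhi β H Φ) (s : ℂ) (n : ℕ) :
    ∃ P : Polynomial ℂ, P.natDegree ≤ n ∧ ∀ ζ ∈ ball (0 : ℂ) 1, ζ ≠ 0 →
      ζ ^ n * P.eval (phi β ζ) = ∑ l ∈ Finset.range (n + 1), pq (-s) (n - l) *
        (coeff (fun w => Complex.exp (s * Φ ζ w)) l * ζ ^ l) := by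
  obtain ⟨P, hP1, hP2⟩ := faber_T h hΦ s n
  refine ⟨P n, hP1 n le_rfl, ?_⟩
  intro ζ hζ h0
  have hpos : 0 < ‖ζ‖ := norm_pos_iff.mpr h0
  have hFd : DifferentiableOn ℂ (fun w => Complex.exp (s * Φ ζ w)) (ball 0 1) :=
    ((hΦ.sep.right ζ hζ).const_mul _).cexp
  have hS : AnalyticAt ℂ (fun w => Complex.exp (s * Complex.log (1 - w / ζ))) 0 := by
    have hd : DifferentiableOn ℂ (fun w => Complex.exp (s * Complex.log (1 - w / ζ)))
        (ball 0 ‖ζ‖) := by
      intro w hw
      rw [mem_ball_zero_iff] at hw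
      apply DifferentiableAt.differentiableWithinAt
      apply DifferentiableAt.cexp
      apply DifferentiableAt.const_mul
      apply DifferentiableAt.clog
      · fun_prop
      · exact one_sub_slit h0 hw
    exact hd.analyticAt (ball_mem_nhds (0 : ℂ) hpos)
  have h2 := coeff_mul hS (hFd.analyticAt (ball_mem_nhds _ one_pos)) n
  have h3 : coeff (TF Φ s ζ) n
      = coeff (fun z => Complex.exp (s * Complex.log (1 - z / ζ)) * Complex.exp (s * Φ ζ z)) n := by
    congr 1
    funext z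
    unfold TF
    rw [mul_add, Complex.exp_add]
  rw [h2] at h3
  rw [← hP2 ζ hζ h0 n le_rfl, h3, Finset.mul_sum, ← Finset.sum_range_reflect]
  apply Finset.sum_congr rfl
  intro l hl
  rw [Finset.mem_range] at hl
  have e1 : n + 1 - 1 - l = n - l := by omega
  have e2 : n - (n - l) = l := by omega
  rw [e1, e2, coeff_power s h0]
  have e3 : ζ ^ n = ζ ^ (n - l) * ζ ^ l := by rw [← pow_add]; congr 1; omega
  rw [e3, inv_pow]
  have : ζ ^ (n - l) ≠ 0 := pow_ne_zero _ h0
  field_simp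

end

end Pool.Agent.Helper22.Half
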