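import Mathlib
import Pool.Agent.Helper22.Half.Faber
import Pool.Agent.Helper22.Marshall.ClassIneq

/-!
Expansion of the exponential of the kernel and the area inequality.
-/

set_option autoImplicit false

open MeasureTheory Set Metric Filter Topology
open scoped ENNReal NNReal Real Nat ComplexConjugate

namespace Pool.Agent.Helper22.Half

open Pool.Agent.Helper39.Area (Ext phi)
open Pool.Agent.Helper22.Marshall (coeff SepHol LogPhi dcoeff GLe coeff_congr)

theorem hasSum_shift {a : ℕ → ℂ} {z s : ℂ} (h : HasSum (fun k => a k * z ^ k) s) (l : ℕ) :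
    HasSum (fun m => if l ≤ m then a (m - l) * z ^ m else 0) (s * z ^ l) := by
  rw [← hasSum_nat_add_iff' l]
  have e1 : ∑ i ∈ Finset.range l, (if l ≤ i then a (i - l) * z ^ i else 0) = 0 := by
    apply Finset.sum_eq_zero
    intro i hi
    rw [Finset.mem_range] at hi
    rw [if_neg (by omega)]
  have e2 : (fun n => if l ≤ n + l then a (n + l - l) * z ^ (n + l) else 0)
      = fun n => (a n * z ^ n) * z ^ l := by
    funext n
    rw [if_pos (by omega), Nat.add_sub_cancel, pow_add]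
    ring
  rw [e1, e2, sub_zero]
  exact h.mul_right _

/-- the `m`-th antidiagonal -/
noncomputable def diagc (F : ℂ → ℂ → ℂ) (m l : ℕ) : ℂ := dcoeff F (m - l) l

theorem hasSum_Vd {F : ℂ → ℂ → ℂ} (hF : SepHol F) (s : ℂ) (n : ℕ) {ζ : ℂ} (hζ : ‖ζ‖ < 1) :
    HasSum (fun m => Vd s (diagc F m) m n * ζ ^ m)
      (∑ l ∈ Finset.range (n + 1), pq (-s) (n - l) * (coeff (F ζ) l * ζ ^ l)) := by
  have h1 : ∀ l ∈ Finset.range (n + 1), HasSum (fun m => pq (-s) (n - l) *
      (if l ≤ m then dcoeff F (m - l) l * ζ ^ m else 0))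
      (pq (-s) (n - l) * (coeff (F ζ) l * ζ ^ l)) := by
    intro l _
    apply HasSum.mul_left
    exact hasSum_shift (a := fun k => dcoeff F k l) (hF.hasSum_left hζ l) l
  have h2 := hasSum_sum h1
  have e : (fun m => ∑ l ∈ Finset.range (n + 1), pq (-s) (n - l) *
      (if l ≤ m then dcoeff F (m - l) l * ζ ^ m else 0))
      = fun m => Vd s (diagc F m) m n * ζ ^ m := by
    funext m
    unfold Vd diagc
    rw [Finset.sum_mul]
    symm
    have hsub : Finset.range (min n m + 1) ⊆ Finset.range (n + 1) := by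
      intro l hl
      rw [Finset.mem_range] at hl ⊢
      omega
    rw [← Finset.sum_subset hsub]
    · apply Finset.sum_congr rfl
      intro l hl
      rw [Finset.mem_range] at hl
      rw [if_pos (by omega)]
      ring
    · intro l hl hl2
      rw [Finset.mem_range] at hl hl2
      rw [if_neg (by omega), mul_zero]
  rw [e] at h2
  exact h2

theorem dcoeff_symm {U : ℂ → ℂ → ℂ} (h : SepHol U)
    (hs : ∀ a ∈ ball (0 : ℂ) 1, ∀ b ∈ ball (0 : ℂ) 1, U a b = U b a) (k l : ℕ) :
    dcoeff U k l = dcoeff U l k := by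
  unfold dcoeff
  rw [← h.coeff_comm k l]
  apply coeff_congr
  filter_upwards [ball_mem_nhds (0 : ℂ) one_pos] with w hw
  apply coeff_congr
  filter_upwards [ball_mem_nhds (0 : ℂ) one_pos] with z hz
  exact hs z hz w hw

section
variable {β H : ℂ → ℂ} {Φ : ℂ → ℂ → ℂ}

/-- the symmetric kernel -/
noncomputable def EE (Φ : ℂ → ℂ → ℂ) (s ζ w : ℂ) : ℂ := Complex.exp (s * Φ ζ w)

theorem EE_sep (hΦ : LogPhi β H Φ) (s : ℂ) : SepHol (EE Φ s) where
  cont := by
    have := hΦ.sep.cont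
    exact (continuousOn_const.mul this).cexp
  left := fun w hw => ((hΦ.sep.left w hw).const_mul s).cexp
  right := fun z hz => ((hΦ.sep.right z hz).const_mul s).cexp

theorem EE_symm (hΦ : LogPhi β H Φ) (s : ℂ) (m : ℕ) :
    ∀ l ≤ m, diagc (EE Φ s) m l = diagc (EE Φ s) m (m - l) := by
  intro l hl
  unfold diagc
  rw [dcoeff_symm (EE_sep hΦ s) (fun a ha b hb => by unfold EE; rw [hΦ.symm a ha b hb])]
  congr 1
  omega

theorem EE_zero (hΦ : LogPhi β H Φ) (s : ℂ) : diagc (EE Φ s) 0 0 = 1 := by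
  unfold diagc dcoeff EE
  rw [Pool.Agent.Helper22.Marshall.coeff_zero, Pool.Agent.Helper22.Marshall.coeff_zero,
    hΦ.zero_right 0 (mem_ball_self one_pos), mul_zero, Complex.exp_zero]

theorem EE_diag (hΦ : LogPhi β H Φ) (s : ℂ) (m : ℕ) :
    ∑ l ∈ Finset.range (m + 1), diagc (EE Φ s) m l = coeff (fun z => Complex.exp (s * H z)) m := by
  have h1 := (EE_sep hΦ s).hasSum_diag m
  have h2 : coeff (fun z => EE Φ s z z) m = coeff (fun z => Complex.exp (s * H z)) m := by
    apply coeff_congr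
    filter_upwards [ball_mem_nhds (0 : ℂ) one_pos] with z hz
    unfold EE
    rw [hΦ.diag z hz]
  rw [← h2, h1, ← Finset.sum_range_reflect]
  apply Finset.sum_congr rfl
  intro l hl
  rw [Finset.mem_range] at hl
  unfold diagc
  have e1 : m + 1 - 1 - l = m - l := by omega
  have e2 : m - (m - l) = l := by omega
  rw [e1, e2]

/-- the area inequality for each Faber type polynomial -/
theorem area_V {k : ℝ} (hk : GLe β k) (hE : Ext β) (hΦ : LogPhi β H Φ) (s : ℂ) (i M : ℕ) :
    ∑ m ∈ Finset.range M, ((m - i : ℕ) : ℝ) * ‖Vd s (diagc (EE Φ s) m) m i‖ ^ 2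
      ≤ k ^ 2 * ∑ m ∈ Finset.range i, ((i - m : ℕ) : ℝ) * ‖Vd s (diagc (EE Φ s) m) m i‖ ^ 2 := by
  obtain ⟨P, hP1, hP2⟩ := faber_E hE hΦ s i
  exact hk i P (fun m => Vd s (diagc (EE Φ s) m) m i) hP1 (fun ζ hζ0 hζ1 => by
    rw [hP2 ζ (mem_ball_zero_iff.mpr hζ1) hζ0]
    exact hasSum_Vd (EE_sep hΦ s) s i hζ1) M

end

end Pool.Agent.Helper22.Half
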