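import Mathlib
import Pool.Agent.Helper22.Half.Norms
import Pool.Agent.Helper22.Half.Faber

/-!
Bounds for the numbers `pq`.
-/

set_option autoImplicit false

open MeasureTheory Set Metric Filter Topology
open scoped ENNReal NNReal Real Nat ComplexConjugate

namespace Pool.Agent.Helper22.Half

theorem pq_cast (b : ℝ) (n : ℕ) : pq (b : ℂ) n = ((pq b n : ℝ) : ℂ) := by
  induction n with
  | zero => simp [pq]
  | succ n ih =>
    rw [pq_succ, pq_succ, ih]
    push_cast
    ring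

theorem pq_nonneg {b : ℝ} (hb : 0 ≤ b) (n : ℕ) : 0 ≤ pq b n := by
  induction n with
  | zero => simp [pq]
  | succ n ih => rw [pq_succ]; positivity

theorem hasSum_pq_real (b : ℝ) {x : ℝ} (hx0 : 0 ≤ x) (hx : x < 1) :
    HasSum (fun n : ℕ => pq b n * x ^ n) ((1 - x) ^ (-b)) := by
  have h := hasSum_pq (b : ℂ) (x := (x : ℂ)) (by
    rw [Complex.norm_real, Real.norm_of_nonneg hx0]; exact hx)
  have e : (1 / (1 - (x : ℂ)) ^ (b : ℂ)) = (((1 - x) ^ (-b) : ℝ) : ℂ) := by
    rw [Real.rpow_neg (by linarith), one_div]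
    push_cast
    rw [Complex.ofReal_cpow (by linarith)]
    push_cast
    rfl
  rw [e] at h
  have e2 : (fun n : ℕ => pq (b : ℂ) n * (x : ℂ) ^ n)
      = fun n : ℕ => ((pq b n * x ^ n : ℝ) : ℂ) := by
    funext n; rw [pq_cast]; push_cast; rfl
  rw [e2] at h
  exact Complex.hasSum_ofReal.mp h

theorem pow_mul_pq_le {b : ℝ} (hb : 0 ≤ b) {x : ℝ} (hx0 : 0 ≤ x) (hx : x < 1) (m : ℕ) :
    x ^ m * pq (b + 1) m ≤ (1 - x) ^ (-b) := by
  have h := hasSum_pq_real b hx0 hx
  have h2 : ∑ i ∈ Finset.range (m + 1), pq b i * x ^ i ≤ (1 - x) ^ (-b) := by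
    apply sum_le_hasSum _ _ h
    intro i _
    exact mul_nonneg (pq_nonneg hb i) (pow_nonneg hx0 i)
  refine le_trans ?_ h2
  have h3 := vander b 1 m
  simp only [pq_one, mul_one] at h3
  rw [← h3, Finset.mul_sum]
  apply Finset.sum_le_sum
  intro i hi
  rw [Finset.mem_range] at hi
  rw [mul_comm]
  apply mul_le_mul_of_nonneg_left _ (pq_nonneg hb i)
  exact pow_le_pow_of_le_one hx0 hx.le (by omega)

end Pool.Agent.Helper22.Half
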