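import Mathlib

/-!
Definitions used in the statement.
-/

set_option autoImplicit false

open Filter Topology

namespace Pool.Agent.Helper22.Half

/-- `ψ` is in the class Sigma of the exterior disc and `h` is the branch of `log ψ'` on the
exterior disc that tends to `0` at infinity. -/
structure SigmaLog (ψ h : ℂ → ℂ) : Prop where
  diff : DifferentiableOn ℂ ψ {z : ℂ | 1 < ‖z‖}
  inj : Set.InjOn ψ {z : ℂ | 1 < ‖z‖}
  normalised : ∃ b : ℂ, Tendsto (fun z => ψ z - z) (Bornology.cobounded ℂ) (𝓝 b)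
  hdiff : DifferentiableOn ℂ h {z : ℂ | 1 < ‖z‖}
  exp_eq : ∀ z : ℂ, 1 < ‖z‖ → Complex.exp (h z) = deriv ψ z
  lim : Tendsto h (Bornology.cobounded ℂ) (𝓝 0)

/-- A holomorphic family in the class Sigma, parametrised by the unit disc, starting at the
identity. -/
structure HolFam (ψ h : ℂ → ℂ → ℂ) : Prop where
  mem : ∀ l ∈ Metric.ball (0:ℂ) 1, SigmaLog (ψ l) (h l)
  hol : ∀ z : ℂ, 1 < ‖z‖ → DifferentiableOn ℂ (fun l => ψ l z) (Metric.ball 0 1)
  base : ∀ z : ℂ, 1 < ‖z‖ → ψ 0 z = z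

/-- The mean of `exp (a |h|² / log (R² / (R² - 1)))` over the circle of radius `R`. -/
noncomputable def mInt (a R : ℝ) (h : ℂ → ℂ) : ℝ :=
  (1 / (2 * Real.pi)) * ∫ θ in (0:ℝ)..(2 * Real.pi),
    Real.exp (a * ‖h ((R : ℂ) * Complex.exp ((θ : ℂ) * Complex.I))‖ ^ 2
      / Real.log (R ^ 2 / (R ^ 2 - 1)))

end Pool.Agent.Helper22.Half
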