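import Mathlib
import Pool.Agent.Helper22.Half.Norms

/-!
The weighted double sums.
-/

set_option autoImplicit false

namespace Pool.Agent.Helper22.Half

/-! ### telescoping sums -/

theorem tele1 {e : ℕ → ℝ} {z : ℝ} (hz : 0 < z)
    (he : ∀ n : ℕ, 1 ≤ n → e (n + 1) * (n + z + 1) = n * e n) {m : ℕ} (hm : 1 ≤ m) (J : ℕ) :
    ∑ j ∈ Finset.range J, e (m + 1 + j)
      = (m * e m - ((m + J : ℕ) : ℝ) * e (m + J)) / z := by
  induction J with
  | zero => simp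
  | succ J ih =>
    rw [Finset.sum_range_succ, ih]
    have h := he (m + J) (by omega)
    have e1 : m + 1 + J = m + J + 1 := by ring
    have e2 : m + (J + 1) = m + J + 1 := by ring
    rw [e1, e2]
    push_cast at h ⊢
    field_simp
    linear_combination h

theorem tele2 {e : ℕ → ℝ} {z : ℝ} (hz : 1 < z)
    (he : ∀ n : ℕ, 1 ≤ n → e (n + 1) * (n + z + 1) = n * e n) {m : ℕ} (hm : 1 ≤ m) (J : ℕ) :
    ∑ j ∈ Finset.range J, ((j : ℝ) + 1) * e (m + 1 + j)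
      = (m * (m + z) * e m - ((m + J : ℕ) : ℝ) * (((m + J : ℕ) : ℝ) + z) * e (m + J)) / (z * (z - 1))
        - J * (((m + J : ℕ) : ℝ) * e (m + J)) / z := by
  have hz1 : z - 1 ≠ 0 := by linarith
  have hz0 : z ≠ 0 := by linarith
  induction J with
  | zero => simp
  | succ J ih =>
    rw [Finset.sum_range_succ, ih]
    have h := he (m + J) (by omega)
    have e1 : m + 1 + J = m + J + 1 := by ring
    have e2 : m + (J + 1) = m + J + 1 := by ring
    rw [e1, e2]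
    generalize e (m + J + 1) = E at h ⊢
    push_cast at h ⊢
    have h2 : ((m : ℝ) + J) * e (m + J) = E * ((m : ℝ) + J + z + 1) := h.symm
    field_simp
    linear_combination ((m : ℝ) + J + z + J * (z - 1)) * h

theorem tele1_le {e : ℕ → ℝ} {z : ℝ} (hz : 0 < z) (he0 : ∀ n, 0 ≤ e n)
    (he : ∀ n : ℕ, 1 ≤ n → e (n + 1) * (n + z + 1) = n * e n) {m : ℕ} (hm : 1 ≤ m) (J : ℕ) :
    ∑ j ∈ Finset.range J, e (m + 1 + j) ≤ m * e m / z := by
  rw [tele1 hz he hm]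
  have := he0 (m + J)
  gcongr
  have : 0 ≤ ((m + J : ℕ) : ℝ) * e (m + J) := by positivity
  linarith

theorem tele2_le {e : ℕ → ℝ} {z : ℝ} (hz : 1 < z) (he0 : ∀ n, 0 ≤ e n)
    (he : ∀ n : ℕ, 1 ≤ n → e (n + 1) * (n + z + 1) = n * e n) {m : ℕ} (hm : 1 ≤ m) (J : ℕ) :
    ∑ j ∈ Finset.range J, ((j : ℝ) + 1) * e (m + 1 + j) ≤ m * (m + z) * e m / (z * (z - 1)) := by
  rw [tele2 hz he hm]
  have h0 := he0 (m + J)
  have hz1 : 0 < z - 1 := by linarith
  have hz0 : 0 < z := by linarith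
  have h1 : 0 ≤ (J : ℝ) * (((m + J : ℕ) : ℝ) * e (m + J)) / z := by positivity
  have h2 : (m * (m + z) * e m - ((m + J : ℕ) : ℝ) * (((m + J : ℕ) : ℝ) + z) * e (m + J)) / (z * (z - 1))
      ≤ m * (m + z) * e m / (z * (z - 1)) := by
    gcongr
    have : 0 ≤ ((m + J : ℕ) : ℝ) * (((m + J : ℕ) : ℝ) + z) * e (m + J) := by positivity
    linarith
  linarith

/-! ### the weights -/

/-- `1 / pq (b+3) (n-1)` -/
noncomputable def De (b : ℝ) (n : ℕ) : ℝ := (pq (b + 3) (n - 1))⁻¹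

theorem De_pos {b : ℝ} (hb : 0 < b) (n : ℕ) : 0 < De b n :=
  inv_pos.mpr (pq_pos (by linarith) _)

theorem De_succ {b : ℝ} (hb : 0 < b) {n : ℕ} (hn : 1 ≤ n) :
    De b (n + 1) * (n + (b + 1) + 1) = n * De b n := by
  obtain ⟨k, rfl⟩ : ∃ k, n = k + 1 := ⟨n - 1, by omega⟩
  unfold De
  rw [Nat.add_sub_cancel, Nat.add_sub_cancel, pq_succ]
  have h := (pq_pos (by linarith : 0 < b + 3) k).ne'
  have h2 : b + 3 + (k : ℝ) ≠ 0 := by positivity
  have h3 : (k : ℝ) + 1 ≠ 0 := by positivity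
  push_cast
  rw [mul_inv, inv_div]
  have : (k : ℝ) + 1 + (b + 1) + 1 = b + 3 + k := by ring
  rw [this]
  field_simp

/-- `De / (n + b + 2)` -/
noncomputable def De1 (b : ℝ) (n : ℕ) : ℝ := De b n / (n + b + 2)

/-- `De / ((n + b + 2)(n + b + 3))` -/
noncomputable def De2 (b : ℝ) (n : ℕ) : ℝ := De b n / ((n + b + 2) * (n + b + 3))

theorem De1_pos {b : ℝ} (hb : 0 < b) (n : ℕ) : 0 < De1 b n := by
  have := De_pos hb n
  unfold De1; positivity

theorem De2_pos {b : ℝ} (hb : 0 < b) (n : ℕ) : 0 < De2 b n := by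
  have := De_pos hb n
  unfold De2; positivity

theorem De1_succ {b : ℝ} (hb : 0 < b) {n : ℕ} (hn : 1 ≤ n) :
    De1 b (n + 1) * (n + (b + 2) + 1) = n * De1 b n := by
  have h := De_succ hb hn
  unfold De1
  have h1 : (n : ℝ) + b + 2 ≠ 0 := by positivity
  have h2 : ((n + 1 : ℕ) : ℝ) + b + 2 ≠ 0 := by positivity
  have e : De b (n + 1) = n * De b n / (n + b + 2) := by
    rw [eq_div_iff h1, ← h]; ring
  rw [e]
  push_cast at h2 ⊢
  field_simp
  ring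

theorem De2_succ {b : ℝ} (hb : 0 < b) {n : ℕ} (hn : 1 ≤ n) :
    De2 b (n + 1) * (n + (b + 3) + 1) = n * De2 b n := by
  have h := De_succ hb hn
  unfold De2
  have h1 : (n : ℝ) + b + 2 ≠ 0 := by positivity
  have h3 : (n : ℝ) + b + 3 ≠ 0 := by positivity
  have h2 : ((n + 1 : ℕ) : ℝ) + b + 2 ≠ 0 := by positivity
  have h4 : ((n + 1 : ℕ) : ℝ) + b + 3 ≠ 0 := by positivity
  have e : De b (n + 1) = n * De b n / (n + b + 2) := by
    rw [eq_div_iff h1, ← h]; ring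
  rw [e]
  push_cast at h2 h4 ⊢
  have e1 : (n : ℝ) + 1 + b + 2 = n + b + 3 := by ring
  rw [e1]
  field_simp
  ring

theorem De_anti {b : ℝ} (hb : 0 < b) {a c : ℕ} (ha : 1 ≤ a) (hac : a ≤ c) : De b c ≤ De b a := by
  induction c, hac using Nat.le_induction with
  | base => exact le_rfl
  | succ n hn ih =>
    refine le_trans ?_ ih
    have h := De_succ hb (ha.trans hn)
    have h1 := De_pos hb (n + 1)
    have hn1 : (1 : ℝ) ≤ n := by exact_mod_cast ha.trans hn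
    have h2 : (n : ℝ) * De b (n + 1) ≤ n * De b n := by
      rw [← h]; nlinarith
    exact le_of_mul_le_mul_left h2 (by linarith)

/-- the weights `W_i` -/
noncomputable def Wt (b r : ℝ) (m i : ℕ) : ℝ := pq (2 + 2 * r) (m - 1 - i) * pq (b + 1 - 2 * r) i

section
variable {b r : ℝ}

theorem Wt_pos (hr : -1 < r) (hσ : 0 < b + 1 - 2 * r) (m i : ℕ) : 0 < Wt b r m i :=
  mul_pos (pq_pos (by linarith) _) (pq_pos hσ _)

theorem sum_shift (z w : ℝ) {m : ℕ} (hm : 1 ≤ m) :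
    ∑ i ∈ Finset.range m, pq z (m - 1 - i) * pq w i = pq (z + w) (m - 1) := by
  obtain ⟨k, rfl⟩ : ∃ k, m = k + 1 := ⟨m - 1, by omega⟩
  rw [Nat.add_sub_cancel, add_comm z w, ← vander w z k]
  apply Finset.sum_congr rfl
  intro i _
  ring

theorem sum_Wt {m : ℕ} (hm : 1 ≤ m) : ∑ i ∈ Finset.range m, Wt b r m i = pq (b + 3) (m - 1) := by
  unfold Wt
  rw [sum_shift _ _ hm]
  congr 1; ring

theorem sum_M_Wt (hb : 0 < b) (hr : -(1 / 2) ≤ r) (hσ : 0 < b + 1 - 2 * r) {m : ℕ} (hm : 1 ≤ m) :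
    ∑ i ∈ Finset.range m, ((m - i : ℕ) : ℝ) * Wt b r m i
      ≤ (2 + 2 * r) / (b + 3) * (m + b + 2) * pq (b + 3) (m - 1) := by
  have h1 : ∑ i ∈ Finset.range m, ((m - i : ℕ) : ℝ) * Wt b r m i
      ≤ ∑ i ∈ Finset.range m, (2 + 2 * r) * (pq (3 + 2 * r) (m - 1 - i) * pq (b + 1 - 2 * r) i) := by
    apply Finset.sum_le_sum
    intro i hi
    rw [Finset.mem_range] at hi
    unfold Wt
    have e : m - i = (m - 1 - i) + 1 := by omega
    rw [e]
    have h2 := pq_add_one (2 + 2 * r) (m - 1 - i)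
    have e2 : 2 + 2 * r + 1 = 3 + 2 * r := by ring
    rw [e2] at h2
    rw [← mul_assoc, ← mul_assoc, h2]
    have p1 := pq_pos (by linarith : 0 < 2 + 2 * r) (m - 1 - i)
    have p2 := pq_pos hσ i
    apply mul_le_mul_of_nonneg_right _ p2.le
    push_cast
    nlinarith
  refine h1.trans (le_of_eq ?_)
  rw [← Finset.mul_sum, sum_shift _ _ hm]
  have e3 : 3 + 2 * r + (b + 1 - 2 * r) = b + 3 + 1 := by ring
  rw [e3]
  have h4 := pq_add_one (b + 3) (m - 1)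
  have h5 : ((m - 1 : ℕ) : ℝ) = m - 1 := by rw [Nat.cast_sub hm]; simp
  rw [h5] at h4
  have q : pq (b + 3 + 1) (m - 1) = pq (b + 3) (m - 1) * (b + 3 + (m - 1)) / (b + 3) := by
    rw [eq_div_iff (by positivity), ← h4]
    ring
  rw [q]
  ring

theorem sum_MM_Wt (hb : 0 < b) (hr : -(1 / 2) ≤ r) (hσ : 0 < b + 1 - 2 * r) {m : ℕ} (hm : 1 ≤ m) :
    ∑ i ∈ Finset.range m, ((m - i : ℕ) : ℝ) ^ 2 * Wt b r m i
      ≤ (2 + 2 * r) * (3 + 2 * r) / ((b + 3) * (b + 4)) * ((m + b + 2) * (m + b + 3))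
        * pq (b + 3) (m - 1) := by
  have h1 : ∑ i ∈ Finset.range m, ((m - i : ℕ) : ℝ) ^ 2 * Wt b r m i
      ≤ ∑ i ∈ Finset.range m, ((2 + 2 * r) * (3 + 2 * r)) *
        (pq (4 + 2 * r) (m - 1 - i) * pq (b + 1 - 2 * r) i) := by
    apply Finset.sum_le_sum
    intro i hi
    rw [Finset.mem_range] at hi
    unfold Wt
    have e : m - i = (m - 1 - i) + 1 := by omega
    rw [e]
    have h2 := pq_add_one (2 + 2 * r) (m - 1 - i)
    have e2 : 2 + 2 * r + 1 = 3 + 2 * r := by ring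
    rw [e2] at h2
    have h3 := pq_add_one (3 + 2 * r) (m - 1 - i)
    have e3 : 3 + 2 * r + 1 = 4 + 2 * r := by ring
    rw [e3] at h3
    have p1 := pq_pos (by linarith : 0 < 2 + 2 * r) (m - 1 - i)
    have p2 := pq_pos hσ i
    have e4 : (2 + 2 * r) * (3 + 2 * r) * (pq (4 + 2 * r) (m - 1 - i) * pq (b + 1 - 2 * r) i)
        = (2 + 2 * r) * ((3 + 2 * r) * pq (4 + 2 * r) (m - 1 - i)) * pq (b + 1 - 2 * r) i := by ring
    have e5 : (2 + 2 * r) * (pq (3 + 2 * r) (m - 1 - i) * (3 + 2 * r + ((m - 1 - i : ℕ) : ℝ)))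
        = ((2 + 2 * r) * pq (3 + 2 * r) (m - 1 - i)) * (3 + 2 * r + ((m - 1 - i : ℕ) : ℝ)) := by ring
    rw [e4, h3, e5, h2, ← mul_assoc]
    apply mul_le_mul_of_nonneg_right _ p2.le
    push_cast
    have ha : 0 ≤ ((m - 1 - i : ℕ) : ℝ) := Nat.cast_nonneg _
    have g1 : ((m - 1 - i : ℕ) : ℝ) + 1 ≤ 2 + 2 * r + ((m - 1 - i : ℕ) : ℝ) := by linarith
    have g2 : ((m - 1 - i : ℕ) : ℝ) + 1 ≤ 3 + 2 * r + ((m - 1 - i : ℕ) : ℝ) := by linarith
    calc (((m - 1 - i : ℕ) : ℝ) + 1) ^ 2 * pq (2 + 2 * r) (m - 1 - i)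
        = pq (2 + 2 * r) (m - 1 - i) * ((((m - 1 - i : ℕ) : ℝ) + 1) * (((m - 1 - i : ℕ) : ℝ) + 1)) := by
          ring
      _ ≤ pq (2 + 2 * r) (m - 1 - i) * ((2 + 2 * r + ((m - 1 - i : ℕ) : ℝ))
          * (3 + 2 * r + ((m - 1 - i : ℕ) : ℝ))) := by
          apply mul_le_mul_of_nonneg_left _ p1.le
          apply mul_le_mul g1 g2 (by linarith) (by linarith)
      _ = _ := by ring
  refine h1.trans (le_of_eq ?_)
  rw [← Finset.mul_sum, sum_shift _ _ hm]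
  have e3 : 4 + 2 * r + (b + 1 - 2 * r) = b + 4 + 1 := by ring
  rw [e3]
  have h4 := pq_add_one (b + 3) (m - 1)
  have h6 := pq_add_one (b + 4) (m - 1)
  have e7 : b + 3 + 1 = b + 4 := by ring
  rw [e7] at h4
  have h5 : ((m - 1 : ℕ) : ℝ) = m - 1 := by rw [Nat.cast_sub hm]; simp
  rw [h5] at h4 h6
  have q : pq (b + 4 + 1) (m - 1) = pq (b + 3) (m - 1) * (b + 3 + (m - 1)) * (b + 4 + (m - 1))
      / ((b + 3) * (b + 4)) := by
    rw [eq_div_iff (by positivity), ← h4]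
    linear_combination (b + 3) * h6
  rw [q]
  field_simp
  ring

end

end Pool.Agent.Helper22.Half
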