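import Mathlib
import Pool.Agent.Helper22.Half.Sums

/-!
Bounds for the four weighted double sums.
-/

set_option autoImplicit false

namespace Pool.Agent.Helper22.Half

variable {b r : ℝ}

theorem De_mul {b : ℝ} (hb : 0 < b) (m : ℕ) : De b m * pq (b + 3) (m - 1) = 1 :=
  inv_mul_cancel₀ (pq_pos (by linarith) _).ne'

/-- first sum -/
theorem S1_le (hb : 0 < b) {m : ℕ} (hm : 1 ≤ m) (J : ℕ) :
    ∑ j ∈ Finset.range J, ∑ i ∈ Finset.range m, ((j : ℝ) + 1) * De b (m + 1 + j) * Wt b r m i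
      ≤ m * (m + b + 1) / (b * (b + 1)) := by
  have h1 : ∑ j ∈ Finset.range J, ∑ i ∈ Finset.range m, ((j : ℝ) + 1) * De b (m + 1 + j) * Wt b r m i
      = (∑ j ∈ Finset.range J, ((j : ℝ) + 1) * De b (m + 1 + j)) * pq (b + 3) (m - 1) := by
    rw [Finset.sum_mul]
    apply Finset.sum_congr rfl
    intro j _
    rw [← Finset.mul_sum, sum_Wt hm]
  rw [h1]
  have h2 := tele2_le (e := De b) (z := b + 1) (by linarith) (fun n => (De_pos hb n).le)
    (fun n hn => De_succ hb hn) hm J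
  have h3 := De_mul hb m
  have p := pq_pos (by linarith : 0 < b + 3) (m - 1)
  calc (∑ j ∈ Finset.range J, ((j : ℝ) + 1) * De b (m + 1 + j)) * pq (b + 3) (m - 1)
      ≤ (m * (m + (b + 1)) * De b m / ((b + 1) * (b + 1 - 1))) * pq (b + 3) (m - 1) := by gcongr
    _ = m * (m + (b + 1)) / ((b + 1) * (b + 1 - 1)) * (De b m * pq (b + 3) (m - 1)) := by ring
    _ = _ := by
      rw [h3, mul_one]
      congr 1 <;> ring

/-- the constant of the second sum -/
noncomputable def Sg (b r : ℝ) : ℝ :=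
  1 / ((b + 1) * (b + 2)) + (2 + 2 * r) / (b + 3) / ((b + 2) * (b + 3))
    + (2 + 2 * r) * (3 + 2 * r) / ((b + 3) * (b + 4)) / (b + 3)

/-- second sum -/
theorem S2_le (hb : 0 < b) (hr : -(1 / 2) ≤ r) (hσ : 0 < b + 1 - 2 * r) {m : ℕ} (hm : 1 ≤ m) (J : ℕ) :
    ∑ j ∈ Finset.range J, ∑ i ∈ Finset.range m,
      ((j : ℝ) + 1) * De b (m + 1 + j) * Wt b r m i / ((j : ℝ) + 1 + i)
      ≤ m * ((1 + (b + 2) / m) * (1 + (b + 3) / m) * Sg b r) := by
  have hm' : (0 : ℝ) < m := by exact_mod_cast (by omega : 0 < m)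
  obtain ⟨c1, hc1⟩ : ∃ c1, c1 = 1 + (b + 2) / m := ⟨_, rfl⟩
  obtain ⟨c2, hc2⟩ : ∃ c2, c2 = 1 + (b + 3) / m := ⟨_, rfl⟩
  have hc1' : 1 ≤ c1 := by rw [hc1]; have : 0 ≤ (b + 2) / m := by positivity
                           linarith
  have hc2' : 1 ≤ c2 := by rw [hc2]; have : 0 ≤ (b + 3) / m := by positivity
                           linarith
  rw [← hc1, ← hc2]
  have hterm : ∀ j ∈ Finset.range J, ∀ i ∈ Finset.range m,
      ((j : ℝ) + 1) * De b (m + 1 + j) * Wt b r m i / ((j : ℝ) + 1 + i)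
      ≤ c1 * c2 * (((j : ℝ) + 1) * De1 b (m + 1 + j)) * Wt b r m i
        + c1 * c2 * (((j : ℝ) + 1) * De2 b (m + 1 + j)) * (((m - i : ℕ) : ℝ) * Wt b r m i)
        + c1 * c2 * De2 b (m + 1 + j) * (((m - i : ℕ) : ℝ) ^ 2 * Wt b r m i) := by
    intro j _ i hi
    rw [Finset.mem_range] at hi
    obtain ⟨n, hn⟩ : ∃ n : ℝ, n = (m : ℝ) + 1 + j := ⟨_, rfl⟩
    have hcast : ((m + 1 + j : ℕ) : ℝ) = n := by rw [hn]; push_cast; ring
    have hM : ((m - i : ℕ) : ℝ) = (m : ℝ) - i := by rw [Nat.cast_sub hi.le]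
    have hi0 : (0 : ℝ) ≤ i := Nat.cast_nonneg i
    have hj0 : (0 : ℝ) ≤ j := Nat.cast_nonneg j
    have him : (i : ℝ) ≤ m := by exact_mod_cast hi.le
    have hn0 : 0 < n := by rw [hn]; positivity
    have hD := De_pos hb (m + 1 + j)
    have hW := Wt_pos (by linarith) hσ m i
    rw [hM]
    unfold De1 De2
    rw [hcast]
    have hp : 0 < (j : ℝ) + 1 + i := by positivity
    -- the elementary inequality
    have k1 : ((j : ℝ) + 1) / ((j : ℝ) + 1 + i)
        ≤ ((j : ℝ) + 1) / n + ((j : ℝ) + 1) * ((m : ℝ) - i) / n ^ 2 + ((m : ℝ) - i) ^ 2 / n ^ 2 := by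
      have e1 : ((j : ℝ) + 1) / n + ((j : ℝ) + 1) * ((m : ℝ) - i) / n ^ 2 + ((m : ℝ) - i) ^ 2 / n ^ 2
          - ((j : ℝ) + 1) / ((j : ℝ) + 1 + i)
          = ((m : ℝ) - i) ^ 2 / n ^ 2 * (i / ((j : ℝ) + 1 + i)) := by
        rw [hn]
        rw [hn] at hn0
        field_simp
        ring
      have e2 : 0 ≤ ((m : ℝ) - i) ^ 2 / n ^ 2 * (i / ((j : ℝ) + 1 + i)) := by positivity
      linarith
    have k2 : 1 / n ≤ c1 * (1 / (n + b + 2)) := by
      rw [hc1, mul_one_div, div_le_div_iff₀ hn0 (by positivity)]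
      have hnm : (m : ℝ) ≤ n := by rw [hn]; linarith
      have : (b + 2) ≤ (b + 2) / m * n := by
        rw [div_mul_eq_mul_div, le_div_iff₀ hm']
        nlinarith
      nlinarith
    have k3 : 1 / n ≤ c2 * (1 / (n + b + 3)) := by
      rw [hc2, mul_one_div, div_le_div_iff₀ hn0 (by positivity)]
      have hnm : (m : ℝ) ≤ n := by rw [hn]; linarith
      have : (b + 3) ≤ (b + 3) / m * n := by
        rw [div_mul_eq_mul_div, le_div_iff₀ hm']
        nlinarith
      nlinarith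
    have k4 : 1 / n ^ 2 ≤ c1 * c2 * (1 / ((n + b + 2) * (n + b + 3))) := by
      calc 1 / n ^ 2 = 1 / n * (1 / n) := by rw [pow_two, ← one_div_mul_one_div]
        _ ≤ (c1 * (1 / (n + b + 2))) * (c2 * (1 / (n + b + 3))) := by gcongr
        _ = _ := by rw [← one_div_mul_one_div]; ring
    have k5 : 1 / n ≤ c1 * c2 * (1 / (n + b + 2)) := by
      refine k2.trans ?_
      have : 0 ≤ c1 * (1 / (n + b + 2)) := by positivity
      nlinarith
    have hmi : 0 ≤ (m : ℝ) - i := by linarith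
    calc ((j : ℝ) + 1) * De b (m + 1 + j) * Wt b r m i / ((j : ℝ) + 1 + i)
        = (De b (m + 1 + j) * Wt b r m i) * (((j : ℝ) + 1) / ((j : ℝ) + 1 + i)) := by ring
      _ ≤ (De b (m + 1 + j) * Wt b r m i) * (((j : ℝ) + 1) / n
          + ((j : ℝ) + 1) * ((m : ℝ) - i) / n ^ 2 + ((m : ℝ) - i) ^ 2 / n ^ 2) := by gcongr
      _ = (De b (m + 1 + j) * Wt b r m i) * (((j : ℝ) + 1) * (1 / n)
          + ((j : ℝ) + 1) * ((m : ℝ) - i) * (1 / n ^ 2) + ((m : ℝ) - i) ^ 2 * (1 / n ^ 2)) := by ring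
      _ ≤ (De b (m + 1 + j) * Wt b r m i) * (((j : ℝ) + 1) * (c1 * c2 * (1 / (n + b + 2)))
          + ((j : ℝ) + 1) * ((m : ℝ) - i) * (c1 * c2 * (1 / ((n + b + 2) * (n + b + 3))))
          + ((m : ℝ) - i) ^ 2 * (c1 * c2 * (1 / ((n + b + 2) * (n + b + 3))))) := by gcongr
      _ = _ := by ring
  have h1 := Finset.sum_le_sum (fun j hj => Finset.sum_le_sum (hterm j hj))
  refine h1.trans ?_
  simp_rw [Finset.sum_add_distrib]
  have hP := pq_pos (by linarith : 0 < b + 3) (m - 1)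
  have hDP := De_mul hb m
  have hDm := De_pos hb m
  -- part 1
  have t1 : ∑ j ∈ Finset.range J, ∑ i ∈ Finset.range m, c1 * c2 * (((j : ℝ) + 1)
      * De1 b (m + 1 + j)) * Wt b r m i ≤ c1 * c2 * (m * (1 / ((b + 1) * (b + 2)))) := by
    have e1 : ∑ j ∈ Finset.range J, ∑ i ∈ Finset.range m, c1 * c2 * (((j : ℝ) + 1)
      * De1 b (m + 1 + j)) * Wt b r m i
        = c1 * c2 * ((∑ j ∈ Finset.range J, ((j : ℝ) + 1) * De1 b (m + 1 + j)) * pq (b + 3) (m - 1)) := by
      rw [Finset.sum_mul, Finset.mul_sum]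
      apply Finset.sum_congr rfl
      intro j _
      rw [← Finset.mul_sum, sum_Wt hm]; ring
    rw [e1]
    have h2 := tele2_le (e := De1 b) (z := b + 2) (by linarith) (fun n => (De1_pos hb n).le)
      (fun n hn => De1_succ hb hn) hm J
    have h3 : (m : ℝ) * (m + (b + 2)) * De1 b m / ((b + 2) * (b + 2 - 1)) * pq (b + 3) (m - 1)
        = m * (1 / ((b + 1) * (b + 2))) := by
      have e : (m : ℝ) * (m + (b + 2)) * De1 b m / ((b + 2) * (b + 2 - 1)) * pq (b + 3) (m - 1)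
          = (m : ℝ) * (1 / ((b + 1) * (b + 2))) * (De b m * pq (b + 3) (m - 1)) := by
        unfold De1
        have q : (m : ℝ) + b + 2 ≠ 0 := by positivity
        have q2 : b + 2 - 1 = b + 1 := by ring
        rw [q2]
        field_simp
        ring
      rw [e, hDP, mul_one]
    rw [← h3]
    gcongr
  have t2 : ∑ j ∈ Finset.range J, ∑ i ∈ Finset.range m, c1 * c2 * (((j : ℝ) + 1)
      * De2 b (m + 1 + j)) * (((m - i : ℕ) : ℝ) * Wt b r m i)
      ≤ c1 * c2 * (m * ((2 + 2 * r) / (b + 3) / ((b + 2) * (b + 3)))) := by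
    have e1 : ∑ j ∈ Finset.range J, ∑ i ∈ Finset.range m, c1 * c2 * (((j : ℝ) + 1)
      * De2 b (m + 1 + j)) * (((m - i : ℕ) : ℝ) * Wt b r m i)
        = c1 * c2 * ((∑ j ∈ Finset.range J, ((j : ℝ) + 1) * De2 b (m + 1 + j))
          * ∑ i ∈ Finset.range m, ((m - i : ℕ) : ℝ) * Wt b r m i) := by
      rw [Finset.sum_mul, Finset.mul_sum]
      apply Finset.sum_congr rfl
      intro j _
      rw [← Finset.mul_sum]; ring
    rw [e1]
    have h2 := tele2_le (e := De2 b) (z := b + 3) (by linarith) (fun n => (De2_pos hb n).le)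
      (fun n hn => De2_succ hb hn) hm J
    have h4 := sum_M_Wt hb hr hσ hm
    have h3 : (m : ℝ) * (m + (b + 3)) * De2 b m / ((b + 3) * (b + 3 - 1))
        * ((2 + 2 * r) / (b + 3) * (m + b + 2) * pq (b + 3) (m - 1))
        = m * ((2 + 2 * r) / (b + 3) / ((b + 2) * (b + 3))) := by
      have e : (m : ℝ) * (m + (b + 3)) * De2 b m / ((b + 3) * (b + 3 - 1))
        * ((2 + 2 * r) / (b + 3) * (m + b + 2) * pq (b + 3) (m - 1))
          = m * ((2 + 2 * r) / (b + 3) / ((b + 2) * (b + 3))) * (De b m * pq (b + 3) (m - 1)) := by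
        unfold De2
        have q : (m : ℝ) + b + 2 ≠ 0 := by positivity
        have q1 : (m : ℝ) + b + 3 ≠ 0 := by positivity
        have q3 : (m : ℝ) + (b + 3) = m + b + 3 := by ring
        have q2 : b + 3 - 1 = b + 2 := by ring
        rw [q2, q3]
        field_simp
      rw [e, hDP, mul_one]
    rw [← h3]
    have hs0 : 0 ≤ ∑ i ∈ Finset.range m, ((m - i : ℕ) : ℝ) * Wt b r m i :=
      Finset.sum_nonneg (fun i _ => mul_nonneg (Nat.cast_nonneg _) (Wt_pos (by linarith) hσ m i).le)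
    have hd2 := De2_pos hb m
    have hz : 0 < b + 3 - 1 := by linarith
    gcongr
  have t3 : ∑ j ∈ Finset.range J, ∑ i ∈ Finset.range m, c1 * c2 * De2 b (m + 1 + j)
      * (((m - i : ℕ) : ℝ) ^ 2 * Wt b r m i)
      ≤ c1 * c2 * (m * ((2 + 2 * r) * (3 + 2 * r) / ((b + 3) * (b + 4)) / (b + 3))) := by
    have e1 : ∑ j ∈ Finset.range J, ∑ i ∈ Finset.range m, c1 * c2 * De2 b (m + 1 + j)
        * (((m - i : ℕ) : ℝ) ^ 2 * Wt b r m i)
        = c1 * c2 * ((∑ j ∈ Finset.range J, De2 b (m + 1 + j))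
          * ∑ i ∈ Finset.range m, ((m - i : ℕ) : ℝ) ^ 2 * Wt b r m i) := by
      rw [Finset.sum_mul, Finset.mul_sum]
      apply Finset.sum_congr rfl
      intro j _
      rw [← Finset.mul_sum]; ring
    rw [e1]
    have h2 := tele1_le (e := De2 b) (z := b + 3) (by linarith) (fun n => (De2_pos hb n).le)
      (fun n hn => De2_succ hb hn) hm J
    have h4 := sum_MM_Wt hb hr hσ hm
    have h3 : (m : ℝ) * De2 b m / (b + 3)
        * ((2 + 2 * r) * (3 + 2 * r) / ((b + 3) * (b + 4)) * ((m + b + 2) * (m + b + 3))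
        * pq (b + 3) (m - 1))
        = m * ((2 + 2 * r) * (3 + 2 * r) / ((b + 3) * (b + 4)) / (b + 3)) := by
      have e : (m : ℝ) * De2 b m / (b + 3)
        * ((2 + 2 * r) * (3 + 2 * r) / ((b + 3) * (b + 4)) * ((m + b + 2) * (m + b + 3))
        * pq (b + 3) (m - 1))
          = m * ((2 + 2 * r) * (3 + 2 * r) / ((b + 3) * (b + 4)) / (b + 3))
            * (De b m * pq (b + 3) (m - 1)) := by
        unfold De2
        have q : (m : ℝ) + b + 2 ≠ 0 := by positivity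
        have q1 : (m : ℝ) + b + 3 ≠ 0 := by positivity
        field_simp
      rw [e, hDP, mul_one]
    rw [← h3]
    have hs0 : 0 ≤ ∑ i ∈ Finset.range m, ((m - i : ℕ) : ℝ) ^ 2 * Wt b r m i :=
      Finset.sum_nonneg (fun i _ => mul_nonneg (by positivity) (Wt_pos (by linarith) hσ m i).le)
    have hd2 := De2_pos hb m
    gcongr
  calc _ ≤ c1 * c2 * (m * (1 / ((b + 1) * (b + 2))))
        + c1 * c2 * (m * ((2 + 2 * r) / (b + 3) / ((b + 2) * (b + 3))))
        + c1 * c2 * (m * ((2 + 2 * r) * (3 + 2 * r) / ((b + 3) * (b + 4)) / (b + 3))) :=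
        add_le_add (add_le_add t1 t2) t3
    _ = _ := by unfold Sg; ring

end Pool.Agent.Helper22.Half
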