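import Mathlib
import Pool.Agent.Helper22.Half.Sums2

/-!
The third and fourth weighted double sums.
-/

set_option autoImplicit false

namespace Pool.Agent.Helper22.Half

variable {b r : ℝ}

/-- index shift between the two auxiliary sums -/
theorem shift_sum {m : ℕ} (hm : 1 ≤ m) (u : ℕ → ℝ) :
    ∑ i ∈ Finset.range m, Wt b r m i * i * (((m : ℝ) - i) + 1 + 2 * r) * u i
      = ∑ i ∈ Finset.range m, Wt b r m i * (((m : ℝ) - i) - 1) * (b + 1 - 2 * r + i) * u (i + 1) := by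
  obtain ⟨k, rfl⟩ : ∃ k, m = k + 1 := ⟨m - 1, by omega⟩
  rw [Finset.sum_range_succ', Finset.sum_range_succ
    (fun i => Wt b r (k + 1) i * ((((k + 1 : ℕ) : ℝ) - i) - 1) * (b + 1 - 2 * r + i) * u (i + 1))]
  have e0 : Wt b r (k + 1) k * ((((k + 1 : ℕ) : ℝ) - (k : ℝ)) - 1) * (b + 1 - 2 * r + k)
      * u (k + 1) = 0 := by
    push_cast
    ring
  rw [e0]
  simp only [Nat.cast_zero, mul_zero, zero_mul, add_zero]
  apply Finset.sum_congr rfl
  intro i hi
  rw [Finset.mem_range] at hi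
  unfold Wt
  have e1 : k + 1 - 1 - i = (k + 1 - 1 - (i + 1)) + 1 := by omega
  rw [e1]
  obtain ⟨a, ha⟩ : ∃ a, a = k + 1 - 1 - (i + 1) := ⟨_, rfl⟩
  rw [← ha]
  have hk : (k : ℝ) = i + 1 + a := by
    have : k = i + 1 + a := by omega
    rw [this]; push_cast; ring
  have h1 := pq_succ' (b + 1 - 2 * r) i
  have h2 := pq_succ' (2 + 2 * r) a
  push_cast
  rw [hk]
  have q1 : pq (2 + 2 * r) a * pq (b + 1 - 2 * r) (i + 1) * ((i : ℝ) + 1)
      * (((i : ℝ) + 1 + a + 1 - (i + 1)) + 1 + 2 * r) * u (i + 1)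
      = (pq (2 + 2 * r) a * (2 + 2 * r + a)) * (((i : ℝ) + 1) * pq (b + 1 - 2 * r) (i + 1))
        * u (i + 1) := by ring
  have q2 : pq (2 + 2 * r) (a + 1) * pq (b + 1 - 2 * r) i * (((i : ℝ) + 1 + a + 1 - i) - 1)
      * (b + 1 - 2 * r + i) * u (i + 1)
      = (((a : ℝ) + 1) * pq (2 + 2 * r) (a + 1)) * (pq (b + 1 - 2 * r) i * (b + 1 - 2 * r + i))
        * u (i + 1) := by ring
  rw [q1, q2, h1, h2]

/-- the exact evaluation -/
theorem S3_exact (hb : 0 < b) {m : ℕ} (hm : 1 ≤ m) (J : ℕ) :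
    (b + 1 - 2 * r) * (m + b + 2) * ∑ j ∈ Finset.range J, ∑ i ∈ Finset.range m,
        De1 b (m + 1 + j) * Wt b r m i / ((j : ℝ) + 1 + i)
      = ∑ i ∈ Finset.range m, Wt b r m i * (i + (b + 1 - 2 * r)) * De b (m + 1) / (1 + (i : ℝ))
        - ∑ i ∈ Finset.range m, Wt b r m i * (i + (b + 1 - 2 * r)) * De b (m + 1 + J)
          / ((J : ℝ) + 1 + i) := by
  induction J with
  | zero => simp
  | succ J ih =>
    rw [Finset.sum_range_succ, mul_add, ih]
    have hn : ((m + 1 + J : ℕ) : ℝ) + b + 2 ≠ 0 := by positivity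
    have hD : De b (m + 1 + (J + 1)) = ((m + 1 + J : ℕ) : ℝ) * De1 b (m + 1 + J) := by
      have h := De_succ hb (n := m + 1 + J) (by omega)
      have e : m + 1 + (J + 1) = m + 1 + J + 1 := by ring
      rw [e]
      unfold De1
      rw [mul_div_assoc', eq_div_iff hn, ← h]
      ring
    have hD0 : De b (m + 1 + J) = (((m + 1 + J : ℕ) : ℝ) + b + 2) * De1 b (m + 1 + J) := by
      unfold De1
      field_simp
    rw [hD, hD0]
    generalize De1 b (m + 1 + J) = E
    have hsh := shift_sum (b := b) (r := r) hm (fun i => E / ((J : ℝ) + 1 + i))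
    have hterm : ∀ i ∈ Finset.range m,
        (b + 1 - 2 * r) * (m + b + 2) * (E * Wt b r m i / ((J : ℝ) + 1 + i))
        = Wt b r m i * (i + (b + 1 - 2 * r)) * ((((m + 1 + J : ℕ) : ℝ) + b + 2) * E)
            / ((J : ℝ) + 1 + i)
          - Wt b r m i * (i + (b + 1 - 2 * r)) * (((m + 1 + J : ℕ) : ℝ) * E)
            / (((J + 1 : ℕ) : ℝ) + 1 + i)
          - Wt b r m i * i * (((m : ℝ) - i) + 1 + 2 * r) * (E / ((J : ℝ) + 1 + i))
          + Wt b r m i * (((m : ℝ) - i) - 1) * (b + 1 - 2 * r + i)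
            * (E / ((J : ℝ) + 1 + ((i + 1 : ℕ) : ℝ))) := by
      intro i hi
      have h1 : (J : ℝ) + 1 + i ≠ 0 := by positivity
      have h2 : (J : ℝ) + 1 + 1 + i ≠ 0 := by positivity
      have e1 : (J : ℝ) + 1 + ((i : ℝ) + 1) = (J : ℝ) + 1 + 1 + i := by ring
      push_cast
      rw [e1]
      field_simp
      ring
    have hsum := Finset.sum_congr rfl hterm
    rw [← Finset.mul_sum, Finset.sum_add_distrib, Finset.sum_sub_distrib, Finset.sum_sub_distrib,
      hsh] at hsum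
    rw [hsum]
    ring

theorem S3_aux (hb : 0 < b) (hr : -(1 / 2) ≤ r) (hσ : 0 < b + 1 - 2 * r) {m : ℕ} (hm : 1 ≤ m)
    (J : ℕ) :
    ∑ j ∈ Finset.range J, ∑ i ∈ Finset.range m, De1 b (m + 1 + j) * Wt b r m i / ((j : ℝ) + 1 + i)
      ≤ 1 / ((b + 1 - 2 * r) * (m + b + 2)) := by
  have h := S3_exact (r := r) hb hm J
  have h2 : 0 ≤ ∑ i ∈ Finset.range m, Wt b r m i * (i + (b + 1 - 2 * r)) * De b (m + 1 + J)
          / ((J : ℝ) + 1 + i) := by
    apply Finset.sum_nonneg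
    intro i _
    have h3 := Wt_pos (b := b) (by linarith : -1 < r) hσ m i
    have h4 := De_pos hb (m + 1 + J)
    have : 0 ≤ (i : ℝ) + (b + 1 - 2 * r) := by
      have : (0 : ℝ) ≤ i := Nat.cast_nonneg i
      linarith
    positivity
  have h3 : ∑ i ∈ Finset.range m, Wt b r m i * (i + (b + 1 - 2 * r)) * De b (m + 1) / (1 + (i : ℝ))
      ≤ 1 := by
    have e1 : ∑ i ∈ Finset.range m, Wt b r m i * (i + (b + 1 - 2 * r)) * De b (m + 1) / (1 + (i : ℝ))
        = De b (m + 1) * ∑ i ∈ Finset.range m, pq (2 + 2 * r) (m - 1 - i)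
          * pq (b + 1 - 2 * r) (i + 1) := by
      rw [Finset.mul_sum]
      apply Finset.sum_congr rfl
      intro i _
      unfold Wt
      rw [pq_succ]
      ring
    have e2 : pq (b + 3) m = pq (2 + 2 * r) m + ∑ i ∈ Finset.range m, pq (2 + 2 * r) (m - 1 - i)
          * pq (b + 1 - 2 * r) (i + 1) := by
      have hv := vander (b + 1 - 2 * r) (2 + 2 * r) m
      have e3 : b + 1 - 2 * r + (2 + 2 * r) = b + 3 := by ring
      rw [e3, Finset.sum_range_succ'] at hv
      rw [← hv, pq_zero, one_mul, Nat.sub_zero, add_comm]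
      congr 1
      apply Finset.sum_congr rfl
      intro i _
      have e4 : m - (i + 1) = m - 1 - i := by omega
      rw [e4]; ring
    rw [e1]
    have h5 := pq_pos (by linarith : 0 < 2 + 2 * r) m
    have h6 : De b (m + 1) = (pq (b + 3) m)⁻¹ := by
      unfold De; rw [Nat.add_sub_cancel]
    have h7 := pq_pos (by linarith : 0 < b + 3) m
    rw [h6, inv_mul_le_iff₀ h7]
    linarith
  have hpos : 0 < (b + 1 - 2 * r) * (m + b + 2) := by positivity
  rw [le_div_iff₀ hpos]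
  linarith

/-- summation by parts -/
theorem by_parts (D v : ℕ → ℝ) (m J : ℕ) :
    ∑ j ∈ Finset.range J, ((j : ℝ) + 1) * D (m + 1 + j) * (v j - v (j + 1))
      = ∑ j ∈ Finset.range J, (((j : ℝ) + 1) * D (m + 1 + j) - j * D (m + j)) * v j
        - J * D (m + J) * v J := by
  induction J with
  | zero => simp
  | succ J ih =>
    rw [Finset.sum_range_succ, Finset.sum_range_succ, ih]
    have e : m + (J + 1) = m + 1 + J := by ring
    rw [e]
    push_cast
    ring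

/-- third sum -/
theorem S3_le (hb : 0 < b) (hr : -(1 / 2) ≤ r) (hσ : 0 < b + 1 - 2 * r) {m : ℕ} (hm : 1 ≤ m)
    (J : ℕ) :
    ∑ j ∈ Finset.range J, ∑ i ∈ Finset.range m,
      ((j : ℝ) + 1) * De b (m + 1 + j) * Wt b r m i / (((j : ℝ) + 1 + i) * ((j : ℝ) + 2 + i))
      ≤ (1 + (b + 3) / m) / (b + 1 - 2 * r) := by
  have hm' : (0 : ℝ) < m := by exact_mod_cast (by omega : 0 < m)
  rw [Finset.sum_comm]
  have h1 : ∀ i ∈ Finset.range m, ∑ j ∈ Finset.range J,
      ((j : ℝ) + 1) * De b (m + 1 + j) * Wt b r m i / (((j : ℝ) + 1 + i) * ((j : ℝ) + 2 + i))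
      ≤ ∑ j ∈ Finset.range J, (m * (1 + (b + 3) / m)) *
        (De1 b (m + 1 + j) * Wt b r m i / ((j : ℝ) + 1 + i)) := by
    intro i _
    have hW := Wt_pos (b := b) (by linarith : -1 < r) hσ m i
    have e1 : ∑ j ∈ Finset.range J,
      ((j : ℝ) + 1) * De b (m + 1 + j) * Wt b r m i / (((j : ℝ) + 1 + i) * ((j : ℝ) + 2 + i))
        = Wt b r m i * ∑ j ∈ Finset.range J, ((j : ℝ) + 1) * De b (m + 1 + j)
          * (1 / ((j : ℝ) + 1 + i) - 1 / (((j + 1 : ℕ) : ℝ) + 1 + i)) := by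
      rw [Finset.mul_sum]
      apply Finset.sum_congr rfl
      intro j _
      have q1 : (j : ℝ) + 1 + i ≠ 0 := by positivity
      have q2 : (j : ℝ) + 2 + i ≠ 0 := by positivity
      have q3 : (j : ℝ) + 1 + 1 + i = (j : ℝ) + 2 + i := by ring
      push_cast
      rw [q3]
      field_simp
      ring
    rw [e1, by_parts (De b) (fun j => 1 / ((j : ℝ) + 1 + i)) m J]
    have h2 : 0 ≤ (J : ℝ) * De b (m + J) * (1 / ((J : ℝ) + 1 + i)) := by
      have := De_pos hb (m + J)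
      positivity
    have h3 : ∑ j ∈ Finset.range J, (((j : ℝ) + 1) * De b (m + 1 + j) - j * De b (m + j))
        * (1 / ((j : ℝ) + 1 + i))
        ≤ ∑ j ∈ Finset.range J, (m * (1 + (b + 3) / m)) * De1 b (m + 1 + j) * (1 / ((j : ℝ) + 1 + i)) := by
      apply Finset.sum_le_sum
      intro j _
      apply mul_le_mul_of_nonneg_right _ (by positivity)
      have hE := De1_pos hb (m + 1 + j)
      have hj0 : (0 : ℝ) ≤ j := Nat.cast_nonneg j
      have hD1 : De b (m + 1 + j) = ((m : ℝ) + 1 + j + b + 2) * De1 b (m + 1 + j) := by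
        unfold De1
        push_cast
        have : (m : ℝ) + 1 + j + b + 2 ≠ 0 := by positivity
        field_simp
      have hD0 : ((m : ℝ) + j) * De b (m + j)
          = ((m : ℝ) + 1 + j + b + 2) * ((m : ℝ) + j + b + 2) * De1 b (m + 1 + j) := by
        have h := De_succ hb (n := m + j) (by omega)
        have e : m + 1 + j = m + j + 1 := by ring
        push_cast at h
        rw [← h, ← e, hD1]
        ring
      have hmj : 0 < (m : ℝ) + j := by positivity
      have hDj : De b (m + j) = ((m : ℝ) + 1 + j + b + 2) * ((m : ℝ) + j + b + 2)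
          * De1 b (m + 1 + j) / ((m : ℝ) + j) := by
        rw [eq_div_iff hmj.ne', ← hD0]
        ring
      rw [hD1, hDj]
      have e3 : ((j : ℝ) + 1) * (((m : ℝ) + 1 + j + b + 2) * De1 b (m + 1 + j))
          - j * (((m : ℝ) + 1 + j + b + 2) * ((m : ℝ) + j + b + 2) * De1 b (m + 1 + j) / ((m : ℝ) + j))
          = De1 b (m + 1 + j) * (((m : ℝ) + 1 + j + b + 2) * ((m - j * (b + 1)) / ((m : ℝ) + j))) := by
        field_simp
        ring
      rw [e3, mul_comm (m * (1 + (b + 3) / m))]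
      apply mul_le_mul_of_nonneg_left _ hE.le
      have e4 : ((m : ℝ) - j * (b + 1)) / ((m : ℝ) + j) ≤ m / ((m : ℝ) + j) := by
        gcongr
        nlinarith
      calc ((m : ℝ) + 1 + j + b + 2) * ((m - j * (b + 1)) / ((m : ℝ) + j))
          ≤ ((m : ℝ) + 1 + j + b + 2) * (m / ((m : ℝ) + j)) := by gcongr
        _ = m * (1 + (b + 3) / ((m : ℝ) + j)) := by field_simp; ring
        _ ≤ m * (1 + (b + 3) / m) := by
          gcongr
          linarith
    calc Wt b r m i * (∑ j ∈ Finset.range J, (((j : ℝ) + 1) * De b (m + 1 + j) - j * De b (m + j))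
        * (1 / ((j : ℝ) + 1 + i)) - (J : ℝ) * De b (m + J) * (1 / ((J : ℝ) + 1 + i)))
        ≤ Wt b r m i * ∑ j ∈ Finset.range J, (m * (1 + (b + 3) / m)) * De1 b (m + 1 + j)
          * (1 / ((j : ℝ) + 1 + i)) := by
          apply mul_le_mul_of_nonneg_left _ hW.le
          linarith
      _ = _ := by
          rw [Finset.mul_sum]
          apply Finset.sum_congr rfl
          intro j _
          ring
  refine (Finset.sum_le_sum h1).trans ?_
  rw [Finset.sum_comm]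
  simp_rw [← Finset.mul_sum]
  have h4 := S3_aux hb hr hσ hm J
  have hc : 0 ≤ (m : ℝ) * (1 + (b + 3) / m) := by positivity
  calc (m : ℝ) * (1 + (b + 3) / m) * ∑ j ∈ Finset.range J, ∑ i ∈ Finset.range m,
        De1 b (m + 1 + j) * Wt b r m i / ((j : ℝ) + 1 + i)
      ≤ (m : ℝ) * (1 + (b + 3) / m) * (1 / ((b + 1 - 2 * r) * (m + b + 2))) := by gcongr
    _ = (1 + (b + 3) / m) / (b + 1 - 2 * r) * (m / (m + b + 2)) := by
        have : (m : ℝ) + b + 2 ≠ 0 := by positivity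
        field_simp
    _ ≤ (1 + (b + 3) / m) / (b + 1 - 2 * r) * 1 := by
        have : (m : ℝ) / (m + b + 2) ≤ 1 := by
          rw [div_le_one (by positivity)]; linarith
        gcongr
    _ = _ := mul_one _

theorem small_sum (i J : ℕ) :
    ∑ j ∈ Finset.range J, ((j : ℝ) + 1) / (((j : ℝ) + 1 + i) * ((j : ℝ) + 2 + i) * ((j : ℝ) + 3 + i))
      ≤ 1 / ((i : ℝ) + 2) - 1 / ((J : ℝ) + i + 2) := by
  induction J with
  | zero => simp
  | succ J ih =>
    rw [Finset.sum_range_succ]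
    have h1 : ((J : ℝ) + 1) / (((J : ℝ) + 1 + i) * ((J : ℝ) + 2 + i) * ((J : ℝ) + 3 + i))
        ≤ 1 / ((J : ℝ) + i + 2) - 1 / (((J + 1 : ℕ) : ℝ) + i + 2) := by
      have e1 : 1 / ((J : ℝ) + i + 2) - 1 / (((J + 1 : ℕ) : ℝ) + i + 2)
          = ((J : ℝ) + 1 + i) / (((J : ℝ) + 1 + i) * ((J : ℝ) + 2 + i) * ((J : ℝ) + 3 + i)) := by
        push_cast
        have q1 : (J : ℝ) + i + 2 ≠ 0 := by positivity
        have q2 : (J : ℝ) + 1 + i + 2 ≠ 0 := by positivity
        have q3 : (J : ℝ) + 1 + i ≠ 0 := by positivity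
        have q4 : (J : ℝ) + 2 + i ≠ 0 := by positivity
        have q5 : (J : ℝ) + 3 + i ≠ 0 := by positivity
        field_simp
        ring
      rw [e1]
      apply div_le_div_of_nonneg_right _ (by positivity)
      have : (0 : ℝ) ≤ i := Nat.cast_nonneg i
      linarith
    linarith

/-- decay of the ratio of the coefficients -/
theorem ratio_decay (hb : 0 < b) (hb1 : b ≤ 1) (hr : -1 < r) (hσ : 1 / 4 ≤ b + 1 - 2 * r) (m : ℕ) :
    pq (2 + 2 * r) m ^ 4 * ((m : ℝ) + 4) ≤ 4 * pq (b + 3) m ^ 4 := by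
  induction m with
  | zero => simp [pq]
  | succ m ih =>
    have p1 := pq_pos (by linarith : 0 < 2 + 2 * r) m
    have p2 := pq_pos (by linarith : 0 < b + 3) m
    have hm0 : (0 : ℝ) ≤ m := Nat.cast_nonneg m
    rw [pq_succ, pq_succ]
    have e1 : (pq (2 + 2 * r) m * ((2 + 2 * r + m) / (m + 1))) ^ 4 * (((m + 1 : ℕ) : ℝ) + 4)
        = (pq (2 + 2 * r) m ^ 4 * ((m : ℝ) + 4)) * ((2 + 2 * r + m) ^ 4 * ((m : ℝ) + 5)
          / (((m : ℝ) + 1) ^ 4 * ((m : ℝ) + 4))) := by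
      push_cast
      field_simp
      ring
    have e2 : 4 * (pq (b + 3) m * ((b + 3 + m) / (m + 1))) ^ 4
        = (4 * pq (b + 3) m ^ 4) * ((b + 3 + m) ^ 4 / ((m : ℝ) + 1) ^ 4) := by
      rw [mul_pow, div_pow]; ring
    rw [e1, e2]
    have hy : 0 < 2 + 2 * r + (m : ℝ) := by linarith
    apply mul_le_mul ih _ (by positivity) (by positivity)
    rw [div_le_div_iff₀ (by positivity) (by positivity)]
    have key : (2 + 2 * r + m) ^ 4 * ((m : ℝ) + 5) ≤ (b + 3 + m) ^ 4 * ((m : ℝ) + 4) := by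
      -- write x = b + 3 + m
      obtain ⟨x, hx⟩ : ∃ x, x = b + 3 + (m : ℝ) := ⟨_, rfl⟩
      have hx0 : 3 < x := by rw [hx]; linarith
      have hx1 : x ≤ m + 4 := by rw [hx]; linarith
      have hle : 2 + 2 * r + (m : ℝ) ≤ x - 1 / 4 := by rw [hx]; linarith
      rw [← hx]
      have h1 : (2 + 2 * r + (m : ℝ)) ^ 4 ≤ (x - 1 / 4) ^ 4 := pow_le_pow_left₀ hy.le hle 4
      have h2 : (x - 1 / 4) ^ 4 * (x + 1) ≤ x ^ 4 * x := by
        have : x ^ 4 * x - (x - 1 / 4) ^ 4 * (x + 1)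
            = (5 / 8) * x ^ 3 - (5 / 16) * x ^ 2 + (15 / 256) * x - 1 / 256 := by ring
        have h3 : 0 ≤ (5 / 8) * x ^ 3 - (5 / 16) * x ^ 2 := by
          have : (5 / 8) * x ^ 3 - (5 / 16) * x ^ 2 = x ^ 2 * ((5 / 8) * x - 5 / 16) := by ring
          rw [this]
          apply mul_nonneg (sq_nonneg x); linarith
        linarith
      -- pass from x to m + 4
      have h4 : (x - 1 / 4) ^ 4 * ((m : ℝ) + 5) ≤ x ^ 4 * ((m : ℝ) + 4) := by
        obtain ⟨y, hy'⟩ : ∃ y, y = (m : ℝ) + 4 := ⟨_, rfl⟩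
        have e5 : (m : ℝ) + 5 = y + 1 := by rw [hy']; ring
        rw [← hy'] at hx1 ⊢
        rw [e5]
        -- (x-1/4)^4 (y+1) ≤ x^4 y  follows from y ≥ x
        have h5 : (x - 1 / 4) ^ 4 ≤ x ^ 4 := pow_le_pow_left₀ (by linarith) (by linarith) 4
        nlinarith [mul_nonneg (sub_nonneg.mpr h5) (sub_nonneg.mpr hx1)]
      calc (2 + 2 * r + (m : ℝ)) ^ 4 * ((m : ℝ) + 5) ≤ (x - 1 / 4) ^ 4 * ((m : ℝ) + 5) := by
            gcongr
        _ ≤ _ := h4
    calc (2 + 2 * r + (m : ℝ)) ^ 4 * ((m : ℝ) + 5) * ((m : ℝ) + 1) ^ 4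
        ≤ ((b + 3 + m) ^ 4 * ((m : ℝ) + 4)) * ((m : ℝ) + 1) ^ 4 := by gcongr
      _ = _ := by ring

theorem ratio_le (hb : 0 < b) (hb1 : b ≤ 1) (hr : -1 < r) (hσ : 1 / 4 ≤ b + 1 - 2 * r) (m : ℕ)
    {δ : ℝ} (hδ0 : 0 ≤ δ) (hδ : 4 ≤ δ ^ 4 * ((m : ℝ) + 4)) :
    pq (2 + 2 * r) m ≤ δ * pq (b + 3) m := by
  have h := ratio_decay hb hb1 hr hσ m
  have p1 := pq_pos (by linarith : 0 < 2 + 2 * r) m
  have p2 := pq_pos (by linarith : 0 < b + 3) m
  have h2 : pq (2 + 2 * r) m ^ 4 ≤ (δ * pq (b + 3) m) ^ 4 := by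
    have hm : (0 : ℝ) < (m : ℝ) + 4 := by positivity
    apply le_of_mul_le_mul_right _ hm
    calc pq (2 + 2 * r) m ^ 4 * ((m : ℝ) + 4) ≤ 4 * pq (b + 3) m ^ 4 := h
      _ ≤ (δ ^ 4 * ((m : ℝ) + 4)) * pq (b + 3) m ^ 4 := by gcongr
      _ = _ := by ring
  exact le_of_pow_le_pow_left₀ (by norm_num) (by positivity) h2

theorem pq_three (n : ℕ) : pq (3 : ℝ) n = ((n : ℝ) + 1) * ((n : ℝ) + 2) / 2 := by
  have h := pq_add_one (2 : ℝ) n
  rw [pq_two] at h
  have e : (2 : ℝ) + 1 = 3 := by norm_num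
  rw [e] at h
  linear_combination h / 2

/-- fourth sum -/
theorem S4_le (hb : 0 < b) (hb1 : b ≤ 1) (hr : -(1 / 2) ≤ r) (hσ : 1 / 4 ≤ b + 1 - 2 * r)
    {m : ℕ} (hm : 1 ≤ m) (J : ℕ) {I0 : ℕ} (hI : 1 ≤ I0) {δ : ℝ} (hδ0 : 0 ≤ δ)
    (hδ : 4 ≤ δ ^ 4 * ((m : ℝ) + 4)) :
    ∑ j ∈ Finset.range J, ∑ i ∈ Finset.range m,
      ((j : ℝ) + 1) * De b (m + 1 + j) * Wt b r m i
        / (((j : ℝ) + 1 + i) * ((j : ℝ) + 2 + i) * ((j : ℝ) + 3 + i))
      ≤ 1 / I0 + I0 * ((I0 : ℝ) + 1) ^ 2 * δ := by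
  have hI' : (0 : ℝ) < I0 := by exact_mod_cast (by omega : 0 < I0)
  have hσ0 : 0 < b + 1 - 2 * r := by linarith
  rw [Finset.sum_comm]
  have hP1 := pq_pos (by linarith : 0 < b + 3) m
  have hD := De_pos hb (m + 1)
  have hDP : De b (m + 1) * pq (b + 3) m = 1 := by
    have := De_mul hb (m + 1)
    rwa [Nat.add_sub_cancel] at this
  have h1 : ∀ i ∈ Finset.range m, ∑ j ∈ Finset.range J,
      ((j : ℝ) + 1) * De b (m + 1 + j) * Wt b r m i
        / (((j : ℝ) + 1 + i) * ((j : ℝ) + 2 + i) * ((j : ℝ) + 3 + i))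
      ≤ De b (m + 1) * (Wt b r m i * (1 / ((i : ℝ) + 2))) := by
    intro i _
    have hW := Wt_pos (b := b) (by linarith : -1 < r) hσ0 m i
    calc ∑ j ∈ Finset.range J, ((j : ℝ) + 1) * De b (m + 1 + j) * Wt b r m i
        / (((j : ℝ) + 1 + i) * ((j : ℝ) + 2 + i) * ((j : ℝ) + 3 + i))
        ≤ ∑ j ∈ Finset.range J, (De b (m + 1) * Wt b r m i) * (((j : ℝ) + 1)
        / (((j : ℝ) + 1 + i) * ((j : ℝ) + 2 + i) * ((j : ℝ) + 3 + i))) := by
          apply Finset.sum_le_sum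
          intro j _
          have hDj := De_anti hb (a := m + 1) (c := m + 1 + j) (by omega) (by omega)
          have hq : 0 ≤ ((j : ℝ) + 1)
            / (((j : ℝ) + 1 + i) * ((j : ℝ) + 2 + i) * ((j : ℝ) + 3 + i)) := by positivity
          calc ((j : ℝ) + 1) * De b (m + 1 + j) * Wt b r m i
              / (((j : ℝ) + 1 + i) * ((j : ℝ) + 2 + i) * ((j : ℝ) + 3 + i))
              = (De b (m + 1 + j) * Wt b r m i) * (((j : ℝ) + 1)
                / (((j : ℝ) + 1 + i) * ((j : ℝ) + 2 + i) * ((j : ℝ) + 3 + i))) := by ring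
            _ ≤ _ := by gcongr
      _ = (De b (m + 1) * Wt b r m i) * ∑ j ∈ Finset.range J, ((j : ℝ) + 1)
        / (((j : ℝ) + 1 + i) * ((j : ℝ) + 2 + i) * ((j : ℝ) + 3 + i)) := by rw [Finset.mul_sum]
      _ ≤ (De b (m + 1) * Wt b r m i) * (1 / ((i : ℝ) + 2)) := by
          apply mul_le_mul_of_nonneg_left _ (by positivity)
          refine (small_sum i J).trans ?_
          have : 0 ≤ 1 / ((J : ℝ) + i + 2) := by positivity
          linarith
      _ = _ := by ring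
  refine (Finset.sum_le_sum h1).trans ?_
  rw [← Finset.mul_sum]
  -- split
  have h2 : ∀ i ∈ Finset.range m, Wt b r m i * (1 / ((i : ℝ) + 2))
      ≤ (1 / I0) * Wt b r m i + (if i < I0 then Wt b r m i else 0) := by
    intro i _
    have hW := Wt_pos (b := b) (by linarith : -1 < r) hσ0 m i
    split_ifs with h
    · have : 1 / ((i : ℝ) + 2) ≤ 1 := by
        rw [div_le_one (by positivity)]
        have : (0 : ℝ) ≤ i := Nat.cast_nonneg i
        linarith
      have h3 : 0 ≤ (1 / (I0 : ℝ)) * Wt b r m i := by positivity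
      nlinarith
    · have hi : (I0 : ℝ) ≤ i := by exact_mod_cast (not_lt.mp h)
      have : 1 / ((i : ℝ) + 2) ≤ 1 / I0 := by
        apply one_div_le_one_div_of_le hI'; linarith
      nlinarith
  have h3 : ∑ i ∈ Finset.range m, (if i < I0 then Wt b r m i else 0)
      ≤ I0 * ((I0 : ℝ) + 1) ^ 2 * pq (2 + 2 * r) m := by
    rw [← Finset.sum_filter]
    calc ∑ i ∈ (Finset.range m).filter (fun i => i < I0), Wt b r m i
        ≤ ∑ i ∈ (Finset.range m).filter (fun i => i < I0), ((I0 : ℝ) + 1) ^ 2 * pq (2 + 2 * r) m := by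
          apply Finset.sum_le_sum
          intro i hi
          rw [Finset.mem_filter, Finset.mem_range] at hi
          unfold Wt
          have q1 := pq_mono_n (z := 2 + 2 * r) (by linarith) (a := m - 1 - i) (b := m) (by omega)
          have q2 := pq_mono_z hσ0 (w := 3) (by linarith) i
          rw [pq_three] at q2
          have q3 : (i : ℝ) + 1 ≤ I0 := by exact_mod_cast hi.2
          have q4 : ((i : ℝ) + 1) * ((i : ℝ) + 2) / 2 ≤ ((I0 : ℝ) + 1) ^ 2 := by
            have : (0 : ℝ) ≤ i := Nat.cast_nonneg i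
            nlinarith
          have q5 := pq_pos (by linarith : 0 < 2 + 2 * r) (m - 1 - i)
          have q6 := pq_pos hσ0 i
          calc pq (2 + 2 * r) (m - 1 - i) * pq (b + 1 - 2 * r) i
              ≤ pq (2 + 2 * r) m * ((I0 : ℝ) + 1) ^ 2 := by
                apply mul_le_mul q1 (q2.trans q4) q6.le
                exact q5.le.trans q1
            _ = _ := by ring
      _ = (((Finset.range m).filter (fun i => i < I0)).card : ℝ)
          * (((I0 : ℝ) + 1) ^ 2 * pq (2 + 2 * r) m) := by rw [Finset.sum_const, nsmul_eq_mul]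
      _ ≤ (I0 : ℝ) * (((I0 : ℝ) + 1) ^ 2 * pq (2 + 2 * r) m) := by
          have hc : ((Finset.range m).filter (fun i => i < I0)).card ≤ I0 := by
            have hsub : (Finset.range m).filter (fun i => i < I0) ⊆ Finset.range I0 := by
              intro i hi
              rw [Finset.mem_filter] at hi
              exact Finset.mem_range.mpr hi.2
            have := Finset.card_le_card hsub
            rwa [Finset.card_range] at this
          have hp := pq_pos (by linarith : 0 < 2 + 2 * r) m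
          have hc' : (((Finset.range m).filter (fun i => i < I0)).card : ℝ) ≤ I0 := by
            exact_mod_cast hc
          gcongr
      _ = _ := by ring
  have h4 : ∑ i ∈ Finset.range m, Wt b r m i * (1 / ((i : ℝ) + 2))
      ≤ (1 / I0) * pq (b + 3) m + I0 * ((I0 : ℝ) + 1) ^ 2 * (δ * pq (b + 3) m) := by
    refine (Finset.sum_le_sum h2).trans ?_
    rw [Finset.sum_add_distrib, ← Finset.mul_sum, sum_Wt hm]
    have q1 := pq_mono_n (z := b + 3) (by linarith) (a := m - 1) (b := m) (by omega)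
    have q2 := ratio_le hb hb1 (by linarith : -1 < r) hσ m hδ0 hδ
    have q3 : I0 * ((I0 : ℝ) + 1) ^ 2 * pq (2 + 2 * r) m
        ≤ I0 * ((I0 : ℝ) + 1) ^ 2 * (δ * pq (b + 3) m) := by gcongr
    have q4 : (1 / (I0 : ℝ)) * pq (b + 3) (m - 1) ≤ (1 / (I0 : ℝ)) * pq (b + 3) m := by gcongr
    linarith
  calc De b (m + 1) * ∑ i ∈ Finset.range m, Wt b r m i * (1 / ((i : ℝ) + 2))
      ≤ De b (m + 1) * ((1 / I0) * pq (b + 3) m + I0 * ((I0 : ℝ) + 1) ^ 2 * (δ * pq (b + 3) m)) := by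
        gcongr
    _ = (1 / I0 + I0 * ((I0 : ℝ) + 1) ^ 2 * δ) * (De b (m + 1) * pq (b + 3) m) := by ring
    _ = _ := by rw [hDP, mul_one]

/-- crude bound of the fourth sum -/
theorem S4_le' (hb : 0 < b) (hr : -(1 / 2) ≤ r) (hσ : 0 < b + 1 - 2 * r)
    {m : ℕ} (hm : 1 ≤ m) (J : ℕ) :
    ∑ j ∈ Finset.range J, ∑ i ∈ Finset.range m,
      ((j : ℝ) + 1) * De b (m + 1 + j) * Wt b r m i
        / (((j : ℝ) + 1 + i) * ((j : ℝ) + 2 + i) * ((j : ℝ) + 3 + i)) ≤ 1 := by
  rw [Finset.sum_comm]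
  have hD := De_pos hb (m + 1)
  have hDP : De b (m + 1) * pq (b + 3) m = 1 := by
    have := De_mul hb (m + 1)
    rwa [Nat.add_sub_cancel] at this
  have h1 : ∀ i ∈ Finset.range m, ∑ j ∈ Finset.range J,
      ((j : ℝ) + 1) * De b (m + 1 + j) * Wt b r m i
        / (((j : ℝ) + 1 + i) * ((j : ℝ) + 2 + i) * ((j : ℝ) + 3 + i))
      ≤ De b (m + 1) * Wt b r m i := by
    intro i _
    have hW := Wt_pos (b := b) (by linarith : -1 < r) hσ m i
    calc ∑ j ∈ Finset.range J, ((j : ℝ) + 1) * De b (m + 1 + j) * Wt b r m i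
        / (((j : ℝ) + 1 + i) * ((j : ℝ) + 2 + i) * ((j : ℝ) + 3 + i))
        ≤ ∑ j ∈ Finset.range J, (De b (m + 1) * Wt b r m i) * (((j : ℝ) + 1)
        / (((j : ℝ) + 1 + i) * ((j : ℝ) + 2 + i) * ((j : ℝ) + 3 + i))) := by
          apply Finset.sum_le_sum
          intro j _
          have hDj := De_anti hb (a := m + 1) (c := m + 1 + j) (by omega) (by omega)
          have hq : 0 ≤ ((j : ℝ) + 1)
            / (((j : ℝ) + 1 + i) * ((j : ℝ) + 2 + i) * ((j : ℝ) + 3 + i)) := by positivity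
          calc ((j : ℝ) + 1) * De b (m + 1 + j) * Wt b r m i
              / (((j : ℝ) + 1 + i) * ((j : ℝ) + 2 + i) * ((j : ℝ) + 3 + i))
              = (De b (m + 1 + j) * Wt b r m i) * (((j : ℝ) + 1)
                / (((j : ℝ) + 1 + i) * ((j : ℝ) + 2 + i) * ((j : ℝ) + 3 + i))) := by ring
            _ ≤ _ := by gcongr
      _ = (De b (m + 1) * Wt b r m i) * ∑ j ∈ Finset.range J, ((j : ℝ) + 1)
        / (((j : ℝ) + 1 + i) * ((j : ℝ) + 2 + i) * ((j : ℝ) + 3 + i)) := by rw [Finset.mul_sum]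
      _ ≤ (De b (m + 1) * Wt b r m i) * 1 := by
          apply mul_le_mul_of_nonneg_left _ (by positivity)
          refine (small_sum i J).trans ?_
          have h3 : 0 ≤ 1 / ((J : ℝ) + i + 2) := by positivity
          have h4 : 1 / ((i : ℝ) + 2) ≤ 1 := by
            rw [div_le_one (by positivity)]
            have : (0 : ℝ) ≤ i := Nat.cast_nonneg i
            linarith
          linarith
      _ = _ := by ring
  refine (Finset.sum_le_sum h1).trans ?_
  rw [← Finset.mul_sum, sum_Wt hm, ← hDP]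
  gcongr
  exact pq_mono_n (by linarith) (by omega)

end Pool.Agent.Helper22.Half
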