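import Mathlib
import Pool.Agent.Helper22.Half.Sums3

/-!
Comparison of `pq c (n-1) / (n² pq (b+c) n)` with `De b n`, and the pointwise bound of the kernel.
-/

set_option autoImplicit false

namespace Pool.Agent.Helper22.Half

variable {b r : ℝ}

/-- the exponent constant -/
noncomputable def qe (b r : ℝ) : ℝ := (101 / 20 + b - 2 * r) / 2

theorem ratio_aux (hb : 0 < b) (hb1 : b ≤ 1 / 2) (hr : -(1 / 2) ≤ r) (hr1 : r < 1 / 2) (k : ℕ) :
    pq (1 - 2 * r) (k + 1) * pq (b + 3) (k + 1)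
      ≤ (1 - 2 * r) * ((k : ℝ) + 3) / (2 * (b + 1 - 2 * r) * (b + 1 - 2 * r + k + 1))
        * (1 + b / 3) * Real.exp (-(2 * b * (1 + r) / qe b r) + 2 * b * (1 + r) / (k + qe b r))
        * (((k : ℝ) + 2) ^ 2 * pq (b + 1 - 2 * r) (k + 2)) := by
  have hc : 0 < 1 - 2 * r := by linarith
  have hσ : 0 < b + 1 - 2 * r := by linarith
  have hq : 1 < qe b r := by unfold qe; linarith
  induction k with
  | zero =>
    have e : -(2 * b * (1 + r) / qe b r) + 2 * b * (1 + r) / (((0 : ℕ) : ℝ) + qe b r) = 0 := by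
      simp
    rw [e, Real.exp_zero]
    simp only [zero_add, pq_succ, pq_zero]
    push_cast
    apply le_of_eq
    field_simp
    ring
  | succ k ih =>
    have p1 := pq_pos hc (k + 1)
    have p2 := pq_pos (by linarith : 0 < b + 3) (k + 1)
    have p3 := pq_pos hσ (k + 2)
    have hk0 : (0 : ℝ) ≤ k := Nat.cast_nonneg k
    -- the key factor inequality
    have hx : (1 - 2 * r + (k + 1)) * (b + 3 + (k + 1))
        ≤ ((k : ℝ) + 4) * (b + 1 - 2 * r + k + 1) * Real.exp (-(2 * b * (1 + r)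
          * (1 / (k + qe b r) - 1 / (k + 1 + qe b r)))) := by
      have hA : 0 < ((k : ℝ) + 4) * (b + 1 - 2 * r + k + 1) := by positivity
      have h1 : 1 - 2 * b * (1 + r) / (((k : ℝ) + 4) * (b + 1 - 2 * r + k + 1))
          ≤ Real.exp (-(2 * b * (1 + r) * (1 / (k + qe b r) - 1 / (k + 1 + qe b r)))) := by
        have h2 := Real.add_one_le_exp (-(2 * b * (1 + r) * (1 / (k + qe b r) - 1 / (k + 1 + qe b r))))
        refine le_trans ?_ h2
        have h3 : 1 / (k + qe b r) - 1 / (k + 1 + qe b r)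
            = 1 / ((k + qe b r) * (k + 1 + qe b r)) := by
          have q1 : (k : ℝ) + qe b r ≠ 0 := by positivity
          have q2 : (k : ℝ) + 1 + qe b r ≠ 0 := by positivity
          field_simp
          ring
        have h4 : 1 / (((k : ℝ) + qe b r) * (k + 1 + qe b r))
            ≤ 1 / (((k : ℝ) + 4) * (b + 1 - 2 * r + k + 1)) := by
          apply one_div_le_one_div_of_le hA
          unfold qe
          nlinarith [sq_nonneg (b - 2 * r - 39 / 20), mul_nonneg (by linarith : 0 ≤ 3 / 2 - (b - 2 * r))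
            (by linarith : 0 ≤ 12 / 5 - (b - 2 * r))]
        have h5 : 0 ≤ 2 * b * (1 + r) := by
          apply mul_nonneg <;> linarith
        rw [h3]
        have h6 : 2 * b * (1 + r) / (((k : ℝ) + 4) * (b + 1 - 2 * r + k + 1))
            = 2 * b * (1 + r) * (1 / (((k : ℝ) + 4) * (b + 1 - 2 * r + k + 1))) := by ring
        rw [h6]
        have := mul_le_mul_of_nonneg_left h4 h5
        linarith
      calc (1 - 2 * r + (k + 1)) * (b + 3 + (k + 1))
          = ((k : ℝ) + 4) * (b + 1 - 2 * r + k + 1)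
            * (1 - 2 * b * (1 + r) / (((k : ℝ) + 4) * (b + 1 - 2 * r + k + 1))) := by
            field_simp
            ring
        _ ≤ _ := by gcongr
    have e1 : pq (1 - 2 * r) (k + 1 + 1) * pq (b + 3) (k + 1 + 1)
        = (pq (1 - 2 * r) (k + 1) * pq (b + 3) (k + 1))
          * ((1 - 2 * r + (k + 1)) * (b + 3 + (k + 1)) / ((k : ℝ) + 2) ^ 2) := by
      rw [pq_succ _ (k + 1), pq_succ _ (k + 1)]
      push_cast
      field_simp
      ring
    have hpow : 0 < ((k : ℝ) + 2) ^ 2 := by positivity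
    rw [e1]
    have hf0 : 0 ≤ (1 - 2 * r + (k + 1)) * (b + 3 + (k + 1)) / ((k : ℝ) + 2) ^ 2 := by
      apply div_nonneg _ hpow.le
      apply mul_nonneg <;> linarith
    have hf1 : (1 - 2 * r + (k + 1)) * (b + 3 + (k + 1)) / ((k : ℝ) + 2) ^ 2
        ≤ ((k : ℝ) + 4) * (b + 1 - 2 * r + k + 1) * Real.exp (-(2 * b * (1 + r)
          * (1 / (k + qe b r) - 1 / (k + 1 + qe b r)))) / ((k : ℝ) + 2) ^ 2 := by
      gcongr
    refine (mul_le_mul ih hf1 hf0 (by positivity)).trans (le_of_eq ?_)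
    have e2 : Real.exp (-(2 * b * (1 + r) / qe b r) + 2 * b * (1 + r) / (((k + 1 : ℕ) : ℝ) + qe b r))
        = Real.exp (-(2 * b * (1 + r) / qe b r) + 2 * b * (1 + r) / (k + qe b r))
          * Real.exp (-(2 * b * (1 + r) * (1 / (k + qe b r) - 1 / (k + 1 + qe b r)))) := by
      rw [← Real.exp_add]
      congr 1
      push_cast
      ring
    rw [e2]
    generalize Real.exp (-(2 * b * (1 + r) / qe b r) + 2 * b * (1 + r) / (k + qe b r)) = X1
    generalize Real.exp (-(2 * b * (1 + r) * (1 / (k + qe b r) - 1 / (k + 1 + qe b r)))) = X2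
    have e3 : k + 1 + 2 = (k + 2) + 1 := by ring
    rw [e3, pq_succ _ (k + 2)]
    push_cast
    have q1 : b + 1 - 2 * r ≠ 0 := hσ.ne'
    have q2 : b + 1 - 2 * r + (k : ℝ) + 1 ≠ 0 := by positivity
    have q3 : b + 1 - 2 * r + ((k : ℝ) + 1) + 1 ≠ 0 := by positivity
    have q4 : b + 1 - 2 * r + ((k : ℝ) + 2) = b + 1 - 2 * r + ((k : ℝ) + 1) + 1 := by ring
    rw [q4]
    generalize pq (b + 1 - 2 * r) (k + 2) = P
    generalize b + 1 - 2 * r + ((k : ℝ) + 1) + 1 = u3 at *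
    generalize b + 1 - 2 * r + (k : ℝ) + 1 = u2 at *
    field_simp
    ring

/-- the constant `(1 + b/3) exp (-4 b (1+r) / (5.05 + b - 2r))` -/
noncomputable def Xb (b r : ℝ) : ℝ := (1 + b / 3) * Real.exp (-(2 * b * (1 + r) / qe b r))

theorem ratio_bound (hb : 0 < b) (hb1 : b ≤ 1 / 2) (hr : -(1 / 2) ≤ r) (hr1 : r < 1 / 2)
    {m : ℕ} (hm : 1 ≤ m) (j : ℕ) :
    pq (1 - 2 * r) (m + j) / (((m : ℝ) + 1 + j) ^ 2 * pq (b + 1 - 2 * r) (m + 1 + j))
      ≤ (1 - 2 * r) / (2 * (b + 1 - 2 * r)) * Xb b r * ((1 + 2 / m) * Real.exp (3 / (2 * m)))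
        * De b (m + 1 + j) := by
  obtain ⟨k, hk⟩ : ∃ k, m + j = k + 1 := ⟨m + j - 1, by omega⟩
  have hk2 : m + 1 + j = k + 2 := by omega
  have hkr : (m : ℝ) + 1 + j = k + 2 := by exact_mod_cast hk2
  have hkm : (m : ℝ) ≤ k + 1 := by
    have : m ≤ k + 1 := by omega
    exact_mod_cast this
  have hm' : (0 : ℝ) < m := by exact_mod_cast (by omega : 0 < m)
  have hc : 0 < 1 - 2 * r := by linarith
  have hσ : 0 < b + 1 - 2 * r := by linarith
  have hq : 1 < qe b r := by unfold qe; linarith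
  have hk0 : (0 : ℝ) ≤ k := Nat.cast_nonneg k
  rw [hk, hk2, hkr]
  have p2 := pq_pos (by linarith : 0 < b + 3) (k + 1)
  have p3 := pq_pos hσ (k + 2)
  have h := ratio_aux hb hb1 hr hr1 k
  have hD : De b (k + 2) = (pq (b + 3) (k + 1))⁻¹ := by
    unfold De
    rfl
  rw [hD, div_le_iff₀ (by positivity)]
  have h2 : pq (1 - 2 * r) (k + 1) ≤ ((1 - 2 * r) * ((k : ℝ) + 3)
      / (2 * (b + 1 - 2 * r) * (b + 1 - 2 * r + k + 1))
        * (1 + b / 3) * Real.exp (-(2 * b * (1 + r) / qe b r) + 2 * b * (1 + r) / (k + qe b r))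
        * (((k : ℝ) + 2) ^ 2 * pq (b + 1 - 2 * r) (k + 2))) * (pq (b + 3) (k + 1))⁻¹ := by
    rw [← div_eq_mul_inv, le_div_iff₀ p2]
    exact h
  refine h2.trans ?_
  have h3 : ((k : ℝ) + 3) / (b + 1 - 2 * r + k + 1) ≤ 1 + 2 / m := by
    rw [div_le_iff₀ (by positivity)]
    have : 2 ≤ 2 / (m : ℝ) * (b + 1 - 2 * r + k + 1) := by
      rw [div_mul_eq_mul_div, le_div_iff₀ hm']
      nlinarith
    nlinarith
  have h4 : Real.exp (-(2 * b * (1 + r) / qe b r) + 2 * b * (1 + r) / (k + qe b r))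
      ≤ Real.exp (-(2 * b * (1 + r) / qe b r)) * Real.exp (3 / (2 * m)) := by
    rw [← Real.exp_add]
    apply Real.exp_le_exp.mpr
    have h5 : 2 * b * (1 + r) / (k + qe b r) ≤ 3 / (2 * m) := by
      rw [div_le_div_iff₀ (by positivity) (by positivity)]
      have h6 : 2 * b * (1 + r) ≤ 3 / 2 := by nlinarith
      nlinarith
    linarith
  have p4 : 0 < (pq (b + 3) (k + 1))⁻¹ := inv_pos.mpr p2
  calc ((1 - 2 * r) * ((k : ℝ) + 3)
      / (2 * (b + 1 - 2 * r) * (b + 1 - 2 * r + k + 1))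
        * (1 + b / 3) * Real.exp (-(2 * b * (1 + r) / qe b r) + 2 * b * (1 + r) / (k + qe b r))
        * (((k : ℝ) + 2) ^ 2 * pq (b + 1 - 2 * r) (k + 2))) * (pq (b + 3) (k + 1))⁻¹
      = ((1 - 2 * r) / (2 * (b + 1 - 2 * r)) * (1 + b / 3) * (((k : ℝ) + 2) ^ 2
        * pq (b + 1 - 2 * r) (k + 2)) * (pq (b + 3) (k + 1))⁻¹)
        * ((((k : ℝ) + 3) / (b + 1 - 2 * r + k + 1)) * Real.exp (-(2 * b * (1 + r) / qe b r)
          + 2 * b * (1 + r) / (k + qe b r))) := by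
        have q1 : b + 1 - 2 * r ≠ 0 := hσ.ne'
        have q2 : b + 1 - 2 * r + (k : ℝ) + 1 ≠ 0 := by positivity
        field_simp
    _ ≤ ((1 - 2 * r) / (2 * (b + 1 - 2 * r)) * (1 + b / 3) * (((k : ℝ) + 2) ^ 2
        * pq (b + 1 - 2 * r) (k + 2)) * (pq (b + 3) (k + 1))⁻¹)
        * ((1 + 2 / m) * (Real.exp (-(2 * b * (1 + r) / qe b r)) * Real.exp (3 / (2 * m)))) := by
        gcongr
    _ = _ := by unfold Xb; ring

/-- pointwise bound of the kernel -/
theorem Z_bound (s : ℂ) (hs : ‖s‖ < 1 / 2) {m : ℕ} (hm : 1 ≤ m) {p : ℕ} (hp : 1 ≤ p) :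
    ‖1 + s‖ ^ 2 * ‖2 / (m * (1 + s)) + 1 / ((p : ℂ) - s)‖ ^ 2
      ≤ 4 / (m : ℝ) ^ 2 + 4 / m * ((1 + s.re) / p + 8 / (p * (p + 1)))
        + ‖1 + s‖ ^ 2 * (1 / ((p : ℝ) * (p + 1)) + 24 / (p * (p + 1) * (p + 2))) := by
  have hm' : (0 : ℝ) < m := by exact_mod_cast (by omega : 0 < m)
  have hp' : (1 : ℝ) ≤ p := by exact_mod_cast hp
  have hre := Complex.abs_re_le_norm s
  have hre2 := abs_lt.mp (hre.trans_lt hs)
  have hn0 := norm_nonneg s
  have hsq : ‖s‖ ^ 2 ≤ 1 / 4 := by nlinarith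
  have hrsq : s.re ^ 2 ≤ ‖s‖ ^ 2 := by
    have := sq_le_sq' (by linarith [neg_abs_le s.re, norm_nonneg s]) ((le_abs_self s.re).trans hre)
    exact this
  have h1s : (1 + s) ≠ 0 := by
    intro h
    have h2 : s = -1 := by linear_combination h
    rw [h2] at hs
    simp at hs
    norm_num at hs
  have hps : (p : ℂ) - s ≠ 0 := by
    intro h
    have h2 : s = p := by linear_combination -h
    rw [h2, Complex.norm_natCast] at hs
    linarith
  obtain ⟨T, hT⟩ : ∃ T : ℝ, T = ‖(p : ℂ) - s‖ ^ 2 := ⟨_, rfl⟩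
  have hT2 : T = (p : ℝ) ^ 2 - 2 * s.re * p + ‖s‖ ^ 2 := by rw [hT, normSq_nat_sub]
  have hTlow : ((p : ℝ) - 1 / 2) ^ 2 ≤ T := by
    rw [hT]
    have h3 : (p : ℝ) - 1 / 2 ≤ ‖(p : ℂ) - s‖ := by
      have h4 := norm_sub_norm_le (p : ℂ) s
      rw [Complex.norm_natCast] at h4
      linarith
    exact pow_le_pow_left₀ (by linarith) h3 2
  have hTpos : 0 < T := by
    have : 0 < ((p : ℝ) - 1 / 2) ^ 2 := by
      have : 0 < (p : ℝ) - 1 / 2 := by linarith
      positivity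
    linarith
  -- expansion
  have e1 : ‖1 + s‖ ^ 2 * ‖2 / (m * (1 + s)) + 1 / ((p : ℂ) - s)‖ ^ 2
      = 4 / (m : ℝ) ^ 2 + 4 / m * (((p : ℝ) * (1 + s.re) - s.re - ‖s‖ ^ 2) / T)
        + ‖1 + s‖ ^ 2 * (1 / T) := by
    have hmc : (m : ℂ) ≠ 0 := by exact_mod_cast hm'.ne'
    have e2 : ‖1 + s‖ ^ 2 * ‖2 / (m * (1 + s)) + 1 / ((p : ℂ) - s)‖ ^ 2
        = ‖(2 * ((p : ℂ) - s) + m * (1 + s)) / (m * ((p : ℂ) - s))‖ ^ 2 := by
      rw [← mul_pow, ← norm_mul]
      congr 2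
      field_simp
    rw [e2, norm_div, div_pow, norm_mul, mul_pow, Complex.norm_natCast, ← hT]
    have e3 : ‖2 * ((p : ℂ) - s) + m * (1 + s)‖ ^ 2
        = 4 * T + 4 * m * ((p : ℝ) * (1 + s.re) - s.re - ‖s‖ ^ 2) + (m : ℝ) ^ 2 * ‖1 + s‖ ^ 2 := by
      rw [hT, ← Complex.normSq_eq_norm_sq, ← Complex.normSq_eq_norm_sq, ← Complex.normSq_eq_norm_sq,
        ← Complex.normSq_eq_norm_sq]
      simp only [Complex.normSq_apply, Complex.add_re, Complex.add_im, Complex.mul_re,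
        Complex.mul_im, Complex.sub_re, Complex.sub_im, Complex.natCast_re, Complex.natCast_im,
        Complex.one_re, Complex.one_im, Complex.re_ofNat, Complex.im_ofNat]
      ring
    rw [e3]
    field_simp
  rw [e1]
  have k1 : ((p : ℝ) * (1 + s.re) - s.re - ‖s‖ ^ 2) / T ≤ (1 + s.re) / p + 8 / (p * (p + 1)) := by
    rw [div_add_div _ _ (by positivity) (by positivity), div_le_div_iff₀ hTpos (by positivity)]
    have hx : 8 / ((p : ℝ) * (p + 1)) * T ≥ 1 := by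
      rw [ge_iff_le, div_mul_eq_mul_div, one_le_div (by positivity)]
      nlinarith
    -- polynomial inequality
    have hpoly : (((p : ℝ) * (1 + s.re) - s.re - ‖s‖ ^ 2) * p - (1 + s.re) * T) ≤ p := by
      rw [hT2]
      have e5 : (((p : ℝ) * (1 + s.re) - s.re - ‖s‖ ^ 2) * p
          - (1 + s.re) * ((p : ℝ) ^ 2 - 2 * s.re * p + ‖s‖ ^ 2))
          = p * (s.re + 2 * s.re ^ 2 - ‖s‖ ^ 2) - (1 + s.re) * ‖s‖ ^ 2 := by ring
      rw [e5]
      have h6 : s.re + 2 * s.re ^ 2 - ‖s‖ ^ 2 ≤ 1 := by nlinarith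
      have h7 : 0 ≤ (1 + s.re) * ‖s‖ ^ 2 := by
        apply mul_nonneg <;> [linarith; positivity]
      nlinarith
    have h8T : (p : ℝ) * (p + 1) ≤ 8 * T := by nlinarith
    have hA : (((p : ℝ) * (1 + s.re) - s.re - ‖s‖ ^ 2) * p - (1 + s.re) * T) * (p * ((p : ℝ) + 1))
        ≤ p * (8 * T) := by
      have hpp : 0 ≤ (p : ℝ) * (p + 1) := by positivity
      calc (((p : ℝ) * (1 + s.re) - s.re - ‖s‖ ^ 2) * p - (1 + s.re) * T) * (p * ((p : ℝ) + 1))
          ≤ p * (p * ((p : ℝ) + 1)) := mul_le_mul_of_nonneg_right hpoly hpp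
        _ ≤ p * (8 * T) := mul_le_mul_of_nonneg_left h8T (by linarith)
    nlinarith [hA]
  have k2 : 1 / T ≤ 1 / ((p : ℝ) * (p + 1)) + 24 / (p * (p + 1) * (p + 2)) := by
    have e6 : 1 / ((p : ℝ) * (p + 1)) + 24 / (p * (p + 1) * (p + 2))
        = ((p : ℝ) + 26) / (p * (p + 1) * (p + 2)) := by
      field_simp
      ring
    rw [e6, div_le_div_iff₀ hTpos (by positivity)]
    have h10 : (p : ℝ) * (p + 1) * (p + 2) ≤ (p + 26) * ((p : ℝ) - 1 / 2) ^ 2 := by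
      nlinarith [sq_nonneg ((p : ℝ) - 1)]
    have h11 : ((p : ℝ) + 26) * ((p : ℝ) - 1 / 2) ^ 2 ≤ (p + 26) * T :=
      mul_le_mul_of_nonneg_left hTlow (by linarith)
    linarith
  have hc1 : 0 ≤ 4 / (m : ℝ) := by positivity
  have := mul_le_mul_of_nonneg_left k1 hc1
  have := mul_le_mul_of_nonneg_left k2 (sq_nonneg ‖1 + s‖)
  linarith

end Pool.Agent.Helper22.Half
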