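import Mathlib
import Pool.Agent.Helper22.Half.Ratio

/-!
The Hilbert-Schmidt bound.
-/

set_option autoImplicit false

namespace Pool.Agent.Helper22.Half

/-- the terms of the Hilbert-Schmidt sum -/
noncomputable def HSt (s : ℂ) (b : ℝ) (m j i : ℕ) : ℝ :=
  ((j : ℝ) + 1) * (pq (b + 1 - 2 * s.re) (m + 1 + j))⁻¹ * ‖pq (-s) (m + 1 + j)‖ ^ 2
    * (((m - i : ℕ) : ℝ) * ‖pq (1 + s) (m - i)‖ ^ 2 * pq (b + 1 - 2 * s.re) i)
    * ‖2 / (m * (1 + s)) + 1 / (((j + 1 + i : ℕ) : ℂ) - s)‖ ^ 2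

/-- the prefactor -/
noncomputable def pref (b r ρ : ℝ) : ℝ :=
  (1 - 2 * r + ρ) / (b + 1 - 2 * r) * Bc r ρ * Xb b r

/-- the bracket -/
noncomputable def Brk (b r ρ : ℝ) : ℝ :=
  1 / (b + 1) + b * (1 + r) * Sg b r + b / 4 * (1 + 2 * r + ρ) / (b + 1 - 2 * r)

theorem HSt_le (s : ℂ) (hs : ‖s‖ < 1 / 2) {b : ℝ} (hb : 0 < b) (hb1 : b ≤ 1 / 2)
    {m : ℕ} (hm : 1 ≤ m) (j : ℕ) {i : ℕ} (hi : i < m) :
    HSt s b m j i ≤ (‖s‖ ^ 2 / 2 * pref b s.re (‖s‖ ^ 2) * ((1 + 2 / m) * Real.exp (3 / (2 * m))))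
      * (((j : ℝ) + 1) * De b (m + 1 + j) * Wt b s.re m i
        * (‖1 + s‖ ^ 2 * ‖2 / (m * (1 + s)) + 1 / (((j + 1 + i : ℕ) : ℂ) - s)‖ ^ 2)) := by
  have hre := Complex.abs_re_le_norm s
  have hre2 := abs_lt.mp (hre.trans_lt hs)
  have hm' : (0 : ℝ) < m := by exact_mod_cast (by omega : 0 < m)
  have hc : 0 < 1 - 2 * s.re := by linarith
  have hσ : 0 < b + 1 - 2 * s.re := by linarith
  have h1 := QC_bound s hs (m - 1 - i) (m - 1 + j)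
  have h2 := ratio_bound hb hb1 (by linarith : -(1 / 2) ≤ s.re) (by linarith) hm j
  have e1 : m - 1 - i + 1 = m - i := by omega
  have e2 : m - 1 + j + 2 = m + 1 + j := by omega
  have e3 : m - 1 + j + 1 = m + j := by omega
  have e4 : ((m - 1 - i : ℕ) : ℝ) + 1 = ((m - i : ℕ) : ℝ) := by exact_mod_cast e1
  have e5 : ((m - 1 + j : ℕ) : ℝ) + 2 = (m : ℝ) + 1 + j := by exact_mod_cast e2
  rw [e1, e2, e3, e4, e5] at h1
  unfold HSt Wt pref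
  have hZ : 0 ≤ ‖2 / (m * (1 + s)) + 1 / (((j + 1 + i : ℕ) : ℂ) - s)‖ ^ 2 := sq_nonneg _
  generalize ‖2 / (m * (1 + s)) + 1 / (((j + 1 + i : ℕ) : ℂ) - s)‖ ^ 2 = Z at hZ ⊢
  have hPn := pq_pos hσ (m + 1 + j)
  have hPi := pq_pos hσ i
  have hP2 := pq_pos (by linarith : 0 < 2 + 2 * s.re) (m - 1 - i)
  have hPc := pq_pos hc (m + j)
  have hn : 0 < (m : ℝ) + 1 + j := by positivity
  have hB : 0 ≤ Bc s.re (‖s‖ ^ 2) := by
    unfold Bc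
    have b1 : 0 ≤ 2 + 2 * s.re := by linarith
    have b2 : 0 ≤ 2 - 2 * s.re := by linarith
    positivity
  generalize Bc s.re (‖s‖ ^ 2) = B at *
  generalize pq (b + 1 - 2 * s.re) (m + 1 + j) = Pn at *
  generalize pq (b + 1 - 2 * s.re) i = Pi at *
  generalize pq (2 + 2 * s.re) (m - 1 - i) = P2 at *
  generalize pq (1 - 2 * s.re) (m + j) = Pc at *
  generalize (m : ℝ) + 1 + j = n at *
  have hjp : (0 : ℝ) < (j : ℝ) + 1 := by positivity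
  calc ((j : ℝ) + 1) * Pn⁻¹ * ‖pq (-s) (m + 1 + j)‖ ^ 2
        * (((m - i : ℕ) : ℝ) * ‖pq (1 + s) (m - i)‖ ^ 2 * Pi) * Z
      = (((j : ℝ) + 1) * Pi * Z / ((1 - 2 * s.re) * n ^ 2 * Pn))
        * (((m - i : ℕ) : ℝ) * ‖pq (1 + s) (m - i)‖ ^ 2 * (n ^ 2 * ‖pq (-s) (m + 1 + j)‖ ^ 2)
          * (1 - 2 * s.re)) := by
        have := hc.ne'
        field_simp
    _ ≤ (((j : ℝ) + 1) * Pi * Z / ((1 - 2 * s.re) * n ^ 2 * Pn))
        * (‖s‖ ^ 2 * ‖1 + s‖ ^ 2 * ((1 - 2 * s.re) + ‖s‖ ^ 2) * B * P2 * Pc) := by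
        apply mul_le_mul_of_nonneg_left h1 (by positivity)
    _ = (((j : ℝ) + 1) * Pi * Z * (‖s‖ ^ 2 * ‖1 + s‖ ^ 2 * ((1 - 2 * s.re) + ‖s‖ ^ 2) * B * P2)
          / (1 - 2 * s.re)) * (Pc / (n ^ 2 * Pn)) := by
        have := hc.ne'
        field_simp
    _ ≤ (((j : ℝ) + 1) * Pi * Z * (‖s‖ ^ 2 * ‖1 + s‖ ^ 2 * ((1 - 2 * s.re) + ‖s‖ ^ 2) * B * P2)
          / (1 - 2 * s.re)) * ((1 - 2 * s.re) / (2 * (b + 1 - 2 * s.re)) * Xb b s.re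
            * ((1 + 2 / m) * Real.exp (3 / (2 * m))) * De b (m + 1 + j)) := by
        apply mul_le_mul_of_nonneg_left h2 (by positivity)
    _ = _ := by
        have := hc.ne'
        have := hσ.ne'
        field_simp

theorem sum_lin4 (s t : Finset ℕ) (K a b c d : ℝ) (f1 f2 f3 f4 : ℕ → ℕ → ℝ) :
    ∑ j ∈ s, ∑ i ∈ t, K * (a * f1 j i + b * f2 j i + c * f3 j i + d * f4 j i)
      = K * (a * ∑ j ∈ s, ∑ i ∈ t, f1 j i + b * ∑ j ∈ s, ∑ i ∈ t, f2 j i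
        + c * ∑ j ∈ s, ∑ i ∈ t, f3 j i + d * ∑ j ∈ s, ∑ i ∈ t, f4 j i) := by
  simp_rw [← Finset.mul_sum, Finset.sum_add_distrib, ← Finset.mul_sum]

/-- the finite level bracket -/
noncomputable def Brm (b r N1 : ℝ) (m : ℕ) (e4 : ℝ) : ℝ :=
  1 / (b + 1) + 1 / m + b * (1 + r) * ((1 + (b + 2) / m) * (1 + (b + 3) / m) * Sg b r)
    + b / 4 * (N1 + 32 / m) * (1 + (b + 3) / m) / (b + 1 - 2 * r) + 6 * b * N1 * e4

theorem HS_sum_le (s : ℂ) (hs : ‖s‖ < 1 / 2) {b : ℝ} (hb : 0 < b) (hb1 : b ≤ 1 / 2)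
    {m : ℕ} (hm : 1 ≤ m) (J : ℕ) {e4 : ℝ}
    (h4 : ∑ j ∈ Finset.range J, ∑ i ∈ Finset.range m,
      ((j : ℝ) + 1) * De b (m + 1 + j) * Wt b s.re m i
        / (((j : ℝ) + 1 + i) * ((j : ℝ) + 2 + i) * ((j : ℝ) + 3 + i)) ≤ e4) :
    ∑ j ∈ Finset.range J, ∑ i ∈ Finset.range m, HSt s b m j i
      ≤ 2 * ‖s‖ ^ 2 / b * pref b s.re (‖s‖ ^ 2) * ((1 + 2 / m) * Real.exp (3 / (2 * m)))
        * Brm b s.re (‖1 + s‖ ^ 2) m e4 := by
  have hre := Complex.abs_re_le_norm s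
  have hre2 := abs_lt.mp (hre.trans_lt hs)
  have hm' : (0 : ℝ) < m := by exact_mod_cast (by omega : 0 < m)
  have hc : 0 < 1 - 2 * s.re := by linarith
  have hσ : 0 < b + 1 - 2 * s.re := by linarith
  have hB : 0 ≤ Bc s.re (‖s‖ ^ 2) := by
    unfold Bc
    have b1 : 0 ≤ 2 + 2 * s.re := by linarith
    have b2 : 0 ≤ 2 - 2 * s.re := by linarith
    positivity
  have hX : 0 ≤ Xb b s.re := by unfold Xb; positivity
  have hpref : 0 ≤ pref b s.re (‖s‖ ^ 2) := by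
    unfold pref
    have : 0 ≤ 1 - 2 * s.re + ‖s‖ ^ 2 := by positivity
    positivity
  obtain ⟨K, hK⟩ : ∃ K, K = ‖s‖ ^ 2 / 2 * pref b s.re (‖s‖ ^ 2)
    * ((1 + 2 / m) * Real.exp (3 / (2 * m))) := ⟨_, rfl⟩
  have hK0 : 0 ≤ K := by rw [hK]; positivity
  have hterm : ∀ j ∈ Finset.range J, ∀ i ∈ Finset.range m, HSt s b m j i
      ≤ K * (4 / (m : ℝ) ^ 2 * (((j : ℝ) + 1) * De b (m + 1 + j) * Wt b s.re m i)
        + 4 / m * (1 + s.re) * (((j : ℝ) + 1) * De b (m + 1 + j) * Wt b s.re m i / ((j : ℝ) + 1 + i))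
        + (32 / m + ‖1 + s‖ ^ 2) * (((j : ℝ) + 1) * De b (m + 1 + j) * Wt b s.re m i
          / (((j : ℝ) + 1 + i) * ((j : ℝ) + 2 + i)))
        + 24 * ‖1 + s‖ ^ 2 * (((j : ℝ) + 1) * De b (m + 1 + j) * Wt b s.re m i
          / (((j : ℝ) + 1 + i) * ((j : ℝ) + 2 + i) * ((j : ℝ) + 3 + i)))) := by
    intro j _ i hi
    rw [Finset.mem_range] at hi
    refine (HSt_le s hs hb hb1 hm j hi).trans ?_
    rw [← hK]
    apply mul_le_mul_of_nonneg_left _ hK0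
    have hZ := Z_bound s hs hm (p := j + 1 + i) (by omega)
    have hD := De_pos hb (m + 1 + j)
    have hW := Wt_pos (b := b) (by linarith : -1 < s.re) hσ m i
    have hpp : 0 ≤ ((j : ℝ) + 1) * De b (m + 1 + j) * Wt b s.re m i := by positivity
    refine (mul_le_mul_of_nonneg_left hZ hpp).trans (le_of_eq ?_)
    have hj : (0 : ℝ) < (j : ℝ) + 1 + i := by positivity
    push_cast
    have e1 : (j : ℝ) + 1 + i + 1 = (j : ℝ) + 2 + i := by ring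
    have e2 : (j : ℝ) + 1 + i + 2 = (j : ℝ) + 3 + i := by ring
    rw [e1, e2]
    ring
  have h0 := Finset.sum_le_sum (fun j hj => Finset.sum_le_sum (hterm j hj))
  refine h0.trans ?_
  rw [sum_lin4]
  have h1 := S1_le (r := s.re) hb hm J
  have h2 := S2_le hb (by linarith : -(1 / 2) ≤ s.re) hσ hm J
  have h3 := S3_le hb (by linarith : -(1 / 2) ≤ s.re) hσ hm J
  have g1 : 0 ≤ 4 / (m : ℝ) ^ 2 := by positivity
  have g2 : 0 ≤ 4 / (m : ℝ) * (1 + s.re) := by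
    have : 0 ≤ 1 + s.re := by linarith
    positivity
  have g3 : 0 ≤ 32 / (m : ℝ) + ‖1 + s‖ ^ 2 := by positivity
  have g4 : 0 ≤ 24 * ‖1 + s‖ ^ 2 := by positivity
  have h5 := add_le_add (add_le_add (add_le_add (mul_le_mul_of_nonneg_left h1 g1)
    (mul_le_mul_of_nonneg_left h2 g2)) (mul_le_mul_of_nonneg_left h3 g3))
    (mul_le_mul_of_nonneg_left h4 g4)
  refine (mul_le_mul_of_nonneg_left h5 hK0).trans (le_of_eq ?_)
  rw [hK]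
  unfold Brm
  have hb0 : b ≠ 0 := hb.ne'
  have hb10 : b + 1 ≠ 0 := by positivity
  have hσ0 := hσ.ne'
  field_simp
  ring

end Pool.Agent.Helper22.Half
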