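import Mathlib
import Pool.Agent.Helper22.Half.HS

/-!
The numerical inequality `pref * Brk ≤ 1`.
-/

set_option autoImplicit false

namespace Pool.Agent.Helper22.Half

theorem cert_phi {b t : ℝ} (hb0 : 0 ≤ b) (hb1 : b ≤ 1 / 2) (ht0 : 0 ≤ t) (ht1 : t ≤ 1) :
    (1 + b / 3) * (1 + b / 4 * (1 + b / 16) * (1 + 4 / 3 * (t - 1 / 2) ^ 2)) * (121 / 20 + b - 2 * t)
      ≤ (1 + b * (189 / 250 + 7 / 25 * b - 53 / 50 * t + 3 / 25 * b * t))
        * ((1 - 5 / 12 * b) * (121 / 20 + b - 2 * t) + 4 * b * (t + 1 / 2)) := by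
  obtain ⟨x, hx⟩ : ∃ x, x = 2 * b := ⟨_, rfl⟩
  obtain ⟨y, hy⟩ : ∃ y, y = 1 - 2 * b := ⟨_, rfl⟩
  obtain ⟨u, hu⟩ : ∃ u, u = t := ⟨_, rfl⟩
  obtain ⟨v, hv⟩ : ∃ v, v = 1 - t := ⟨_, rfl⟩
  have hx0 : 0 ≤ x := by linarith
  have hy0 : 0 ≤ y := by linarith
  have hu0 : 0 ≤ u := by linarith
  have hv0 : 0 ≤ v := by linarith
  have key : (1 + b * (189 / 250 + 7 / 25 * b - 53 / 50 * t + 3 / 25 * b * t))
        * ((1 - 5 / 12 * b) * (121 / 20 + b - 2 * t) + 4 * b * (t + 1 / 2))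
      - (1 + b / 3) * (1 + b / 4 * (1 + b / 16) * (1 + 4 / 3 * (t - 1 / 2) ^ 2)) * (121 / 20 + b - 2 * t)
      = b * ((589/30000)*y^3*v^3
      + (9517/30000)*y^3*u^1*v^2
      + (367/30000)*y^3*u^2*v^1
      + (3813/10000)*y^3*u^3
      + (105283/720000)*x^1*y^2*v^3
      + (1284287/360000)*x^1*y^2*u^1*v^2
      + (292831/180000)*x^1*y^2*u^2*v^1
      + (81011/240000)*x^1*y^2*u^3
      + (208591/1440000)*x^2*y^1*v^3
      + (1542533/240000)*x^2*y^1*u^1*v^2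
      + (976583/240000)*x^2*y^1*u^2*v^1
      + (77891/1440000)*x^2*y^1*u^3
      + (1349/480000)*x^3*v^3
      + (750061/240000)*x^3*u^1*v^2
      + (575161/240000)*x^3*u^2*v^1
      + (12183/160000)*x^3*u^3) := by
    rw [hx, hy, hu, hv]
    ring
  have h2 : 0 ≤ b * ((589/30000)*y^3*v^3
      + (9517/30000)*y^3*u^1*v^2
      + (367/30000)*y^3*u^2*v^1
      + (3813/10000)*y^3*u^3
      + (105283/720000)*x^1*y^2*v^3
      + (1284287/360000)*x^1*y^2*u^1*v^2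
      + (292831/180000)*x^1*y^2*u^2*v^1
      + (81011/240000)*x^1*y^2*u^3
      + (208591/1440000)*x^2*y^1*v^3
      + (1542533/240000)*x^2*y^1*u^1*v^2
      + (976583/240000)*x^2*y^1*u^2*v^1
      + (77891/1440000)*x^2*y^1*u^3
      + (1349/480000)*x^3*v^3
      + (750061/240000)*x^3*u^1*v^2
      + (575161/240000)*x^3*u^2*v^1
      + (12183/160000)*x^3*u^3) := by
    positivity
  linarith

theorem cert_fin {b t : ℝ} (hb0 : 0 ≤ b) (hb1 : b ≤ 1 / 2) (ht0 : 0 ≤ t) (ht1 : t ≤ 1) :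
    (2 - 2 * t + b / 2) * (1 + b * (189 / 250 + 7 / 25 * b - 53 / 50 * t + 3 / 25 * b * t))
      * ((2 - 2 * t + b) * (1 + b * ((t + 1 / 2) * (1 / 2 - b / 5)
        + (t + 1 / 2) ^ 2 * (14 / 125 - 27 / 1000 * b) + 559 / 10000 * (t + 1 / 2) ^ 2 * (2 * t + 2)))
        + b / 4 * (1 + b) * (2 * t + b / 2))
      ≤ (1 + b) * (2 - 2 * t + b) ^ 2 := by
  obtain ⟨x, hx⟩ : ∃ x, x = 2 * b := ⟨_, rfl⟩
  obtain ⟨y, hy⟩ : ∃ y, y = 1 - 2 * b := ⟨_, rfl⟩
  obtain ⟨u, hu⟩ : ∃ u, u = t := ⟨_, rfl⟩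
  obtain ⟨v, hv⟩ : ∃ v, v = 1 - t := ⟨_, rfl⟩
  have hx0 : 0 ≤ x := by linarith
  have hy0 : 0 ≤ y := by linarith
  have hu0 : 0 ≤ u := by linarith
  have hv0 : 0 ≤ v := by linarith
  have key : (1 + b) * (2 - 2 * t + b) ^ 2
      - (2 - 2 * t + b / 2) * (1 + b * (189 / 250 + 7 / 25 * b - 53 / 50 * t + 3 / 25 * b * t))
      * ((2 - 2 * t + b) * (1 + b * ((t + 1 / 2) * (1 / 2 - b / 5)
        + (t + 1 / 2) ^ 2 * (14 / 125 - 27 / 1000 * b) + 559 / 10000 * (t + 1 / 2) ^ 2 * (2 * t + 2)))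
        + b / 4 * (1 + b) * (2 * t + b / 2))
      = b * ((3761/5000)*y^5*v^6
      + (21209/5000)*y^5*u^1*v^5
      + (34349/5000)*y^5*u^2*v^4
      + (17879/5000)*y^5*u^3*v^3
      + (489/2500)*y^5*u^4*v^2
      + (17419893/5000000)*x^1*y^4*v^6
      + (50170831/2500000)*x^1*y^4*u^1*v^5
      + (42653073/1250000)*x^1*y^4*u^2*v^4
      + (1611923/78125)*x^1*y^4*u^3*v^3
      + (19034379/5000000)*x^1*y^4*u^4*v^2
      + (12007/20000)*x^1*y^4*u^5*v^1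
      + (1/8)*x^1*y^4*u^6
      + (12194843/2000000)*x^2*y^3*v^6
      + (44779977/1250000)*x^2*y^3*u^1*v^5
      + (1266661003/20000000)*x^2*y^3*u^2*v^4
      + (859352103/20000000)*x^2*y^3*u^3*v^3
      + (254232393/20000000)*x^2*y^3*u^4*v^2
      + (59131881/20000000)*x^2*y^3*u^5*v^1
      + (43259/80000)*x^2*y^3*u^6
      + (388167901/80000000)*x^3*y^2*v^6
      + (1162546173/40000000)*x^3*y^2*u^1*v^5
      + (1053721519/20000000)*x^3*y^2*u^2*v^4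
      + (778158757/20000000)*x^3*y^2*u^3*v^3
      + (1264122857/80000000)*x^3*y^2*u^4*v^2
      + (195047561/40000000)*x^3*y^2*u^5*v^1
      + (35596751/40000000)*x^3*y^2*u^6
      + (253419973/160000000)*x^4*y^1*v^6
      + (1553035427/160000000)*x^4*y^1*u^1*v^5
      + (1397750589/80000000)*x^4*y^1*u^2*v^4
      + (1076834153/80000000)*x^4*y^1*u^3*v^3
      + (1210960133/160000000)*x^4*y^1*u^4*v^2
      + (508528459/160000000)*x^4*y^1*u^5*v^1
      + (25150367/40000000)*x^4*y^1*u^6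
      + (778713/8000000)*x^5*v^6
      + (51259691/80000000)*x^5*u^1*v^5
      + (69627103/80000000)*x^5*u^2*v^4
      + (3787981/8000000)*x^5*u^3*v^3
      + (3516459/4000000)*x^5*u^4*v^2
      + (53200019/80000000)*x^5*u^5*v^1
      + (12484107/80000000)*x^5*u^6) := by
    rw [hx, hy, hu, hv]
    ring
  have h2 : 0 ≤ b * ((3761/5000)*y^5*v^6
      + (21209/5000)*y^5*u^1*v^5
      + (34349/5000)*y^5*u^2*v^4
      + (17879/5000)*y^5*u^3*v^3
      + (489/2500)*y^5*u^4*v^2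
      + (17419893/5000000)*x^1*y^4*v^6
      + (50170831/2500000)*x^1*y^4*u^1*v^5
      + (42653073/1250000)*x^1*y^4*u^2*v^4
      + (1611923/78125)*x^1*y^4*u^3*v^3
      + (19034379/5000000)*x^1*y^4*u^4*v^2
      + (12007/20000)*x^1*y^4*u^5*v^1
      + (1/8)*x^1*y^4*u^6
      + (12194843/2000000)*x^2*y^3*v^6
      + (44779977/1250000)*x^2*y^3*u^1*v^5
      + (1266661003/20000000)*x^2*y^3*u^2*v^4
      + (859352103/20000000)*x^2*y^3*u^3*v^3
      + (254232393/20000000)*x^2*y^3*u^4*v^2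
      + (59131881/20000000)*x^2*y^3*u^5*v^1
      + (43259/80000)*x^2*y^3*u^6
      + (388167901/80000000)*x^3*y^2*v^6
      + (1162546173/40000000)*x^3*y^2*u^1*v^5
      + (1053721519/20000000)*x^3*y^2*u^2*v^4
      + (778158757/20000000)*x^3*y^2*u^3*v^3
      + (1264122857/80000000)*x^3*y^2*u^4*v^2
      + (195047561/40000000)*x^3*y^2*u^5*v^1
      + (35596751/40000000)*x^3*y^2*u^6
      + (253419973/160000000)*x^4*y^1*v^6
      + (1553035427/160000000)*x^4*y^1*u^1*v^5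
      + (1397750589/80000000)*x^4*y^1*u^2*v^4
      + (1076834153/80000000)*x^4*y^1*u^3*v^3
      + (1210960133/160000000)*x^4*y^1*u^4*v^2
      + (508528459/160000000)*x^4*y^1*u^5*v^1
      + (25150367/40000000)*x^4*y^1*u^6
      + (778713/8000000)*x^5*v^6
      + (51259691/80000000)*x^5*u^1*v^5
      + (69627103/80000000)*x^5*u^2*v^4
      + (3787981/8000000)*x^5*u^3*v^3
      + (3516459/4000000)*x^5*u^4*v^2
      + (53200019/80000000)*x^5*u^5*v^1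
      + (12484107/80000000)*x^5*u^6) := by
    positivity
  linarith

end Pool.Agent.Helper22.Half
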