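import Mathlib
import Pool.Agent.Helper22.Half.Numeric

/-!
The inequality `pref * Brk ≤ 1`.
-/

set_option autoImplicit false

namespace Pool.Agent.Helper22.Half

variable {b r ρ : ℝ}

theorem pref_le (hb : 0 < b) (hb1 : b ≤ 1 / 2) (hr : -(1 / 2) ≤ r) (hr1 : r ≤ 1 / 2)
    (hρ0 : 0 ≤ ρ) (hρ : ρ ≤ b / 2) :
    pref b r ρ ≤ (1 - 2 * r + b / 2) / (b + 1 - 2 * r)
      * (1 + b * (189 / 250 + 7 / 25 * b - 53 / 50 * (r + 1 / 2) + 3 / 25 * b * (r + 1 / 2))) := by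
  have hσ : 0 < b + 1 - 2 * r := by linarith
  have h1r : 0 < 1 - r := by linarith
  have h2r : 0 < 1 + r := by linarith
  -- the constant B
  have hB : Bc r ρ ≤ (1 + b / 4 * (1 + b / 16) * (1 + 4 / 3 * r ^ 2)) * Real.exp (5 / 12 * b) := by
    unfold Bc
    have e1 : (1 + ρ / (2 * (2 + 2 * r))) * (1 + ρ / (2 * (2 - 2 * r)))
        ≤ (1 + b / 2 / (2 * (2 + 2 * r))) * (1 + b / 2 / (2 * (2 - 2 * r))) := by
      have a1 : 0 < 2 * (2 + 2 * r) := by linarith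
      have a2 : 0 < 2 * (2 - 2 * r) := by linarith
      gcongr
    have e2 : (1 + b / 2 / (2 * (2 + 2 * r))) * (1 + b / 2 / (2 * (2 - 2 * r)))
        = 1 + b / 4 * (1 + b / 16) * (1 / ((1 + r) * (1 - r))) := by
      have a1 : 2 + 2 * r ≠ 0 := by linarith
      have a2 : 2 - 2 * r ≠ 0 := by linarith
      have a3 := h1r.ne'
      have a4 := h2r.ne'
      have q1 : 2 + 2 * r = 2 * (1 + r) := by ring
      have q2 : 2 - 2 * r = 2 * (1 - r) := by ring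
      rw [q1, q2]
      field_simp
      ring
    have e3 : 1 / ((1 + r) * (1 - r)) ≤ 1 + 4 / 3 * r ^ 2 := by
      rw [div_le_iff₀ (by positivity)]
      have hr2 : r ^ 2 ≤ 1 / 4 := by nlinarith
      nlinarith [mul_nonneg (sq_nonneg r) (by linarith : 0 ≤ 1 / 4 - r ^ 2)]
    have e4 : Real.exp (5 * ρ / 6) ≤ Real.exp (5 / 12 * b) := by
      apply Real.exp_le_exp.mpr; linarith
    have e5 : (1 + ρ / (2 * (2 + 2 * r))) * (1 + ρ / (2 * (2 - 2 * r)))
        ≤ 1 + b / 4 * (1 + b / 16) * (1 + 4 / 3 * r ^ 2) := by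
      rw [e2] at e1
      refine e1.trans ?_
      gcongr
    apply mul_le_mul e5 e4 (Real.exp_pos _).le
    positivity
  have hq : 0 < qe b r := by unfold qe; linarith
  obtain ⟨t, ht⟩ : ∃ t, t = r + 1 / 2 := ⟨_, rfl⟩
  have hr_t : r = t - 1 / 2 := by linarith
  have hw : 0 < 121 / 20 + b - 2 * t := by linarith
  have hqt : qe b r = (121 / 20 + b - 2 * t) / 2 := by
    unfold qe; rw [hr_t]; ring
  obtain ⟨X, hX⟩ : ∃ X, X = 5 / 12 * b - 2 * b * (1 + r) / qe b r := ⟨_, rfl⟩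
  have hXw : (1 - X) * (121 / 20 + b - 2 * t)
      = (1 - 5 / 12 * b) * (121 / 20 + b - 2 * t) + 4 * b * (t + 1 / 2) := by
    rw [hX, hqt, hr_t]
    have h1t : (1 + (t - 1 / 2)) = t + 1 / 2 := by ring
    rw [h1t]
    generalize hW : 121 / 20 + b - 2 * t = W at hw
    field_simp
    ring
  have h1X : 0 < 1 - X := by
    have h3 : 0 < (1 - X) * (121 / 20 + b - 2 * t) := by
      rw [hXw]
      have : 0 ≤ 4 * b * (t + 1 / 2) := by
        apply mul_nonneg <;> linarith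
      have : 0 < (1 - 5 / 12 * b) * (121 / 20 + b - 2 * t) := by
        apply mul_pos _ hw; linarith
      linarith
    exact (pos_iff_pos_of_mul_pos h3).mpr hw
  have hexp : Real.exp X ≤ 1 / (1 - X) := by
    rw [le_div_iff₀ h1X]
    have h4 := Real.add_one_le_exp (-X)
    calc Real.exp X * (1 - X) ≤ Real.exp X * Real.exp (-X) := by
          apply mul_le_mul_of_nonneg_left _ (Real.exp_pos _).le
          linarith
      _ = 1 := by rw [← Real.exp_add, add_neg_cancel, Real.exp_zero]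
  have hc1 := cert_phi hb.le hb1 (by linarith : 0 ≤ t) (by linarith : t ≤ 1)
  rw [← hXw, ← mul_assoc] at hc1
  have hc2 := le_of_mul_le_mul_right hc1 hw
  have hrt : (t - 1 / 2) = r := hr_t.symm
  rw [hrt] at hc2
  have hBX : Bc r ρ * Xb b r
      ≤ 1 + b * (189 / 250 + 7 / 25 * b - 53 / 50 * t + 3 / 25 * b * t) := by
    unfold Xb
    calc Bc r ρ * ((1 + b / 3) * Real.exp (-(2 * b * (1 + r) / qe b r)))
        ≤ ((1 + b / 4 * (1 + b / 16) * (1 + 4 / 3 * r ^ 2)) * Real.exp (5 / 12 * b))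
          * ((1 + b / 3) * Real.exp (-(2 * b * (1 + r) / qe b r))) := by gcongr
      _ = ((1 + b / 3) * (1 + b / 4 * (1 + b / 16) * (1 + 4 / 3 * r ^ 2))) * Real.exp X := by
          rw [hX, sub_eq_add_neg, Real.exp_add]; ring
      _ ≤ ((1 + b / 3) * (1 + b / 4 * (1 + b / 16) * (1 + 4 / 3 * r ^ 2))) * (1 / (1 - X)) := by
          gcongr
      _ ≤ _ := by
          rw [mul_one_div, div_le_iff₀ h1X]
          exact hc2
  unfold pref
  rw [← ht, mul_assoc]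
  have h5 : (1 - 2 * r + ρ) / (b + 1 - 2 * r) ≤ (1 - 2 * r + b / 2) / (b + 1 - 2 * r) := by
    gcongr
  have h6 : 0 ≤ Bc r ρ * Xb b r := by
    unfold Bc Xb
    have a1 : 0 < 2 * (2 + 2 * r) := by linarith
    have a2 : 0 < 2 * (2 - 2 * r) := by linarith
    positivity
  have h7 : 0 ≤ (1 - 2 * r + b / 2) / (b + 1 - 2 * r) := by
    apply div_nonneg _ hσ.le
    linarith
  exact mul_le_mul h5 hBX h6 h7

theorem Brk_le (hb : 0 < b) (hb1 : b ≤ 1 / 2) (hr : -(1 / 2) ≤ r) (hr1 : r ≤ 1 / 2)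
    (hρ0 : 0 ≤ ρ) (hρ : ρ ≤ b / 2) :
    Brk b r ρ * ((1 + b) * (b + 1 - 2 * r)) ≤ (b + 1 - 2 * r) * (1 + b * ((1 + r) * (1 / 2 - b / 5)
        + (1 + r) ^ 2 * (14 / 125 - 27 / 1000 * b) + 559 / 10000 * (1 + r) ^ 2 * (3 + 2 * r)))
        + b / 4 * (1 + b) * (1 + 2 * r + b / 2) := by
  have hσ : 0 < b + 1 - 2 * r := by linarith
  have h2r : 0 < 1 + r := by linarith
  -- the three bounds
  have k1 : 1 / (b + 2) ≤ 1 / 2 - b / 5 := by
    rw [div_le_iff₀ (by positivity)]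
    nlinarith
  have k2 : 2 * (b + 1) / ((b + 2) * (b + 3) ^ 2) ≤ 14 / 125 - 27 / 1000 * b := by
    rw [div_le_iff₀ (by positivity)]
    rcases le_total b (1 / 4) with hb4 | hb4
    · obtain ⟨x, hx⟩ : ∃ x, x = 4 * b := ⟨_, rfl⟩
      obtain ⟨y, hy⟩ : ∃ y, y = 1 - 4 * b := ⟨_, rfl⟩
      have hx0 : 0 ≤ x := by linarith
      have hy0 : 0 ≤ y := by linarith
      have e : (14 / 125 - 27 / 1000 * b) * ((b + 2) * (b + 3) ^ 2) - 2 * (b + 1)
          = (2/125)*y^4 + (61/2000)*x*y^3 + (257/16000)*x^2*y^2 + (3/1000)*x^3*y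
            + (341/256000)*x^4 := by
        rw [hx, hy]; ring
      have : 0 ≤ (2/125)*y^4 + (61/2000)*x*y^3 + (257/16000)*x^2*y^2 + (3/1000)*x^3*y
            + (341/256000)*x^4 := by positivity
      linarith
    · obtain ⟨x, hx⟩ : ∃ x, x = 4 * b - 1 := ⟨_, rfl⟩
      obtain ⟨y, hy⟩ : ∃ y, y = 2 - 4 * b := ⟨_, rfl⟩
      have hx0 : 0 ≤ x := by linarith
      have hy0 : 0 ≤ y := by linarith
      have e : (14 / 125 - 27 / 1000 * b) * ((b + 2) * (b + 3) ^ 2) - 2 * (b + 1)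
          = (341/256000)*y^4 + (49/6400)*x*y^3 + (961/32000)*x^2*y^2 + (323/8000)*x^3*y
            + (53/3200)*x^4 := by
        rw [hx, hy]; ring
      have : 0 ≤ (341/256000)*y^4 + (49/6400)*x*y^3 + (961/32000)*x^2*y^2 + (323/8000)*x^3*y
            + (53/3200)*x^4 := by positivity
      linarith
  have k3 : 2 * (b + 1) / ((b + 3) ^ 2 * (b + 4)) ≤ 559 / 10000 := by
    rw [div_le_iff₀ (by positivity)]
    nlinarith [sq_nonneg (b - 1 / 8), mul_nonneg (sq_nonneg b) hb.le]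
  have e0 : Brk b r ρ * ((1 + b) * (b + 1 - 2 * r))
      = (b + 1 - 2 * r) * (1 + b * ((1 + r) * (1 / (b + 2))
        + (1 + r) ^ 2 * (2 * (b + 1) / ((b + 2) * (b + 3) ^ 2))
        + (2 * (b + 1) / ((b + 3) ^ 2 * (b + 4))) * (1 + r) ^ 2 * (3 + 2 * r)))
        + b / 4 * (1 + b) * (1 + 2 * r + ρ) := by
    unfold Brk Sg
    obtain ⟨S, hS⟩ : ∃ S, S = b + 1 - 2 * r := ⟨_, rfl⟩
    rw [← hS] at hσ ⊢
    have := hσ.ne'
    field_simp
    ring
  rw [e0]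
  have h3r : 0 ≤ 3 + 2 * r := by linarith
  gcongr

/-- the numerical inequality -/
theorem pref_mul_Brk (hb : 0 < b) (hb1 : b ≤ 1 / 2) (hr : -(1 / 2) ≤ r) (hr1 : r ≤ 1 / 2)
    (hρ0 : 0 ≤ ρ) (hρ : ρ ≤ b / 2) : pref b r ρ * Brk b r ρ ≤ 1 := by
  have hσ : 0 < b + 1 - 2 * r := by linarith
  have h1 := pref_le hb hb1 hr hr1 hρ0 hρ
  have h2 := Brk_le hb hb1 hr hr1 hρ0 hρ
  have hden : 0 < (1 + b) * (b + 1 - 2 * r) := by positivity
  have h3 := cert_fin hb.le hb1 (by linarith : 0 ≤ r + 1 / 2) (by linarith : r + 1 / 2 ≤ 1)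
  have hBrk0 : 0 ≤ Brk b r ρ := by
    unfold Brk Sg
    have a1 : 0 ≤ 1 + r := by linarith
    have a2 : 0 ≤ 1 + 2 * r := by linarith
    have a3 : 0 ≤ 2 + 2 * r := by linarith
    have a4 : 0 ≤ 3 + 2 * r := by linarith
    positivity
  obtain ⟨N, hN⟩ : ∃ N, N = (b + 1 - 2 * r) * (1 + b * ((1 + r) * (1 / 2 - b / 5)
        + (1 + r) ^ 2 * (14 / 125 - 27 / 1000 * b) + 559 / 10000 * (1 + r) ^ 2 * (3 + 2 * r)))
        + b / 4 * (1 + b) * (1 + 2 * r + b / 2) := ⟨_, rfl⟩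
  rw [← hN] at h2
  have h4 : Brk b r ρ ≤ N / ((1 + b) * (b + 1 - 2 * r)) := by
    rw [le_div_iff₀ hden]; exact h2
  obtain ⟨P, hP⟩ : ∃ P, P = 1 + b * (189 / 250 + 7 / 25 * b - 53 / 50 * (r + 1 / 2)
      + 3 / 25 * b * (r + 1 / 2)) := ⟨_, rfl⟩
  rw [← hP] at h1
  have h5 : (1 - 2 * r + b / 2) * P * N ≤ (1 + b) * (b + 1 - 2 * r) ^ 2 := by
    rw [hP, hN]
    refine le_trans (le_of_eq ?_) (h3.trans (le_of_eq ?_))
    · ring
    · ring
  have hP0 : 0 ≤ (1 - 2 * r + b / 2) / (b + 1 - 2 * r) * P := by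
    refine le_trans ?_ h1
    unfold pref Bc Xb
    have a1 : 0 < 2 * (2 + 2 * r) ∨ r = -(1 / 2) := by left; linarith
    have a1 : 0 < 2 * (2 + 2 * r) := by linarith
    have a2 : 0 < 2 * (2 - 2 * r) := by linarith
    have a3 : 0 ≤ 1 - 2 * r + ρ := by linarith
    positivity
  calc pref b r ρ * Brk b r ρ
      ≤ ((1 - 2 * r + b / 2) / (b + 1 - 2 * r) * P) * (N / ((1 + b) * (b + 1 - 2 * r))) :=
        mul_le_mul h1 h4 hBrk0 hP0
    _ = ((1 - 2 * r + b / 2) * P * N) / ((1 + b) * (b + 1 - 2 * r) ^ 2) := by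
        have := hσ.ne'
        field_simp
    _ ≤ 1 := by
        rw [div_le_one (by positivity)]
        exact h5

end Pool.Agent.Helper22.Half
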