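import Mathlib
import Pool.Agent.Helper22.Half.Numeric2

/-!
Uniform form of the Hilbert-Schmidt bound.
-/

set_option autoImplicit false

open Filter Topology

namespace Pool.Agent.Helper22.Half

theorem Sg_le {b r : ℝ} (hb : 0 < b) (hr : -(1 / 2) ≤ r) (hr1 : r ≤ 1 / 2) : Sg b r ≤ 1 := by
  unfold Sg
  have h1 : 1 / ((b + 1) * (b + 2)) ≤ 1 / 2 := by
    apply one_div_le_one_div_of_le (by norm_num); nlinarith
  have h2 : (2 + 2 * r) / (b + 3) / ((b + 2) * (b + 3)) ≤ 1 / 6 := by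
    rw [div_div, div_le_div_iff₀ (by positivity) (by norm_num)]
    have : (3 : ℝ) * 6 ≤ (b + 3) * ((b + 2) * (b + 3)) := by nlinarith [mul_pos hb hb]
    nlinarith
  have h3 : (2 + 2 * r) * (3 + 2 * r) / ((b + 3) * (b + 4)) / (b + 3) ≤ 1 / 3 := by
    rw [div_div, div_le_div_iff₀ (by positivity) (by norm_num)]
    have h4 : (2 + 2 * r) * (3 + 2 * r) ≤ 12 := by nlinarith
    have : (36 : ℝ) ≤ (b + 3) * (b + 4) * (b + 3) := by nlinarith [mul_pos hb hb]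
    nlinarith
  linarith

theorem Sg_nonneg {b r : ℝ} (hb : 0 < b) (hr : -(1 / 2) ≤ r) : 0 ≤ Sg b r := by
  unfold Sg
  have a3 : 0 ≤ 2 + 2 * r := by linarith
  have a4 : 0 ≤ 3 + 2 * r := by linarith
  positivity

theorem Brm_le {b r ρ : ℝ} (hb : 0 < b) (hb1 : b ≤ 1 / 2) (hr : -(1 / 2) ≤ r) (hr1 : r < 1 / 2)
    (hρ0 : 0 ≤ ρ) (hρ1 : ρ ≤ 1 / 4) {m : ℕ} (hm : 1 ≤ m) {e4 : ℝ} (he : 0 ≤ e4) :
    Brm b r (1 + 2 * r + ρ) m e4 ≤ Brk b r ρ + 60 / m + 7 * e4 := by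
  have hm' : (1 : ℝ) ≤ m := by exact_mod_cast hm
  obtain ⟨u, hu⟩ : ∃ u : ℝ, u = 1 / m := ⟨_, rfl⟩
  have hu0 : 0 < u := by rw [hu]; positivity
  have hu1 : u ≤ 1 := by rw [hu, div_le_one (by linarith)]; exact hm'
  have hσ : 0 < b + 1 - 2 * r := by linarith
  have hσb : b ≤ b + 1 - 2 * r := by linarith
  have hS1 := Sg_le hb hr hr1.le
  have hS0 := Sg_nonneg hb hr
  unfold Brm Brk
  have e1 : (b + 2) / (m : ℝ) = (b + 2) * u := by rw [hu]; ring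
  have e2 : (b + 3) / (m : ℝ) = (b + 3) * u := by rw [hu]; ring
  have e3 : 32 / (m : ℝ) = 32 * u := by rw [hu]; ring
  have e5 : 60 / (m : ℝ) = 60 * u := by rw [hu]; ring
  rw [e1, e2, e3, e5, ← hu]
  obtain ⟨N, hN⟩ : ∃ N, N = 1 + 2 * r + ρ := ⟨_, rfl⟩
  have hN0 : 0 ≤ N := by rw [hN]; linarith
  have hN1 : N ≤ 9 / 4 := by rw [hN]; linarith
  rw [← hN]
  have huu : u ^ 2 ≤ u := by nlinarith
  -- first
  have t1 : b * (1 + r) * ((1 + (b + 2) * u) * (1 + (b + 3) * u) * Sg b r)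
      ≤ b * (1 + r) * Sg b r + 12 * u := by
    have h1 : (1 + (b + 2) * u) * (1 + (b + 3) * u) ≤ 1 + 15 * u := by
      calc (1 + (b + 2) * u) * (1 + (b + 3) * u)
          ≤ (1 + (1 / 2 + 2) * u) * (1 + (1 / 2 + 3) * u) := by gcongr
        _ = 1 + 6 * u + 35 / 4 * u ^ 2 := by ring
        _ ≤ _ := by linarith
    have h2 : 0 ≤ b * (1 + r) := by apply mul_nonneg <;> linarith
    have h3 : b * (1 + r) ≤ 3 / 4 := by nlinarith
    have h4 : b * (1 + r) * Sg b r ≤ 3 / 4 := by nlinarith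
    have h5 : 0 ≤ b * (1 + r) * Sg b r := by positivity
    calc b * (1 + r) * ((1 + (b + 2) * u) * (1 + (b + 3) * u) * Sg b r)
        = (b * (1 + r) * Sg b r) * ((1 + (b + 2) * u) * (1 + (b + 3) * u)) := by ring
      _ ≤ (b * (1 + r) * Sg b r) * (1 + 15 * u) := by gcongr
      _ ≤ _ := by nlinarith
  have t2 : b / 4 * (N + 32 * u) * (1 + (b + 3) * u) / (b + 1 - 2 * r)
      ≤ b / 4 * N / (b + 1 - 2 * r) + 40 * u := by
    have h1 : b / 4 / (b + 1 - 2 * r) ≤ 1 / 4 := by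
      rw [div_le_iff₀ hσ]; linarith
    have h0 : 0 ≤ b / 4 / (b + 1 - 2 * r) := by positivity
    have h2 : (N + 32 * u) * (1 + (b + 3) * u) ≤ N + 152 * u := by
      calc (N + 32 * u) * (1 + (b + 3) * u) ≤ (N + 32 * u) * (1 + (1 / 2 + 3) * u) := by gcongr
        _ = N + 32 * u + 7 / 2 * (N * u) + 112 * u ^ 2 := by ring
        _ ≤ N + 32 * u + 7 / 2 * (9 / 4 * u) + 112 * u := by gcongr
        _ ≤ _ := by linarith
    calc b / 4 * (N + 32 * u) * (1 + (b + 3) * u) / (b + 1 - 2 * r)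
        = (b / 4 / (b + 1 - 2 * r)) * ((N + 32 * u) * (1 + (b + 3) * u)) := by ring
      _ ≤ (b / 4 / (b + 1 - 2 * r)) * (N + 152 * u) := by gcongr
      _ = b / 4 * N / (b + 1 - 2 * r) + (b / 4 / (b + 1 - 2 * r)) * (152 * u) := by ring
      _ ≤ b / 4 * N / (b + 1 - 2 * r) + 1 / 4 * (152 * u) := by gcongr
      _ ≤ _ := by linarith
  have t3 : 6 * b * N * e4 ≤ 7 * e4 := by
    have : 6 * b * N ≤ 7 := by nlinarith
    gcongr
  linarith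

theorem pref_nonneg {b r ρ : ℝ} (hb : 0 < b) (hr : -(1 / 2) ≤ r) (hr1 : r < 1 / 2)
    (hρ0 : 0 ≤ ρ) : 0 ≤ pref b r ρ := by
  unfold pref Bc Xb
  have a1 : 0 < 2 * (2 + 2 * r) := by linarith
  have a2 : 0 < 2 * (2 - 2 * r) := by linarith
  have a3 : 0 ≤ 1 - 2 * r + ρ := by linarith
  have a4 : 0 < b + 1 - 2 * r := by linarith
  positivity

theorem pref_le_two {b r ρ : ℝ} (hb : 0 < b) (hb1 : b ≤ 1 / 2) (hr : -(1 / 2) ≤ r) (hr1 : r < 1 / 2)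
    (hρ0 : 0 ≤ ρ) (hρ1 : ρ ≤ 1 / 4) (hρb : ρ ≤ b) : pref b r ρ ≤ 2 := by
  unfold pref
  have hσ : 0 < b + 1 - 2 * r := by linarith
  have h1 : (1 - 2 * r + ρ) / (b + 1 - 2 * r) ≤ 1 := by
    rw [div_le_one hσ]; linarith
  have h1' : 0 ≤ (1 - 2 * r + ρ) / (b + 1 - 2 * r) := by
    apply div_nonneg _ hσ.le; linarith
  have h2 : Bc r ρ ≤ 9 / 8 * (9 / 8) * (32 / 25) := by
    unfold Bc
    have a1 : ρ / (2 * (2 + 2 * r)) ≤ 1 / 8 := by
      rw [div_le_iff₀ (by linarith)]; linarith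
    have a2 : ρ / (2 * (2 - 2 * r)) ≤ 1 / 8 := by
      rw [div_le_iff₀ (by linarith)]; linarith
    have a1' : 0 ≤ ρ / (2 * (2 + 2 * r)) := by apply div_nonneg hρ0; linarith
    have a2' : 0 ≤ ρ / (2 * (2 - 2 * r)) := by apply div_nonneg hρ0; linarith
    have a3 : Real.exp (5 * ρ / 6) ≤ 32 / 25 := by
      refine (Real.exp_le_exp.mpr (by linarith : 5 * ρ / 6 ≤ 5 / 24)).trans ?_
      have h := Real.add_one_le_exp (-(5 / 24) : ℝ)
      have h2 : Real.exp (5 / 24) * Real.exp (-(5 / 24)) = 1 := by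
        rw [← Real.exp_add, add_neg_cancel, Real.exp_zero]
      have h4 : Real.exp (5 / 24) * (19 / 24) ≤ 1 := by
        rw [← h2]
        apply mul_le_mul_of_nonneg_left _ (Real.exp_pos _).le
        linarith
      linarith
    have a4 := Real.exp_pos (5 * ρ / 6)
    apply mul_le_mul _ a3 a4.le (by norm_num)
    apply mul_le_mul <;> linarith
  have h3 : Xb b r ≤ 7 / 6 := by
    unfold Xb
    have hq : 0 < qe b r := by unfold qe; linarith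
    have h4 : Real.exp (-(2 * b * (1 + r) / qe b r)) ≤ 1 := by
      rw [Real.exp_le_one_iff]
      have : 0 ≤ 2 * b * (1 + r) / qe b r := by
        apply div_nonneg _ hq.le
        apply mul_nonneg <;> linarith
      linarith
    have h5 := Real.exp_pos (-(2 * b * (1 + r) / qe b r))
    nlinarith
  have h3' : 0 ≤ Xb b r := by unfold Xb; positivity
  have h2' : 0 ≤ Bc r ρ := by
    unfold Bc
    have a1 : 0 < 2 * (2 + 2 * r) := by linarith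
    have a2 : 0 < 2 * (2 - 2 * r) := by linarith
    positivity
  calc (1 - 2 * r + ρ) / (b + 1 - 2 * r) * Bc r ρ * Xb b r
      ≤ 1 * (9 / 8 * (9 / 8) * (32 / 25)) * (7 / 6) := by gcongr
    _ ≤ 2 := by norm_num

theorem Brk_nonneg {b r ρ : ℝ} (hb : 0 < b) (hr : -(1 / 2) ≤ r) (hr1 : r < 1 / 2)
    (hρ0 : 0 ≤ ρ) : 0 ≤ Brk b r ρ := by
  unfold Brk
  have a1 : 0 ≤ 1 + r := by linarith
  have a2 : 0 ≤ 1 + 2 * r := by linarith
  have a4 : 0 < b + 1 - 2 * r := by linarith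
  have := Sg_nonneg hb hr
  positivity

theorem Brk_le_three {b r ρ : ℝ} (hb : 0 < b) (hb1 : b ≤ 1 / 2) (hr : -(1 / 2) ≤ r) (hr1 : r < 1 / 2)
    (hρ0 : 0 ≤ ρ) (hρ1 : ρ ≤ 1 / 4) : Brk b r ρ ≤ 3 := by
  unfold Brk
  have hσ : 0 < b + 1 - 2 * r := by linarith
  have h1 : 1 / (b + 1) ≤ 1 := by rw [div_le_one (by positivity)]; linarith
  have h2 : b * (1 + r) * Sg b r ≤ 1 := by
    have hS1 := Sg_le hb hr hr1.le
    have hS0 := Sg_nonneg hb hr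
    have h3 : b * (1 + r) ≤ 3 / 4 := by nlinarith
    have h0 : 0 ≤ b * (1 + r) := by apply mul_nonneg <;> linarith
    nlinarith
  have h3 : b / 4 * (1 + 2 * r + ρ) / (b + 1 - 2 * r) ≤ 1 := by
    rw [div_le_one hσ]
    nlinarith
  linarith

theorem norm_one_add_sq (s : ℂ) : ‖1 + s‖ ^ 2 = 1 + 2 * s.re + ‖s‖ ^ 2 := by
  have h := normSq_one_add s 0
  simp only [Nat.cast_zero, add_zero] at h
  rw [h]; ring

/-- master inequality -/
theorem HS_master (s : ℂ) (hs : ‖s‖ < 1 / 2) {b : ℝ} (hb : 0 < b) (hb1 : b ≤ 1 / 2)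
    {m : ℕ} (hm : 1 ≤ m) (J : ℕ) {e4 : ℝ} (he : 0 ≤ e4)
    (h4 : ∑ j ∈ Finset.range J, ∑ i ∈ Finset.range m,
      ((j : ℝ) + 1) * De b (m + 1 + j) * Wt b s.re m i
        / (((j : ℝ) + 1 + i) * ((j : ℝ) + 2 + i) * ((j : ℝ) + 3 + i)) ≤ e4) :
    ∑ j ∈ Finset.range J, ∑ i ∈ Finset.range m, HSt s b m j i
      ≤ 2 * ‖s‖ ^ 2 / b * (pref b s.re (‖s‖ ^ 2) * ((1 + 2 / m) * Real.exp (3 / (2 * m)))
        * (Brk b s.re (‖s‖ ^ 2) + 60 / m + 7 * e4)) := by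
  have hre := Complex.abs_re_le_norm s
  have hre2 := abs_lt.mp (hre.trans_lt hs)
  have hn0 := norm_nonneg s
  have hρ1 : ‖s‖ ^ 2 ≤ 1 / 4 := by nlinarith
  refine (HS_sum_le s hs hb hb1 hm J h4).trans ?_
  rw [norm_one_add_sq]
  have h5 := Brm_le hb hb1 (by linarith : -(1 / 2) ≤ s.re) (by linarith) (sq_nonneg ‖s‖) hρ1 hm he
  have hp := pref_nonneg hb (by linarith : -(1 / 2) ≤ s.re) (by linarith) (sq_nonneg ‖s‖)
  have hm' : (1 : ℝ) ≤ m := by exact_mod_cast hm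
  calc 2 * ‖s‖ ^ 2 / b * pref b s.re (‖s‖ ^ 2) * ((1 + 2 / m) * Real.exp (3 / (2 * m)))
        * Brm b s.re (1 + 2 * s.re + ‖s‖ ^ 2) m e4
      ≤ 2 * ‖s‖ ^ 2 / b * pref b s.re (‖s‖ ^ 2) * ((1 + 2 / m) * Real.exp (3 / (2 * m)))
        * (Brk b s.re (‖s‖ ^ 2) + 60 / m + 7 * e4) := by gcongr
    _ = _ := by ring

/-- the bound for large `m` -/
theorem HS_eventually {ε : ℝ} (hε : 0 < ε) : ∃ m0 : ℕ, 1 ≤ m0 ∧ ∀ m : ℕ, m0 ≤ m → ∀ J : ℕ,
    ∀ s : ℂ, ‖s‖ < 1 / 2 → ∀ b : ℝ, 0 < b → b ≤ 1 / 2 → ‖s‖ ^ 2 ≤ b →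
    ∑ j ∈ Finset.range J, ∑ i ∈ Finset.range m, HSt s b m j i
      ≤ 2 * ‖s‖ ^ 2 / b * (pref b s.re (‖s‖ ^ 2) * Brk b s.re (‖s‖ ^ 2) + ε) := by
  -- small parameter
  obtain ⟨η, hη0, hη1, hηε⟩ : ∃ η : ℝ, 0 < η ∧ η ≤ 1 ∧ 10 * η ≤ ε := by
    refine ⟨min 1 (ε / 10), by positivity, min_le_left _ _, ?_⟩
    have := min_le_right 1 (ε / 10)
    linarith
  -- the factor
  have hlim1 : Tendsto (fun m : ℕ => (1 + 2 / (m : ℝ)) * Real.exp (3 / (2 * (m : ℝ)))) atTop (𝓝 1) := by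
    have h1 : Tendsto (fun m : ℕ => 1 + 2 / (m : ℝ)) atTop (𝓝 (1 + 0)) :=
      tendsto_const_nhds.add (tendsto_const_div_atTop_nhds_zero_nat 2)
    have h2 : Tendsto (fun m : ℕ => Real.exp (3 / (2 * (m : ℝ)))) atTop (𝓝 (Real.exp 0)) := by
      apply (Real.continuous_exp.tendsto 0).comp
      have h3 := tendsto_const_div_atTop_nhds_zero_nat (3 / 2 : ℝ)
      refine h3.congr (fun m => ?_)
      rw [div_div]
    have h4 := h1.mul h2
    rw [add_zero, Real.exp_zero, mul_one] at h4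
    exact h4
  have hev1 : ∀ᶠ m : ℕ in atTop, (1 + 2 / (m : ℝ)) * Real.exp (3 / (2 * (m : ℝ))) ≤ 1 + η :=
    (hlim1.eventually_lt_const (by linarith : (1 : ℝ) < 1 + η)).mono (fun m h => h.le)
  have hev2 : ∀ᶠ m : ℕ in atTop, 60 / (m : ℝ) ≤ η / 2 :=
    ((tendsto_const_div_atTop_nhds_zero_nat 60).eventually_lt_const
      (by linarith : (0 : ℝ) < η / 2)).mono (fun m h => h.le)
  -- the fourth sum
  obtain ⟨I0, hI0⟩ := exists_nat_gt (28 / η)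
  have hI0pos : (0 : ℝ) < I0 := lt_trans (by positivity) hI0
  have hI1 : 1 ≤ I0 := by
    have : 0 < I0 := by exact_mod_cast hI0pos
    omega
  obtain ⟨δ, hδ0, hδ1⟩ : ∃ δ : ℝ, 0 < δ ∧ I0 * ((I0 : ℝ) + 1) ^ 2 * δ = η / 28 := by
    refine ⟨η / 28 / (I0 * ((I0 : ℝ) + 1) ^ 2), by positivity, ?_⟩
    field_simp
  obtain ⟨m1, hm1⟩ := exists_nat_gt (4 / δ ^ 4)
  have hev3 : ∀ᶠ m : ℕ in atTop, m1 ≤ m := eventually_ge_atTop m1
  obtain ⟨m0, hm0⟩ := eventually_atTop.mp (hev1.and (hev2.and hev3))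
  refine ⟨max 1 m0, le_max_left _ _, fun m hm J s hs b hb hb1 hsb => ?_⟩
  have hm1' : 1 ≤ m := (le_max_left _ _).trans hm
  obtain ⟨g1, g2, g3⟩ := hm0 m ((le_max_right _ _).trans hm)
  have hre := Complex.abs_re_le_norm s
  have hre2 := abs_lt.mp (hre.trans_lt hs)
  have hn0 := norm_nonneg s
  have hρ1 : ‖s‖ ^ 2 ≤ 1 / 4 := by nlinarith
  have hrr : s.re ^ 2 ≤ b := by
    have h5 : s.re ^ 2 ≤ ‖s‖ ^ 2 := sq_le_sq' (by linarith [neg_abs_le s.re]) ((le_abs_self s.re).trans hre)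
    linarith
  have hσ4 : 1 / 4 ≤ b + 1 - 2 * s.re := by nlinarith [sq_nonneg (1 / 2 - s.re)]
  have hδm : 4 ≤ δ ^ 4 * ((m : ℝ) + 4) := by
    have h6 : 4 / δ ^ 4 < m := hm1.trans_le (by exact_mod_cast g3)
    rw [div_lt_iff₀ (by positivity)] at h6
    nlinarith [pow_pos hδ0 4]
  have h4 := S4_le hb (by linarith) (by linarith : -(1 / 2) ≤ s.re) hσ4 hm1' J hI1 hδ0.le hδm
  have he4 : 1 / (I0 : ℝ) + I0 * ((I0 : ℝ) + 1) ^ 2 * δ ≤ η / 14 := by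
    rw [hδ1]
    have : 1 / (I0 : ℝ) ≤ η / 28 := by
      rw [div_le_iff₀ hI0pos]
      rw [div_lt_iff₀ hη0] at hI0
      linarith
    linarith
  have h7 := HS_master s hs hb hb1 hm1' J (e4 := η / 14) (by positivity) (h4.trans he4)
  refine h7.trans ?_
  have hp := pref_nonneg hb (by linarith : -(1 / 2) ≤ s.re) (by linarith) (sq_nonneg ‖s‖)
  have hp2 := pref_le_two hb hb1 (by linarith : -(1 / 2) ≤ s.re) (by linarith) (sq_nonneg ‖s‖) hρ1 hsb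
  have hk := Brk_nonneg hb (by linarith : -(1 / 2) ≤ s.re) (by linarith) (sq_nonneg ‖s‖)
  have hk3 := Brk_le_three hb hb1 (by linarith : -(1 / 2) ≤ s.re) (by linarith) (sq_nonneg ‖s‖) hρ1
  apply mul_le_mul_of_nonneg_left _ (by positivity)
  generalize pref b s.re (‖s‖ ^ 2) = p at *
  generalize Brk b s.re (‖s‖ ^ 2) = k at *
  have hG0 : 0 ≤ (1 + 2 / (m : ℝ)) * Real.exp (3 / (2 * (m : ℝ))) := by positivity
  generalize (1 + 2 / (m : ℝ)) * Real.exp (3 / (2 * (m : ℝ))) = G at *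
  calc p * G * (k + 60 / m + 7 * (η / 14)) ≤ p * (1 + η) * (k + η) := by
        have : k + 60 / m + 7 * (η / 14) ≤ k + η := by linarith
        have : 0 ≤ k + 60 / m + 7 * (η / 14) := by positivity
        gcongr
    _ = p * k + p * (η * k + η + η ^ 2) := by ring
    _ ≤ p * k + 2 * (η * 3 + η + η) := by
        have h8 : η ^ 2 ≤ η := by nlinarith
        have h9 : η * k + η + η ^ 2 ≤ η * 3 + η + η := by nlinarith
        have h10 : 0 ≤ η * k + η + η ^ 2 := by positivity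
        have : p * (η * k + η + η ^ 2) ≤ 2 * (η * 3 + η + η) := by gcongr
        linarith
    _ ≤ p * k + ε := by linarith

/-- crude bound for all `m ≥ 1` -/
theorem HS_crude : ∃ C : ℝ, 0 ≤ C ∧ ∀ m : ℕ, 1 ≤ m → ∀ J : ℕ,
    ∀ s : ℂ, ‖s‖ < 1 / 2 → ∀ b : ℝ, 0 < b → b ≤ 1 / 2 → ‖s‖ ^ 2 ≤ b →
    ∑ j ∈ Finset.range J, ∑ i ∈ Finset.range m, HSt s b m j i ≤ C := by
  refine ⟨2 * (2 * (3 * Real.exp (3 / 2)) * 70), by positivity, fun m hm J s hs b hb hb1 hsb => ?_⟩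
  have hm' : (1 : ℝ) ≤ m := by exact_mod_cast hm
  have hre := Complex.abs_re_le_norm s
  have hre2 := abs_lt.mp (hre.trans_lt hs)
  have hn0 := norm_nonneg s
  have hρ1 : ‖s‖ ^ 2 ≤ 1 / 4 := by nlinarith
  have hσ : 0 < b + 1 - 2 * s.re := by linarith
  have h4 := S4_le' hb (by linarith : -(1 / 2) ≤ s.re) hσ hm J
  have h7 := HS_master s hs hb hb1 hm J (e4 := 1) (by norm_num) h4
  refine h7.trans ?_
  have hp := pref_nonneg hb (by linarith : -(1 / 2) ≤ s.re) (by linarith) (sq_nonneg ‖s‖)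
  have hp2 := pref_le_two hb hb1 (by linarith : -(1 / 2) ≤ s.re) (by linarith) (sq_nonneg ‖s‖) hρ1 hsb
  have hk := Brk_nonneg hb (by linarith : -(1 / 2) ≤ s.re) (by linarith) (sq_nonneg ‖s‖)
  have hk3 := Brk_le_three hb hb1 (by linarith : -(1 / 2) ≤ s.re) (by linarith) (sq_nonneg ‖s‖) hρ1
  have h60 : 60 / (m : ℝ) ≤ 60 := by
    rw [div_le_iff₀ (by linarith)]; linarith
  have h2m : 2 / (m : ℝ) ≤ 2 := by
    rw [div_le_iff₀ (by linarith)]; linarith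
  have hexp : Real.exp (3 / (2 * (m : ℝ))) ≤ Real.exp (3 / 2) := by
    apply Real.exp_le_exp.mpr
    rw [div_le_div_iff₀ (by positivity) (by norm_num)]
    linarith
  have hq : 2 * ‖s‖ ^ 2 / b ≤ 2 := by
    rw [div_le_iff₀ hb]; linarith
  calc 2 * ‖s‖ ^ 2 / b * (pref b s.re (‖s‖ ^ 2) * ((1 + 2 / m) * Real.exp (3 / (2 * m)))
        * (Brk b s.re (‖s‖ ^ 2) + 60 / m + 7 * 1))
      ≤ 2 * (2 * ((1 + 2) * Real.exp (3 / 2)) * (3 + 60 + 7 * 1)) := by gcongr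
    _ = _ := by norm_num

end Pool.Agent.Helper22.Half
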