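import Mathlib
import Pool.Agent.Helper22.Half.HSFinal
import Pool.Agent.Helper22.Half.PfDef

/-!
Cauchy-Schwarz estimates for palindromic sequences.
-/

set_option autoImplicit false

namespace Pool.Agent.Helper22.Half

theorem cs_aux (m : ℕ) (a : ℕ → ℝ) (ha : ∀ i, 0 < a i) (Q V Z : ℕ → ℂ) :
    ‖∑ i ∈ Finset.range m, ((m - i : ℕ) : ℂ) * Q i * V i * Z i‖ ^ 2
      ≤ (∑ i ∈ Finset.range m, ((m - i : ℕ) : ℝ) * ‖Q i‖ ^ 2 * a i * ‖Z i‖ ^ 2)
        * ∑ i ∈ Finset.range m, ((m - i : ℕ) : ℝ) * (a i)⁻¹ * ‖V i‖ ^ 2 := by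
  have h1 : ‖∑ i ∈ Finset.range m, ((m - i : ℕ) : ℂ) * Q i * V i * Z i‖
      ≤ ∑ i ∈ Finset.range m, ((m - i : ℕ) : ℝ) * ‖Q i‖ * ‖V i‖ * ‖Z i‖ := by
    refine (norm_sum_le _ _).trans (le_of_eq ?_)
    apply Finset.sum_congr rfl
    intro i _
    rw [norm_mul, norm_mul, norm_mul, Complex.norm_natCast]
  have h2 := Finset.sum_sq_le_sum_mul_sum_of_sq_le_mul (Finset.range m)
    (r := fun i => ((m - i : ℕ) : ℝ) * ‖Q i‖ * ‖V i‖ * ‖Z i‖)
    (f := fun i => ((m - i : ℕ) : ℝ) * ‖Q i‖ ^ 2 * a i * ‖Z i‖ ^ 2)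
    (g := fun i => ((m - i : ℕ) : ℝ) * (a i)⁻¹ * ‖V i‖ ^ 2)
    (fun i _ => by have := ha i; positivity) (fun i _ => by have := ha i; positivity)
    (fun i _ => by
      have := (ha i).ne'
      apply le_of_eq
      field_simp)
  refine le_trans ?_ h2
  exact pow_le_pow_left₀ (norm_nonneg _) h1 2

/-- the upper part is controlled by the lower part -/
theorem cs_upper {s : ℂ} (hs : ‖s‖ < 1 / 2) {b : ℝ} (hb : 0 < b) {d : ℕ → ℂ} {m : ℕ} (hm : 1 ≤ m)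
    (hd : ∀ l ≤ m, d l = d (m - l)) (J : ℕ) :
    ∑ j ∈ Finset.range J, ((j : ℝ) + 1) * (pq (b + 1 - 2 * s.re) (m + 1 + j))⁻¹
        * ‖Vd s d m (m + 1 + j)‖ ^ 2
      ≤ (∑ j ∈ Finset.range J, ∑ i ∈ Finset.range m, HSt s b m j i) * Pf s b d m := by
  have hre := Complex.abs_re_le_norm s
  have hre2 := abs_lt.mp (hre.trans_lt hs)
  have hσ : 0 < b + 1 - 2 * s.re := by linarith
  have h1s : (1 + s) ≠ 0 := by
    intro h
    have h2 : s = -1 := by linear_combination h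
    rw [h2] at hs
    simp at hs
    norm_num at hs
  rw [Finset.sum_mul]
  apply Finset.sum_le_sum
  intro j _
  have hV := V_formula s d m (j + 1) hm h1s hd (fun k => by
    intro h
    have h2 : s = ((j + 1 + k : ℕ) : ℂ) := by linear_combination -h
    rw [h2, Complex.norm_natCast] at hs
    push_cast at hs
    have : (0 : ℝ) ≤ j := Nat.cast_nonneg j
    have : (0 : ℝ) ≤ k := Nat.cast_nonneg k
    linarith)
  have e : m + (j + 1) = m + 1 + j := by ring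
  rw [e] at hV
  have hcs := cs_aux m (fun i => pq (b + 1 - 2 * s.re) i) (fun i => pq_pos hσ i)
    (fun i => pq (1 + s) (m - i)) (fun i => Vd s d m i)
    (fun i => 2 / (m * (1 + s)) + 1 / (((j + 1 + i : ℕ) : ℂ) - s))
  have hp := pq_pos hσ (m + 1 + j)
  rw [hV, norm_mul, mul_pow]
  have hc0 : 0 ≤ ((j : ℝ) + 1) * (pq (b + 1 - 2 * s.re) (m + 1 + j))⁻¹ * ‖pq (-s) (m + 1 + j)‖ ^ 2 := by
    positivity
  calc ((j : ℝ) + 1) * (pq (b + 1 - 2 * s.re) (m + 1 + j))⁻¹ * (‖pq (-s) (m + 1 + j)‖ ^ 2 *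
        ‖∑ i ∈ Finset.range m, ((m - i : ℕ) : ℂ) * pq (1 + s) (m - i) * Vd s d m i *
          (2 / (m * (1 + s)) + 1 / (((j + 1 + i : ℕ) : ℂ) - s))‖ ^ 2)
      = (((j : ℝ) + 1) * (pq (b + 1 - 2 * s.re) (m + 1 + j))⁻¹ * ‖pq (-s) (m + 1 + j)‖ ^ 2) *
        ‖∑ i ∈ Finset.range m, ((m - i : ℕ) : ℂ) * pq (1 + s) (m - i) * Vd s d m i *
          (2 / (m * (1 + s)) + 1 / (((j + 1 + i : ℕ) : ℂ) - s))‖ ^ 2 := by ring
    _ ≤ (((j : ℝ) + 1) * (pq (b + 1 - 2 * s.re) (m + 1 + j))⁻¹ * ‖pq (-s) (m + 1 + j)‖ ^ 2) *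
        ((∑ i ∈ Finset.range m, ((m - i : ℕ) : ℝ) * ‖pq (1 + s) (m - i)‖ ^ 2
          * pq (b + 1 - 2 * s.re) i * ‖2 / (m * (1 + s)) + 1 / (((j + 1 + i : ℕ) : ℂ) - s)‖ ^ 2)
        * ∑ i ∈ Finset.range m, ((m - i : ℕ) : ℝ) * (pq (b + 1 - 2 * s.re) i)⁻¹
          * ‖Vd s d m i‖ ^ 2) := mul_le_mul_of_nonneg_left hcs hc0
    _ = (∑ i ∈ Finset.range m, HSt s b m j i) * Pf s b d m := by
        have hHS : ∑ i ∈ Finset.range m, HSt s b m j i
            = (((j : ℝ) + 1) * (pq (b + 1 - 2 * s.re) (m + 1 + j))⁻¹ * ‖pq (-s) (m + 1 + j)‖ ^ 2)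
              * ∑ i ∈ Finset.range m, ((m - i : ℕ) : ℝ) * ‖pq (1 + s) (m - i)‖ ^ 2
          * pq (b + 1 - 2 * s.re) i * ‖2 / (m * (1 + s)) + 1 / (((j + 1 + i : ℕ) : ℂ) - s)‖ ^ 2 := by
          rw [Finset.mul_sum]
          apply Finset.sum_congr rfl
          intro i _
          unfold HSt
          ring
        unfold Pf
        rw [hHS]
        ring

/-- the lower part controls the sum of the palindrome -/
theorem cs_lower {s : ℂ} (hs : ‖s‖ < 1 / 2) {b : ℝ} (hb : 0 < b) {d : ℕ → ℂ} {m : ℕ} (hm : 1 ≤ m)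
    (hd : ∀ l ≤ m, d l = d (m - l)) :
    (m : ℝ) ^ 2 * ‖∑ l ∈ Finset.range (m + 1), d l‖ ^ 2
      ≤ 4 * Bc s.re (‖s‖ ^ 2) * pq (b + 3) (m - 1) * Pf s b d m := by
  have hre := Complex.abs_re_le_norm s
  have hre2 := abs_lt.mp (hre.trans_lt hs)
  have hσ : 0 < b + 1 - 2 * s.re := by linarith
  have h1s : 0 < ‖1 + s‖ ^ 2 := by
    have : (1 + s) ≠ 0 := by
      intro h
      have h2 : s = -1 := by linear_combination h
      rw [h2] at hs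
      simp at hs
      norm_num at hs
    have := norm_pos_iff.mpr this
    positivity
  have hg := g_formula s d m hd
  have hcs := cs_aux m (fun i => pq (b + 1 - 2 * s.re) i) (fun i => pq_pos hσ i)
    (fun i => pq (1 + s) (m - i)) (fun i => Vd s d m i) (fun _ => 1)
  simp only [mul_one, norm_one, one_pow] at hcs
  rw [← hg] at hcs
  have hsum : ∑ i ∈ Finset.range m, ((m - i : ℕ) : ℝ) * ‖pq (1 + s) (m - i)‖ ^ 2
      * pq (b + 1 - 2 * s.re) i ≤ ‖1 + s‖ ^ 2 * (Bc s.re (‖s‖ ^ 2) * pq (b + 3) (m - 1)) := by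
    have hterm : ∀ i ∈ Finset.range m, ((m - i : ℕ) : ℝ) * ‖pq (1 + s) (m - i)‖ ^ 2
      * pq (b + 1 - 2 * s.re) i ≤ ‖1 + s‖ ^ 2 * Bc s.re (‖s‖ ^ 2) * Wt b s.re m i := by
      intro i hi
      rw [Finset.mem_range] at hi
      have h1 := norm_Q s (by linarith : -1 < s.re) (m - 1 - i)
      have e1 : m - 1 - i + 1 = m - i := by omega
      have e2 : ((m - 1 - i : ℕ) : ℝ) + 1 = ((m - i : ℕ) : ℝ) := by exact_mod_cast e1
      rw [e1, e2] at h1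
      rw [h1]
      unfold Wt
      have hr4 : 4 * s.re ^ 2 ≤ 1 := by nlinarith [hre2.1, hre2.2]
      have h2 := kap_prod' hr4 (sq_nonneg ‖s‖) (m - 1 - i) 0
      rw [kap_zero, mul_one] at h2
      have p1 := pq_pos (by linarith : 0 < 2 + 2 * s.re) (m - 1 - i)
      have p2 := pq_pos hσ i
      calc ‖1 + s‖ ^ 2 * kap s.re (‖s‖ ^ 2) (m - 1 - i) * pq (2 + 2 * s.re) (m - 1 - i)
            * pq (b + 1 - 2 * s.re) i
          ≤ ‖1 + s‖ ^ 2 * Bc s.re (‖s‖ ^ 2) * pq (2 + 2 * s.re) (m - 1 - i)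
            * pq (b + 1 - 2 * s.re) i := by gcongr
        _ = _ := by ring
    refine (Finset.sum_le_sum hterm).trans (le_of_eq ?_)
    rw [← Finset.mul_sum, sum_Wt hm]
    ring
  have hP := Pf_nonneg hσ d m
  have h3 : ‖(1 + s) * (m * ∑ l ∈ Finset.range (m + 1), d l) / 2‖ ^ 2
      = ‖1 + s‖ ^ 2 * ((m : ℝ) ^ 2 * ‖∑ l ∈ Finset.range (m + 1), d l‖ ^ 2 / 4) := by
    rw [norm_div, norm_mul, norm_mul, Complex.norm_natCast, Complex.norm_two]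
    ring
  rw [h3] at hcs
  have h4 := hcs.trans (mul_le_mul_of_nonneg_right hsum hP)
  rw [mul_assoc (‖1 + s‖ ^ 2)] at h4
  have h5 := le_of_mul_le_mul_left h4 h1s
  unfold Pf
  linarith

end Pool.Agent.Helper22.Half
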