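import Mathlib
import Pool.Agent.Helper22.Half.Core
import Pool.Agent.Helper22.Half.CloseA

/-!
Finite double sums and the closing argument.
-/

set_option autoImplicit false

namespace Pool.Agent.Helper22.Half

/-- recursive constants -/
noncomputable def Kc (C0 C1 : ℝ) : ℕ → ℝ
  | 0 => 0
  | n + 1 => C0 + C1 * Kc C0 C1 n

theorem Kc_nonneg {C0 C1 : ℝ} (h0 : 0 ≤ C0) (h1 : 0 ≤ C1) (n : ℕ) : 0 ≤ Kc C0 C1 n := by
  induction n with
  | zero => exact le_rfl
  | succ n ih =>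
    show 0 ≤ C0 + C1 * Kc C0 C1 n
    positivity

theorem closure_abs {P : ℕ → ℝ} {N : ℕ → ℕ → ℝ} {C0 C1 η : ℝ} (hP0 : ∀ m, 0 ≤ P m)
    (hC0 : 0 ≤ C0) (hC1 : 0 ≤ C1) (hη : 0 < η) (hη1 : η ≤ 1)
    (h : ∀ I, ∑ m ∈ Finset.range I, P m ≤ ∑ m ∈ Finset.range I, N m I)
    (hN0 : ∀ I, N 0 I ≤ C0) (hN1 : ∀ m, 1 ≤ m → ∀ I, N m I ≤ C1 * P m)
    (hlast : ∀ m, N m (m + 1) ≤ 0) {m0 : ℕ}
    (hN2 : ∀ m, 1 ≤ m → m0 ≤ m → ∀ I, N m I ≤ (1 - η) * P m) (I : ℕ) :
    ∑ m ∈ Finset.range I, P m ≤ (C0 + C1 * Kc C0 C1 m0) / η := by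
  -- first bound
  have hb : ∀ m I, N m I ≤ (if m = 0 then C0 else 0) + C1 * P m := by
    intro m I
    split_ifs with h0
    · subst h0
      have := hN0 I
      have := hP0 0
      have : 0 ≤ C1 * P 0 := by positivity
      linarith
    · have := hN1 m (by omega) I
      linarith
  have hite : ∀ I : ℕ, ∑ m ∈ Finset.range I, (if m = 0 then C0 else 0) ≤ C0 := by
    intro I
    cases I with
    | zero => simpa using hC0
    | succ I =>
      rw [Finset.sum_range_succ']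
      simp
  have hfirst : ∀ I, ∑ m ∈ Finset.range I, P m ≤ Kc C0 C1 I := by
    intro I
    induction I with
    | zero => simp [Kc]
    | succ I ih =>
      have h1 := h (I + 1)
      rw [Finset.sum_range_succ (fun m => N m (I + 1))] at h1
      have h2 := hlast I
      have h3 : ∑ m ∈ Finset.range I, N m (I + 1)
          ≤ ∑ m ∈ Finset.range I, ((if m = 0 then C0 else 0) + C1 * P m) :=
        Finset.sum_le_sum (fun m _ => hb m (I + 1))
      rw [Finset.sum_add_distrib, ← Finset.mul_sum] at h3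
      have h4 := hite I
      show ∑ m ∈ Finset.range (I + 1), P m ≤ C0 + C1 * Kc C0 C1 I
      have h5 : C1 * ∑ m ∈ Finset.range I, P m ≤ C1 * Kc C0 C1 I := by gcongr
      linarith
  have hsmall : ∀ I, ∑ m ∈ Finset.range I, (if m < m0 then P m else 0) ≤ Kc C0 C1 m0 := by
    intro I
    rw [← Finset.sum_filter]
    refine le_trans ?_ (hfirst m0)
    apply Finset.sum_le_sum_of_subset_of_nonneg
    · intro m hm
      rw [Finset.mem_filter] at hm
      exact Finset.mem_range.mpr hm.2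
    · intro m _ _
      exact hP0 m
  have h1 := h I
  have h2 : ∑ m ∈ Finset.range I, N m I ≤ ∑ m ∈ Finset.range I,
      ((if m = 0 then C0 else 0) + C1 * (if m < m0 then P m else 0) + (1 - η) * P m) := by
    apply Finset.sum_le_sum
    intro m _
    have hP := hP0 m
    have h3 : 0 ≤ (1 - η) * P m := mul_nonneg (by linarith) hP
    by_cases hm : m < m0
    · rw [if_pos hm]
      have := hb m I
      linarith
    · rw [if_neg hm]
      by_cases h0 : m = 0
      · subst h0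
        have := hN0 I
        simp only [if_true]
        linarith
      · rw [if_neg h0]
        have := hN2 m (by omega) (by omega) I
        linarith
  rw [Finset.sum_add_distrib, Finset.sum_add_distrib, ← Finset.mul_sum, ← Finset.mul_sum] at h2
  have h4 := hite I
  have h5 : C1 * ∑ m ∈ Finset.range I, (if m < m0 then P m else 0) ≤ C1 * Kc C0 C1 m0 := by
    have := hsmall I
    gcongr
  rw [le_div_iff₀ hη]
  nlinarith

/-- the upper part of a constant -/
theorem N_zero_le {s : ℂ} (hs : ‖s‖ < 1 / 2) {b : ℝ} (hb : 0 < b) (hsb : ‖s‖ ^ 2 ≤ b) {d : ℕ → ℂ}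
    (hd0 : d 0 = 1) {C1 : ℝ} (hC : ∀ J, ∑ j ∈ Finset.range J, ∑ i ∈ Finset.range 1, HSt s b 1 j i ≤ C1)
    (J : ℕ) :
    ∑ j ∈ Finset.range J, ((j : ℝ) + 1) * (pq (b + 1 - 2 * s.re) (0 + 1 + j))⁻¹
        * ‖Vd s d 0 (0 + 1 + j)‖ ^ 2 ≤ 1 + C1 := by
  have hre := Complex.abs_re_le_norm s
  have hre2 := abs_lt.mp (hre.trans_lt hs)
  have hσ : 0 < b + 1 - 2 * s.re := by linarith
  have hn0 := norm_nonneg s
  have hρ1 : ‖s‖ ^ 2 ≤ 1 / 4 := by nlinarith
  have h5 : s.re ^ 2 ≤ ‖s‖ ^ 2 := sq_le_sq' (by linarith [neg_abs_le s.re]) ((le_abs_self s.re).trans hre)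
  have hσ4 : 1 / 4 ≤ b + 1 - 2 * s.re := by nlinarith [sq_nonneg (1 / 2 - s.re)]
  have h1s : (1 + s) ≠ 0 := by
    intro h
    have h2 : s = -1 := by linear_combination h
    rw [h2] at hs
    simp at hs
    norm_num at hs
  have hV : ∀ i, Vd s d 0 i = pq (-s) i := by
    intro i
    unfold Vd
    simp [hd0]
  have hC0 : 0 ≤ C1 := by
    have := hC 0
    simpa using this
  -- the terms with index at least two
  have hterm : ∀ j : ℕ, ((j : ℝ) + 1 + 1) * (pq (b + 1 - 2 * s.re) (1 + 1 + j))⁻¹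
      * ‖pq (-s) (1 + 1 + j)‖ ^ 2 ≤ HSt s b 1 j 0 := by
    intro j
    unfold HSt
    have e1 : pq (1 + s) (1 - 0) = 1 + s := by simp [pq]
    rw [e1, pq_zero]
    have hp := pq_pos hσ (1 + 1 + j)
    have hjs : (((j + 1 + 0 : ℕ) : ℂ) - s) ≠ 0 := by
      intro h
      have h2 : s = ((j + 1 + 0 : ℕ) : ℂ) := by linear_combination -h
      rw [h2, Complex.norm_natCast] at hs
      push_cast at hs
      have : (0 : ℝ) ≤ j := Nat.cast_nonneg j
      linarith
    have hZ : 2 ≤ ‖1 + s‖ ^ 2 * ‖2 / (((1 : ℕ) : ℂ) * (1 + s)) + 1 / (((j + 1 + 0 : ℕ) : ℂ) - s)‖ ^ 2 := by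
      have e2 : ‖1 + s‖ ^ 2 * ‖2 / (((1 : ℕ) : ℂ) * (1 + s)) + 1 / (((j + 1 + 0 : ℕ) : ℂ) - s)‖ ^ 2
          = ‖2 + (1 + s) / (((j + 1 + 0 : ℕ) : ℂ) - s)‖ ^ 2 := by
        rw [← mul_pow, ← norm_mul]
        congr 2
        push_cast
        push_cast at hjs
        field_simp
      rw [e2]
      have hpos : 0 ≤ ((1 + s) / (((j + 1 + 0 : ℕ) : ℂ) - s)).re := by
        rw [Complex.div_re]
        have hj0 : (0 : ℝ) ≤ j := Nat.cast_nonneg j
        have hnum : 0 ≤ (1 + s).re * (((j + 1 + 0 : ℕ) : ℂ) - s).re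
            + (1 + s).im * (((j + 1 + 0 : ℕ) : ℂ) - s).im := by
          have hns : ‖s‖ ^ 2 = s.re ^ 2 + s.im ^ 2 := by
            rw [← Complex.normSq_eq_norm_sq, Complex.normSq_apply]; ring
          simp only [Complex.add_re, Complex.one_re, Complex.sub_re, Complex.natCast_re,
            Complex.add_im, Complex.one_im, Complex.sub_im, Complex.natCast_im]
          push_cast
          nlinarith
        have hns0 : 0 ≤ Complex.normSq (((j + 1 + 0 : ℕ) : ℂ) - s) := Complex.normSq_nonneg _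
        rw [← add_div]
        exact div_nonneg hnum hns0
      have h6 : 2 ≤ ‖2 + (1 + s) / (((j + 1 + 0 : ℕ) : ℂ) - s)‖ := by
        refine le_trans ?_ (Complex.re_le_norm _)
        rw [Complex.add_re]
        simp only [Complex.re_ofNat]
        linarith
      nlinarith
    have hj0 : (0 : ℝ) ≤ j := Nat.cast_nonneg j
    have hA : 0 ≤ (pq (b + 1 - 2 * s.re) (1 + 1 + j))⁻¹ * ‖pq (-s) (1 + 1 + j)‖ ^ 2 := by positivity
    calc ((j : ℝ) + 1 + 1) * (pq (b + 1 - 2 * s.re) (1 + 1 + j))⁻¹ * ‖pq (-s) (1 + 1 + j)‖ ^ 2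
        ≤ (((j : ℝ) + 1) * 2) * ((pq (b + 1 - 2 * s.re) (1 + 1 + j))⁻¹ * ‖pq (-s) (1 + 1 + j)‖ ^ 2) := by
          rw [mul_assoc]
          apply mul_le_mul_of_nonneg_right _ hA
          linarith
      _ ≤ (((j : ℝ) + 1) * (‖1 + s‖ ^ 2 * ‖2 / (((1 : ℕ) : ℂ) * (1 + s))
          + 1 / (((j + 1 + 0 : ℕ) : ℂ) - s)‖ ^ 2))
          * ((pq (b + 1 - 2 * s.re) (1 + 1 + j))⁻¹ * ‖pq (-s) (1 + 1 + j)‖ ^ 2) := by gcongr
      _ = _ := by
          push_cast
          ring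
  cases J with
  | zero => simpa using by linarith
  | succ J =>
    rw [Finset.sum_range_succ']
    have h0 : (((0 : ℕ) : ℝ) + 1) * (pq (b + 1 - 2 * s.re) (0 + 1 + 0))⁻¹
        * ‖Vd s d 0 (0 + 1 + 0)‖ ^ 2 ≤ 1 := by
      rw [hV]
      have e1 : pq (-s) (0 + 1 + 0) = -s := by simp [pq]
      have e2 : pq (b + 1 - 2 * s.re) (0 + 1 + 0) = b + 1 - 2 * s.re := by simp [pq]
      rw [e1, e2, norm_neg]
      simp only [Nat.cast_zero, zero_add, one_mul]
      rw [inv_mul_le_iff₀ hσ]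
      linarith
    have h1 : ∑ k ∈ Finset.range J, (((k + 1 : ℕ) : ℝ) + 1)
        * (pq (b + 1 - 2 * s.re) (0 + 1 + (k + 1)))⁻¹ * ‖Vd s d 0 (0 + 1 + (k + 1))‖ ^ 2
        ≤ ∑ j ∈ Finset.range J, ∑ i ∈ Finset.range 1, HSt s b 1 j i := by
      apply Finset.sum_le_sum
      intro j _
      rw [hV, Finset.range_one, Finset.sum_singleton]
      have e1 : 0 + 1 + (j + 1) = 1 + 1 + j := by ring
      rw [e1]
      have := hterm j
      push_cast
      exact this
    have h2 := hC J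
    linarith

end Pool.Agent.Helper22.Half
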