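import Mathlib
import Pool.Agent.Helper22.Half.GrowthA
import Pool.Agent.Helper22.Half.Close
import Pool.Agent.Helper22.Marshall.ClassIneq

/-!
Growth of the power means of the derivative.
-/

set_option autoImplicit false

open MeasureTheory Set Metric Filter Topology
open scoped ENNReal NNReal Real Nat ComplexConjugate

namespace Pool.Agent.Helper22.Half

open Pool.Agent.Helper39.Area (Ext phi)
open Pool.Agent.Helper22.Marshall (coeff SepHol LogPhi dcoeff GLe coeff_congr)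

/-- the admissible parameters -/
structure Adm (k η : ℝ) (s : ℂ) (b : ℝ) : Prop where
  s_lt : ‖s‖ < 1 / 2
  b_pos : 0 < b
  b_le : b ≤ 1 / 2
  s_le : ‖s‖ ^ 2 ≤ b
  main : k ^ 2 * (2 * ‖s‖ ^ 2 / b * (pref b s.re (‖s‖ ^ 2) * Brk b s.re (‖s‖ ^ 2))) ≤ 1 - 2 * η

/-- the sum of the lower forms is bounded uniformly -/
theorem sum_Pf_le {η : ℝ} (hη : 0 < η) (hη1 : η ≤ 1) : ∃ C : ℝ, 0 ≤ C ∧ ∀ k : ℝ, 0 ≤ k → k ≤ 1 →
    ∀ (β H : ℂ → ℂ) (Φ : ℂ → ℂ → ℂ), GLe β k → Ext β → LogPhi β H Φ →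
    ∀ (s : ℂ) (b : ℝ), Adm k η s b → ∀ I : ℕ,
    ∑ m ∈ Finset.range I, Pf s b (diagc (EE Φ s) m) m ≤ C := by
  obtain ⟨m0, hm0, hev⟩ := HS_eventually (ε := η / 2) (by linarith)
  obtain ⟨C1, hC1, hcr⟩ := HS_crude
  refine ⟨((1 + C1) + C1 * Kc (1 + C1) C1 m0) / η, ?_, ?_⟩
  · have := Kc_nonneg (C0 := 1 + C1) (C1 := C1) (by linarith) hC1 m0
    positivity
  intro k hk0 hk1 β H Φ hG hE hΦ s b hA I
  have hre := Complex.abs_re_le_norm s
  have hre2 := abs_lt.mp (hre.trans_lt hA.s_lt)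
  have hb := hA.b_pos
  have hσ : 0 < b + 1 - 2 * s.re := by linarith
  have hk2 : k ^ 2 ≤ 1 := by nlinarith
  have hk20 : 0 ≤ k ^ 2 := sq_nonneg k
  -- the upper sums
  obtain ⟨U, hU⟩ : ∃ U : ℕ → ℕ → ℝ, U = fun m I => ∑ j ∈ Finset.range (I - (m + 1)),
      ((j : ℝ) + 1) * (pq (b + 1 - 2 * s.re) (m + 1 + j))⁻¹
        * ‖Vd s (diagc (EE Φ s) m) m (m + 1 + j)‖ ^ 2 := ⟨_, rfl⟩
  apply closure_abs (N := fun m I => k ^ 2 * U m I) (fun m => Pf_nonneg hσ _ m) (by linarith) hC1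
    hη hη1
  · -- the double sum
    intro I
    have h1 := double_fin (S := fun m i => ‖Vd s (diagc (EE Φ s) m) m i‖ ^ 2)
      (lam := fun i => (pq (b + 1 - 2 * s.re) i)⁻¹) (κ := k ^ 2)
      (fun i => (inv_pos.mpr (pq_pos hσ i)).le) (fun i M => area_V hG hE hΦ s i M) I
    rw [← Finset.mul_sum]
    have e1 : ∑ m ∈ Finset.range I, ∑ i ∈ Finset.range I, ((m - i : ℕ) : ℝ)
        * (pq (b + 1 - 2 * s.re) i)⁻¹ * ‖Vd s (diagc (EE Φ s) m) m i‖ ^ 2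
        = ∑ m ∈ Finset.range I, Pf s b (diagc (EE Φ s) m) m := by
      apply Finset.sum_congr rfl
      intro m hm
      exact lower_eq _ (Finset.mem_range.mp hm)
    have e2 : ∑ m ∈ Finset.range I, ∑ i ∈ Finset.range I, ((i - m : ℕ) : ℝ)
        * (pq (b + 1 - 2 * s.re) i)⁻¹ * ‖Vd s (diagc (EE Φ s) m) m i‖ ^ 2
        = ∑ m ∈ Finset.range I, U m I := by
      apply Finset.sum_congr rfl
      intro m _
      have h3 := upper_eq (fun i => (pq (b + 1 - 2 * s.re) i)⁻¹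
        * ‖Vd s (diagc (EE Φ s) m) m i‖ ^ 2) m I
      rw [hU]
      simp only [← mul_assoc] at h3 ⊢
      exact h3
    rw [e1, e2] at h1
    exact h1
  · -- m = 0
    intro I
    have h1 := N_zero_le hA.s_lt hb hA.s_le (EE_zero hΦ s) (C1 := C1)
      (fun J => hcr 1 le_rfl J s hA.s_lt b hb hA.b_le hA.s_le) (I - (0 + 1))
    have h2 : U 0 I ≤ 1 + C1 := by rw [hU]; exact h1
    have h3 : 0 ≤ U 0 I := by
      rw [hU]
      apply Finset.sum_nonneg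
      intro j _
      have := pq_pos hσ (0 + 1 + j)
      positivity
    nlinarith
  · -- m ≥ 1
    intro m hm I
    have h1 := cs_upper hA.s_lt hb hm (EE_symm hΦ s m) (I - (m + 1))
    have h2 := hcr m hm (I - (m + 1)) s hA.s_lt b hb hA.b_le hA.s_le
    have hP := Pf_nonneg hσ (diagc (EE Φ s) m) m
    have h3 : U m I ≤ C1 * Pf s b (diagc (EE Φ s) m) m := by
      rw [hU]
      exact h1.trans (mul_le_mul_of_nonneg_right h2 hP)
    have h4 : 0 ≤ C1 * Pf s b (diagc (EE Φ s) m) m := by positivity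
    calc k ^ 2 * U m I ≤ k ^ 2 * (C1 * Pf s b (diagc (EE Φ s) m) m) := by gcongr
      _ ≤ 1 * (C1 * Pf s b (diagc (EE Φ s) m) m) := by gcongr
      _ = _ := one_mul _
  · intro m
    have : U m (m + 1) = 0 := by
      rw [hU]
      simp
    simp only [this, mul_zero, le_refl]
  · intro m hm hmm I
    have h1 := cs_upper hA.s_lt hb hm (EE_symm hΦ s m) (I - (m + 1))
    have h2 := hev m hmm (I - (m + 1)) s hA.s_lt b hb hA.b_le hA.s_le
    have hP := Pf_nonneg hσ (diagc (EE Φ s) m) m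
    have h3 : U m I ≤ (2 * ‖s‖ ^ 2 / b * (pref b s.re (‖s‖ ^ 2) * Brk b s.re (‖s‖ ^ 2) + η / 2))
        * Pf s b (diagc (EE Φ s) m) m := by
      rw [hU]
      exact h1.trans (mul_le_mul_of_nonneg_right h2 hP)
    have hq : 2 * ‖s‖ ^ 2 / b ≤ 2 := by
      rw [div_le_iff₀ hb]
      have := hA.s_le
      linarith
    have hq0 : 0 ≤ 2 * ‖s‖ ^ 2 / b := by positivity
    have h5 : k ^ 2 * (2 * ‖s‖ ^ 2 / b * (pref b s.re (‖s‖ ^ 2) * Brk b s.re (‖s‖ ^ 2) + η / 2))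
        ≤ 1 - η := by
      have h6 := hA.main
      have h7 : k ^ 2 * (2 * ‖s‖ ^ 2 / b * (η / 2)) ≤ η := by
        calc k ^ 2 * (2 * ‖s‖ ^ 2 / b * (η / 2)) ≤ 1 * (2 * (η / 2)) := by gcongr
          _ = η := by ring
      have h8 : k ^ 2 * (2 * ‖s‖ ^ 2 / b * (pref b s.re (‖s‖ ^ 2) * Brk b s.re (‖s‖ ^ 2) + η / 2))
          = k ^ 2 * (2 * ‖s‖ ^ 2 / b * (pref b s.re (‖s‖ ^ 2) * Brk b s.re (‖s‖ ^ 2)))
            + k ^ 2 * (2 * ‖s‖ ^ 2 / b * (η / 2)) := by ring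
      linarith
    calc k ^ 2 * U m I ≤ k ^ 2 * ((2 * ‖s‖ ^ 2 / b * (pref b s.re (‖s‖ ^ 2)
          * Brk b s.re (‖s‖ ^ 2) + η / 2)) * Pf s b (diagc (EE Φ s) m) m) := by gcongr
      _ = (k ^ 2 * (2 * ‖s‖ ^ 2 / b * (pref b s.re (‖s‖ ^ 2)
          * Brk b s.re (‖s‖ ^ 2) + η / 2))) * Pf s b (diagc (EE Φ s) m) m := by ring
      _ ≤ (1 - η) * Pf s b (diagc (EE Φ s) m) m := by gcongr

end Pool.Agent.Helper22.Half
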