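import Mathlib
import Pool.Agent.Helper22.Half.Growth
import Pool.Agent.Helper22.Half.MeanA

/-!
Bounds for the exponential means.
-/

set_option autoImplicit false

open MeasureTheory Set Metric Filter Topology
open scoped ENNReal NNReal Real Nat ComplexConjugate

namespace Pool.Agent.Helper22.Half

open Pool.Agent.Helper39.Area (Ext phi)
open Pool.Agent.Helper22.Marshall (coeff SepHol LogPhi dcoeff GLe coeff_congr parseval_comb)

theorem pq_three_shift {b : ℝ} (hb : 0 < b) {m : ℕ} (hm : 1 ≤ m) :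
    pq (b + 3) (m - 1) ≤ m ^ 2 * pq (b + 1) m := by
  obtain ⟨n, rfl⟩ : ∃ n, m = n + 1 := ⟨m - 1, by omega⟩
  rw [Nat.add_sub_cancel]
  have h1 := pq_shift (b + 1) n
  have h2 := pq_add_one (b + 2) n
  have e1 : b + 1 + 1 = b + 2 := by ring
  have e2 : b + 2 + 1 = b + 3 := by ring
  rw [e1] at h1
  rw [e2] at h2
  have p1 := pq_pos (by linarith : 0 < b + 3) n
  have p2 := pq_pos (by linarith : 0 < b + 2) n
  have p3 := pq_pos (by linarith : 0 < b + 1) (n + 1)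
  have hn : (0 : ℝ) ≤ n := Nat.cast_nonneg n
  push_cast
  -- (b+1)(b+2) pq (b+3) n = (n+1)(b+2+n) pq (b+1) (n+1)
  have h3 : (b + 1) * (b + 2) * pq (b + 3) n = ((n : ℝ) + 1) * (b + 2 + n) * pq (b + 1) (n + 1) := by
    linear_combination (b + 1) * h2 - (b + 2 + n) * h1
  have h4 : (b + 1) * (b + 2) * pq (b + 3) n ≤ (b + 1) * (b + 2) * (((n : ℝ) + 1) ^ 2 * pq (b + 1) (n + 1)) := by
    rw [h3]
    have h5 : (b + 2 + n) ≤ (b + 1) * (b + 2) * ((n : ℝ) + 1) := by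
      have : (b + 2 + n) ≤ (b + 2) * ((n : ℝ) + 1) := by nlinarith
      have : (b + 2) * ((n : ℝ) + 1) ≤ (b + 1) * ((b + 2) * ((n : ℝ) + 1)) := by
        have : 0 ≤ (b + 2) * ((n : ℝ) + 1) := by positivity
        nlinarith
      linarith
    calc ((n : ℝ) + 1) * (b + 2 + n) * pq (b + 1) (n + 1)
        ≤ ((n : ℝ) + 1) * ((b + 1) * (b + 2) * ((n : ℝ) + 1)) * pq (b + 1) (n + 1) := by gcongr
      _ = _ := by ring
  exact le_of_mul_le_mul_left h4 (by positivity)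

theorem Bc_le {r ρ : ℝ} (hr : -(1 / 2) ≤ r) (hr1 : r ≤ 1 / 2) (hρ0 : 0 ≤ ρ) (hρ1 : ρ ≤ 1 / 4) :
    Bc r ρ ≤ 2 := by
  unfold Bc
  have a1 : ρ / (2 * (2 + 2 * r)) ≤ 1 / 8 := by
    rw [div_le_iff₀ (by linarith)]; linarith
  have a2 : ρ / (2 * (2 - 2 * r)) ≤ 1 / 8 := by
    rw [div_le_iff₀ (by linarith)]; linarith
  have a1' : 0 ≤ ρ / (2 * (2 + 2 * r)) := by apply div_nonneg hρ0; linarith
  have a2' : 0 ≤ ρ / (2 * (2 - 2 * r)) := by apply div_nonneg hρ0; linarith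
  have a3 : Real.exp (5 * ρ / 6) ≤ 32 / 25 := by
    refine (Real.exp_le_exp.mpr (by linarith : 5 * ρ / 6 ≤ 5 / 24)).trans ?_
    have h := Real.add_one_le_exp (-(5 / 24) : ℝ)
    have h2 : Real.exp (5 / 24) * Real.exp (-(5 / 24)) = 1 := by
      rw [← Real.exp_add, add_neg_cancel, Real.exp_zero]
    have h4 : Real.exp (5 / 24) * (19 / 24) ≤ 1 := by
      rw [← h2]
      apply mul_le_mul_of_nonneg_left _ (Real.exp_pos _).le
      linarith
    linarith
  have a4 := Real.exp_pos (5 * ρ / 6)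
  calc (1 + ρ / (2 * (2 + 2 * r))) * (1 + ρ / (2 * (2 - 2 * r))) * Real.exp (5 * ρ / 6)
      ≤ (1 + 1 / 8) * (1 + 1 / 8) * (32 / 25) := by gcongr
    _ ≤ 2 := by norm_num

/-- uniform bound of the exponential means -/
theorem mean_le {η : ℝ} (hη : 0 < η) (hη1 : η ≤ 1) : ∃ C : ℝ, 0 ≤ C ∧ ∀ k : ℝ, 0 ≤ k → k ≤ 1 →
    ∀ (β H : ℂ → ℂ) (Φ : ℂ → ℂ → ℂ), GLe β k → Ext β → LogPhi β H Φ →
    DifferentiableOn ℂ H (ball 0 1) →
    ∀ (s : ℂ) (b : ℝ), Adm k η s b → ∀ r : ℝ, 0 ≤ r → r < 1 →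
    ∫ θ in (-π)..π, ‖Complex.exp (s * H ((r : ℂ) * Complex.exp ((θ : ℂ) * Complex.I)))‖ ^ 2
      ≤ C * (1 - r ^ 2) ^ (-b) := by
  obtain ⟨C, hC, hsum⟩ := sum_Pf_le hη hη1
  refine ⟨2 * π * (1 + 8 * C), by positivity, ?_⟩
  intro k hk0 hk1 β H Φ hG hE hΦ hH s b hA r hr0 hr1
  have hre := Complex.abs_re_le_norm s
  have hre2 := abs_lt.mp (hre.trans_lt hA.s_lt)
  have hb := hA.b_pos
  have hσ : 0 < b + 1 - 2 * s.re := by linarith
  have hn0 := norm_nonneg s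
  have hs2 := hA.s_lt
  have hρ1 : ‖s‖ ^ 2 ≤ 1 / 4 := by nlinarith
  have hB := Bc_le (by linarith : -(1 / 2) ≤ s.re) (by linarith) (sq_nonneg ‖s‖) hρ1
  have hB0 : 0 ≤ Bc s.re (‖s‖ ^ 2) := by
    unfold Bc
    have b1 : 0 ≤ 2 + 2 * s.re := by linarith
    have b2 : 0 ≤ 2 - 2 * s.re := by linarith
    positivity
  obtain ⟨x, hx⟩ : ∃ x, x = r ^ 2 := ⟨_, rfl⟩
  have hx0 : 0 ≤ x := by rw [hx]; positivity
  have hx1 : x < 1 := by rw [hx]; nlinarith
  have hfd : DifferentiableOn ℂ (fun z => Complex.exp (s * H z)) (ball 0 1) := (hH.const_mul s).cexp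
  have hpar := parseval_comb hfd 0 1 hr0 hr1
  simp only [zero_mul, zero_add, one_mul] at hpar
  -- termwise
  have hone : 1 ≤ (1 - x) ^ (-b) := Real.one_le_rpow_of_pos_of_le_one_of_nonpos (by linarith)
    (by linarith) (by linarith)
  have hterm : ∀ m : ℕ, ‖coeff (fun z => Complex.exp (s * H z)) m‖ ^ 2 * r ^ (2 * m)
      ≤ (if m = 0 then 1 else 0) * (1 - x) ^ (-b)
        + 8 * Pf s b (diagc (EE Φ s) m) m * (1 - x) ^ (-b) := by
    intro m
    have hP := Pf_nonneg hσ (diagc (EE Φ s) m) m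
    by_cases hm : m = 0
    · subst hm
      rw [if_pos rfl]
      have hH0 : H 0 = 0 := by
        rw [← hΦ.diag 0 (mem_ball_self one_pos), hΦ.zero_right 0 (mem_ball_self one_pos)]
      have e : ‖coeff (fun z => Complex.exp (s * H z)) 0‖ ^ 2 * r ^ (2 * 0) = 1 := by
        rw [Pool.Agent.Helper22.Marshall.coeff_zero, hH0]
        simp
      rw [e]
      have : 0 ≤ 8 * Pf s b (diagc (EE Φ s) 0) 0 * (1 - x) ^ (-b) := by positivity
      linarith
    · rw [if_neg hm, zero_mul, zero_add]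
      have hm1 : 1 ≤ m := by omega
      have hm' : (0 : ℝ) < m := by exact_mod_cast (by omega : 0 < m)
      have h1 := cs_lower hA.s_lt hb hm1 (EE_symm hΦ s m)
      rw [EE_diag hΦ s m] at h1
      have h2 := pq_three_shift hb hm1
      have p1 := pq_pos (by linarith : 0 < b + 1) m
      have p2 := pq_pos (by linarith : 0 < b + 3) (m - 1)
      have h3 : (m : ℝ) ^ 2 * ‖coeff (fun z => Complex.exp (s * H z)) m‖ ^ 2
          ≤ (m : ℝ) ^ 2 * (8 * Pf s b (diagc (EE Φ s) m) m * pq (b + 1) m) := by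
        refine h1.trans ?_
        calc 4 * Bc s.re (‖s‖ ^ 2) * pq (b + 3) (m - 1) * Pf s b (diagc (EE Φ s) m) m
            ≤ 4 * 2 * (m ^ 2 * pq (b + 1) m) * Pf s b (diagc (EE Φ s) m) m := by gcongr
          _ = _ := by ring
      have h4 := le_of_mul_le_mul_left h3 (by positivity)
      have h5 := pow_mul_pq_le hb.le hx0 hx1 m
      have h6 : r ^ (2 * m) = x ^ m := by rw [hx, ← pow_mul]
      rw [h6]
      calc ‖coeff (fun z => Complex.exp (s * H z)) m‖ ^ 2 * x ^ m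
          ≤ (8 * Pf s b (diagc (EE Φ s) m) m * pq (b + 1) m) * x ^ m := by gcongr
        _ = 8 * Pf s b (diagc (EE Φ s) m) m * (x ^ m * pq (b + 1) m) := by ring
        _ ≤ 8 * Pf s b (diagc (EE Φ s) m) m * (1 - x) ^ (-b) := by gcongr
  have hpos : 0 < (1 - x) ^ (-b) := by linarith
  have hsumle : (1 / (2 * π)) * ∫ θ in (-π)..π,
      ‖Complex.exp (s * H ((r : ℂ) * Complex.exp ((θ : ℂ) * Complex.I)))‖ ^ 2
      ≤ (1 + 8 * C) * (1 - x) ^ (-b) := by
    refine hasSum_le_of_sum_le hpar (fun F => ?_)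
    obtain ⟨M, hM⟩ : ∃ M, F ⊆ Finset.range M := F.exists_nat_subset_range
    have hnn : ∀ m : ℕ, 0 ≤ ‖coeff (fun z => Complex.exp (s * H z)) m‖ ^ 2 * r ^ (2 * m) := by
      intro m; positivity
    calc ∑ m ∈ F, ‖coeff (fun z => Complex.exp (s * H z)) m‖ ^ 2 * r ^ (2 * m)
        ≤ ∑ m ∈ Finset.range M, ‖coeff (fun z => Complex.exp (s * H z)) m‖ ^ 2 * r ^ (2 * m) :=
          Finset.sum_le_sum_of_subset_of_nonneg hM (fun m _ _ => hnn m)
      _ ≤ ∑ m ∈ Finset.range M, ((if m = 0 then 1 else 0) * (1 - x) ^ (-b)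
        + 8 * Pf s b (diagc (EE Φ s) m) m * (1 - x) ^ (-b)) :=
          Finset.sum_le_sum (fun m _ => hterm m)
      _ = (∑ m ∈ Finset.range M, (if m = 0 then (1 : ℝ) else 0)) * (1 - x) ^ (-b)
        + 8 * (∑ m ∈ Finset.range M, Pf s b (diagc (EE Φ s) m) m) * (1 - x) ^ (-b) := by
          rw [Finset.sum_add_distrib, ← Finset.sum_mul, ← Finset.sum_mul, ← Finset.mul_sum]
      _ ≤ 1 * (1 - x) ^ (-b) + 8 * C * (1 - x) ^ (-b) := by
          have h7 : ∑ m ∈ Finset.range M, (if m = 0 then (1 : ℝ) else 0) ≤ 1 := by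
            cases M with
            | zero => simp
            | succ M =>
              rw [Finset.sum_range_succ']
              simp
          have h8 := hsum k hk0 hk1 β H Φ hG hE hΦ s b hA M
          gcongr
      _ = _ := by ring
  have hpi := Real.pi_pos
  have h9 := mul_le_mul_of_nonneg_left hsumle (by positivity : 0 ≤ 2 * π)
  rw [← mul_assoc, mul_one_div_cancel (by positivity), one_mul] at h9
  rw [← hx]
  linarith

end Pool.Agent.Helper22.Half
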