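import Mathlib
import Pool.Agent.Helper22.Half.Mean
import Pool.Agent.Helper22.Marshall.Gauss
import Pool.Agent.Helper39.Area.Exterior

/-!
Exponential square integrability.
-/

set_option autoImplicit false

open MeasureTheory Set Metric Filter Topology
open scoped ENNReal NNReal Real ComplexConjugate

namespace Pool.Agent.Helper22.Half

open Pool.Agent.Helper39.Area (Ext phi toDisc)
open Pool.Agent.Helper22.Marshall (SepHol LogPhi GLe exists_logPhi gLe_one gauss_average)

theorem exp_inner (v w : ℂ) : Real.exp (inner ℝ v w) = ‖Complex.exp (conj v / 2 * w)‖ ^ 2 := by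
  rw [Complex.norm_exp, ← Real.exp_nat_mul]
  congr 1
  rw [Complex.inner]
  have : conj v / 2 * w = ((1 / 2 : ℝ) : ℂ) * (conj v * w) := by push_cast; ring
  rw [this, Complex.re_ofReal_mul]
  push_cast
  ring_nf

theorem gauss_final {k a a' δ η : ℝ} (hk0 : 0 < k) (hk1 : k ≤ 1) (ha : 0 < a) (haa : a < a')
    (hδ : 0 < δ) (hη : 0 < η) (hη1 : η ≤ 1)
    (hadm : ∀ v : ℂ, v ≠ 0 → ‖v‖ ≤ 2 * a * k + δ → Adm k η (conj v / 2) (‖v‖ ^ 2 / (4 * a'))) :
    ∃ C : ℝ, 0 ≤ C ∧ ∀ (β H : ℂ → ℂ) (Φ : ℂ → ℂ → ℂ), GLe β k → Ext β → LogPhi β H Φ →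
    DifferentiableOn ℂ H (ball 0 1) →
    (∀ ζ ∈ ball (0 : ℂ) 1, ‖H ζ‖ ≤ k * Real.log (1 / (1 - ‖ζ‖ ^ 2))) →
    ∀ r : ℝ, 0 < r → r < 1 →
    ∫ θ in (-π)..π, Real.exp (a * ‖H ((r : ℂ) * Complex.exp ((θ : ℂ) * Complex.I))‖ ^ 2
      / Real.log (1 / (1 - r ^ 2))) ≤ C := by
  obtain ⟨C, hC, hmean⟩ := mean_le hη hη1
  have ha' : 0 < a' := ha.trans haa
  have hrat : 0 < 1 - a / a' := by
    have : a / a' < 1 := (div_lt_one ha').mpr haa
    linarith
  obtain ⟨L0, hL0⟩ : ∃ L0, L0 = 8 * a * Real.log 4 / δ ^ 2 := ⟨_, rfl⟩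
  have hpi := Real.pi_pos
  refine ⟨2 * π * Real.exp (a * L0) + 2 * (C + 2 * π) / (1 - a / a'), by positivity, ?_⟩
  intro β H Φ hG hE hΦ hH hHb r hr0 hr1
  obtain ⟨L, hL⟩ : ∃ L, L = Real.log (1 / (1 - r ^ 2)) := ⟨_, rfl⟩
  rw [← hL]
  have hx : 0 < 1 - r ^ 2 := by nlinarith
  have hLpos : 0 < L := by
    rw [hL]
    apply Real.log_pos
    rw [one_lt_div hx]
    have : 0 < r ^ 2 := by positivity
    linarith
  have hnorm : ∀ θ : ℝ, ‖(r : ℂ) * Complex.exp ((θ : ℂ) * Complex.I)‖ = r := by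
    intro θ
    rw [norm_mul, Complex.norm_exp_ofReal_mul_I, mul_one, Complex.norm_real,
      Real.norm_of_nonneg hr0.le]
  have hmem : ∀ θ : ℝ, (r : ℂ) * Complex.exp ((θ : ℂ) * Complex.I) ∈ ball (0 : ℂ) 1 := by
    intro θ
    rw [mem_ball_zero_iff, hnorm]; exact hr1
  have hf : Continuous (fun θ : ℝ => H ((r : ℂ) * Complex.exp ((θ : ℂ) * Complex.I))) :=
    hH.continuousOn.comp_continuous (by fun_prop) hmem
  have hfb : ∀ θ : ℝ, ‖H ((r : ℂ) * Complex.exp ((θ : ℂ) * Complex.I))‖ ≤ k * L := by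
    intro θ
    have := hHb _ (hmem θ)
    rw [hnorm, ← hL] at this
    exact this
  have hA1 : 0 ≤ 2 * π * Real.exp (a * L0) := by positivity
  have hA2 : 0 ≤ 2 * (C + 2 * π) / (1 - a / a') := by positivity
  rcases le_total L L0 with hcase | hcase
  · -- small L
    have h1 : ∀ θ : ℝ, Real.exp (a * ‖H ((r : ℂ) * Complex.exp ((θ : ℂ) * Complex.I))‖ ^ 2 / L)
        ≤ Real.exp (a * L0) := by
      intro θ
      apply Real.exp_le_exp.mpr
      rw [div_le_iff₀ hLpos]
      have h2 := hfb θ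
      have h3 : ‖H ((r : ℂ) * Complex.exp ((θ : ℂ) * Complex.I))‖ ≤ L := by
        refine h2.trans ?_
        nlinarith
      have h4 : ‖H ((r : ℂ) * Complex.exp ((θ : ℂ) * Complex.I))‖ ^ 2 ≤ L ^ 2 :=
        pow_le_pow_left₀ (norm_nonneg _) h3 2
      calc a * ‖H ((r : ℂ) * Complex.exp ((θ : ℂ) * Complex.I))‖ ^ 2 ≤ a * L ^ 2 := by gcongr
        _ = a * L * L := by ring
        _ ≤ a * L0 * L := by gcongr
    have h5 : ∫ θ in (-π)..π, Real.exp (a * ‖H ((r : ℂ) * Complex.exp ((θ : ℂ) * Complex.I))‖ ^ 2 / L)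
        ≤ ∫ θ in (-π)..π, Real.exp (a * L0) := by
      apply intervalIntegral.integral_mono (by linarith)
      · apply Continuous.intervalIntegrable
        exact Real.continuous_exp.comp ((continuous_const.mul (hf.norm.pow 2)).div_const L)
      · apply Continuous.intervalIntegrable
        exact continuous_const
      · intro θ; exact h1 θ
    rw [intervalIntegral.integral_const, smul_eq_mul] at h5
    have : (π - -π) * Real.exp (a * L0) = 2 * π * Real.exp (a * L0) := by ring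
    linarith
  · -- large L
    have hbig : Real.log 4 ≤ L / (4 * a) * δ ^ 2 / 2 := by
      have h1 : L0 * δ ^ 2 = 8 * a * Real.log 4 := by
        rw [hL0]; field_simp
      have h2 : L0 * δ ^ 2 ≤ L * δ ^ 2 := by gcongr
      rw [h1] at h2
      have h3 : L / (4 * a) * δ ^ 2 / 2 = L * δ ^ 2 / (8 * a) := by
        field_simp
        norm_num
      rw [h3, le_div_iff₀ (by positivity)]
      linarith
    have hgm : ∀ v : ℂ, ‖v‖ ≤ 2 * a * k + δ →
        ∫⁻ θ in Ioc (-π) π, ENNReal.ofReal (Real.exp (inner ℝ v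
          (H ((r : ℂ) * Complex.exp ((θ : ℂ) * Complex.I)))))
        ≤ ENNReal.ofReal ((C + 2 * π) * Real.exp (L / (4 * a') * ‖v‖ ^ 2)) := by
      intro v hv
      have hcont : Continuous (fun θ : ℝ => Real.exp (inner ℝ v
          (H ((r : ℂ) * Complex.exp ((θ : ℂ) * Complex.I))))) :=
        Real.continuous_exp.comp (Continuous.inner continuous_const hf)
      rw [← ofReal_integral_eq_lintegral_ofReal hcont.integrableOn_Ioc
        (Eventually.of_forall fun θ => (Real.exp_pos _).le)]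
      apply ENNReal.ofReal_le_ofReal
      rw [← intervalIntegral.integral_of_le (by linarith : -π ≤ π)]
      have hexp0 : 0 < Real.exp (L / (4 * a') * ‖v‖ ^ 2) := Real.exp_pos _
      by_cases hv0 : v = 0
      · subst hv0
        simp only [inner_zero_left, Real.exp_zero, norm_zero]
        rw [intervalIntegral.integral_const, smul_eq_mul]
        have : L / (4 * a') * (0 : ℝ) ^ 2 = 0 := by ring
        rw [this, Real.exp_zero]
        linarith
      · have hA := hadm v hv0 hv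
        have h1 := hmean k hk0.le hk1 β H Φ hG hE hΦ hH (conj v / 2) (‖v‖ ^ 2 / (4 * a')) hA r
          hr0.le hr1
        simp_rw [exp_inner]
        have h2 : (1 - r ^ 2) ^ (-(‖v‖ ^ 2 / (4 * a'))) = Real.exp (L / (4 * a') * ‖v‖ ^ 2) := by
          rw [Real.rpow_def_of_pos hx, hL, one_div, Real.log_inv]
          congr 1
          ring
        rw [h2] at h1
        refine h1.trans ?_
        have : 0 ≤ 2 * π * Real.exp (L / (4 * a') * ‖v‖ ^ 2) := by positivity
        linarith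
    have h1 := gauss_average (L := L) (k := k) (δ := δ) (C := C + 2 * π) ha haa hLpos hδ (by positivity)
      hbig hf hfb (s := Ioc (-π) π) hgm
    have hcont : Continuous (fun θ : ℝ => Real.exp (a *
        ‖H ((r : ℂ) * Complex.exp ((θ : ℂ) * Complex.I))‖ ^ 2 / L)) :=
      Real.continuous_exp.comp ((continuous_const.mul (hf.norm.pow 2)).div_const L)
    rw [← ofReal_integral_eq_lintegral_ofReal hcont.integrableOn_Ioc
      (Eventually.of_forall fun θ => (Real.exp_pos _).le)] at h1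
    rw [← intervalIntegral.integral_of_le (by linarith : -π ≤ π)] at h1
    have h2 := (ENNReal.ofReal_le_ofReal_iff hA2).mp h1
    linarith

end Pool.Agent.Helper22.Half
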