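import Mathlib
import Pool.Agent.Helper22.Half.Final

/-!
The theorem in the disc and in the exterior domain.
-/

set_option autoImplicit false

open MeasureTheory Set Metric Filter Topology
open scoped ENNReal NNReal Real ComplexConjugate

namespace Pool.Agent.Helper22.Half

open Pool.Agent.Helper39.Area (Ext phi toDisc)
open Pool.Agent.Helper22.Marshall (SepHol LogPhi GLe exists_logPhi gLe_one gauss_average)

theorem adm_one {a' : ℝ} (ha' : 0 < a') (ha1 : a' < 1 / 2) {v : ℂ} (hv : v ≠ 0)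
    (hv1 : ‖v‖ ≤ 2 * a') :
    Adm 1 ((1 - 2 * a') / 2) (conj v / 2) (‖v‖ ^ 2 / (4 * a')) := by
  have hn : 0 < ‖v‖ := norm_pos_iff.mpr hv
  have hns : ‖conj v / 2‖ = ‖v‖ / 2 := by
    rw [norm_div, RCLike.norm_conj]
    norm_num
  have hb0 : 0 < ‖v‖ ^ 2 / (4 * a') := by positivity
  have hb1 : ‖v‖ ^ 2 / (4 * a') ≤ 1 / 2 := by
    rw [div_le_iff₀ (by positivity)]
    nlinarith
  have hre := Complex.abs_re_le_norm (conj v / 2)
  rw [hns] at hre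
  have hre2 := abs_le.mp hre
  have hρ : ‖conj v / 2‖ ^ 2 ≤ ‖v‖ ^ 2 / (4 * a') / 2 := by
    rw [hns, div_div, le_div_iff₀ (by positivity)]
    have : 0 ≤ ‖v‖ ^ 2 := by positivity
    nlinarith
  refine ⟨by rw [hns]; linarith, hb0, hb1, by linarith, ?_⟩
  have h1 := pref_mul_Brk (b := ‖v‖ ^ 2 / (4 * a')) (r := (conj v / 2).re)
    (ρ := ‖conj v / 2‖ ^ 2) hb0 hb1 (by linarith) (by linarith) (by positivity) hρ
  have h2 : 2 * ‖conj v / 2‖ ^ 2 / (‖v‖ ^ 2 / (4 * a')) = 2 * a' := by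
    rw [hns]
    field_simp
    norm_num
  rw [h2]
  have : 2 * a' * (pref (‖v‖ ^ 2 / (4 * a')) (conj v / 2).re (‖conj v / 2‖ ^ 2)
      * Brk (‖v‖ ^ 2 / (4 * a')) (conj v / 2).re (‖conj v / 2‖ ^ 2)) ≤ 2 * a' * 1 := by
    gcongr
  linarith

/-- the disc version of the bound, for every exponent below one half -/
theorem disc_half {a : ℝ} (ha : 0 < a) (ha1 : a < 1 / 2) : ∃ C : ℝ, 0 ≤ C ∧
    ∀ (β H : ℂ → ℂ), Ext β → DifferentiableOn ℂ H (ball 0 1) → H 0 = 0 →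
    (∀ ζ ∈ ball (0 : ℂ) 1, Complex.exp (H ζ) = 1 - ζ ^ 2 * deriv β ζ) →
    (∀ ζ ∈ ball (0 : ℂ) 1, ‖H ζ‖ ≤ Real.log (1 / (1 - ‖ζ‖ ^ 2))) →
    ∀ r : ℝ, 0 < r → r < 1 →
    ∫ θ in (-π)..π, Real.exp (a * ‖H ((r : ℂ) * Complex.exp ((θ : ℂ) * Complex.I))‖ ^ 2
      / Real.log (1 / (1 - r ^ 2))) ≤ C := by
  obtain ⟨a', ha'⟩ : ∃ a' : ℝ, a' = (a + 1 / 2) / 2 := ⟨_, rfl⟩
  have h1 : a < a' := by rw [ha']; linarith
  have h2 : a' < 1 / 2 := by rw [ha']; linarith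
  have h0 : 0 < a' := ha.trans h1
  obtain ⟨C, hC, hmain⟩ := gauss_final (k := 1) (a := a) (a' := a') (δ := 2 * (a' - a))
    (η := (1 - 2 * a') / 2) one_pos le_rfl ha h1 (by linarith) (by linarith) (by linarith)
    (fun v hv hv1 => adm_one h0 h2 hv (by linarith))
  refine ⟨C, hC, ?_⟩
  intro β H hE hH hH0 hexp hHb r hr0 hr1
  obtain ⟨Φ, hΦ⟩ := exists_logPhi hE hH.continuousOn hH0 hexp
  exact hmain β H Φ (gLe_one hE) hE hΦ hH (fun ζ hζ => by rw [one_mul]; exact hHb ζ hζ) r hr0 hr1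

theorem periodic_shift {f : ℂ → ℝ} (r : ℝ) :
    ∫ θ in (0:ℝ)..(2 * π), f ((r : ℂ) * Complex.exp ((θ : ℂ) * Complex.I))
      = ∫ θ in (-π)..π, f ((r : ℂ) * Complex.exp ((θ : ℂ) * Complex.I)) := by
  have hper : Function.Periodic (fun θ : ℝ => f ((r : ℂ) * Complex.exp ((θ : ℂ) * Complex.I)))
      (2 * π) := by
    intro θ
    have : Complex.exp (((θ + 2 * π : ℝ) : ℂ) * Complex.I) = Complex.exp ((θ : ℂ) * Complex.I) := by
      push_cast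
      rw [add_mul, Complex.exp_add, Complex.exp_two_pi_mul_I, mul_one]
    simp only [this]
  have h2 := hper.intervalIntegral_add_eq 0 (-π)
  have e1 : (0:ℝ) + 2 * π = 2 * π := by ring
  have e2 : -π + 2 * π = π := by ring
  rw [e1, e2] at h2
  exact h2

/-- the exterior version of the bound, for every exponent below one half -/
theorem ext_half {a : ℝ} (ha : 0 < a) (ha1 : a < 1 / 2) : ∃ C : ℝ, 0 ≤ C ∧
    ∀ R : ℝ, 1 < R → ∀ ψ h : ℂ → ℂ,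
      DifferentiableOn ℂ ψ {z : ℂ | 1 < ‖z‖} →
      Set.InjOn ψ {z : ℂ | 1 < ‖z‖} →
      (∃ b : ℂ, Filter.Tendsto (fun z => ψ z - z) (Bornology.cobounded ℂ) (nhds b)) →
      DifferentiableOn ℂ h {z : ℂ | 1 < ‖z‖} →
      (∀ z : ℂ, 1 < ‖z‖ → Complex.exp (h z) = deriv ψ z) →
      Filter.Tendsto h (Bornology.cobounded ℂ) (nhds 0) →
      (1 / (2 * Real.pi)) * ∫ θ in (0:ℝ)..(2 * Real.pi),
        Real.exp (a * ‖h ((R : ℂ) * Complex.exp ((θ : ℂ) * Complex.I))‖ ^ 2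
          / Real.log (R ^ 2 / (R ^ 2 - 1))) ≤ C := by
  obtain ⟨C, hC, hmain⟩ := disc_half ha ha1
  refine ⟨1 / (2 * π) * C, by positivity, ?_⟩
  intro R hR ψ h hψ hinj hb hh hexp hh0
  obtain ⟨hd, hg⟩ := Pool.Agent.Helper39.Area.goluzin_disc hψ hinj hb hh hexp hh0
  obtain ⟨b, hb⟩ := hb
  obtain ⟨hE, hex⟩ := Pool.Agent.Helper39.Area.ext_data hψ hinj hb hexp
  rw [Pool.Agent.Helper39.Area.integral_transfer h a R hR]
  rw [periodic_shift (f := fun ζ => Real.exp (a * ‖toDisc 0 h ζ‖ ^ 2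
          / Real.log (1 / (1 - (R⁻¹) ^ 2)))) R⁻¹]
  have hR0 : 0 < R⁻¹ := by positivity
  have hR1 : R⁻¹ < 1 := inv_lt_one_of_one_lt₀ hR
  have := hmain _ (toDisc 0 h) hE hd (by simp [toDisc]) hex hg R⁻¹ hR0 hR1
  gcongr

end Pool.Agent.Helper22.Half
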