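import Mathlib
import Pool.Agent.Helper22.Half.Disc
import Pool.Agent.Helper22.Half.Defs

/-!
Holomorphic families of maps in the class Sigma.
-/

set_option autoImplicit false

open MeasureTheory Set Metric Filter Topology
open scoped ENNReal NNReal Real ComplexConjugate

namespace Pool.Agent.Helper22.Half

open Pool.Agent.Helper39.Area (Ext phi toDisc eq_zero_of_exp_one inv_mem isOpen_ext)
open Pool.Agent.Helper22.Marshall (differentiableOn_of_exp)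

/-- bound of the derivative -/
theorem SigmaLog.goluzin {ψ h : ℂ → ℂ} (H : SigmaLog ψ h) :
    DifferentiableOn ℂ (toDisc 0 h) (ball 0 1) ∧ ∀ ζ ∈ ball (0:ℂ) 1,
      ‖toDisc 0 h ζ‖ ≤ Real.log (1 / (1 - ‖ζ‖ ^ 2)) :=
  Pool.Agent.Helper39.Area.goluzin_disc H.diff H.inj H.normalised H.hdiff H.exp_eq H.lim

theorem exp_norm_le {w : ℂ} {x : ℝ} (hx : 0 < x) (hw : ‖w‖ ≤ Real.log x) :
    ‖Complex.exp w‖ ≤ x := by
  rw [Complex.norm_exp]
  have h1 : w.re ≤ Real.log x := (Complex.re_le_norm w).trans hw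
  calc Real.exp w.re ≤ Real.exp (Real.log x) := Real.exp_le_exp.mpr h1
    _ = x := Real.exp_log hx

theorem SigmaLog.q_bound {ψ h : ℂ → ℂ} (H : SigmaLog ψ h) {ρ : ℝ} (hρ : 0 < ρ) {ζ : ℂ}
    (hζ : ‖ζ‖ ≤ 1 - ρ) : ‖Complex.exp (toDisc 0 h ζ)‖ ≤ 1 / ρ := by
  have h0 := norm_nonneg ζ
  have h1 : ζ ∈ ball (0:ℂ) 1 := by
    rw [mem_ball_zero_iff]; linarith
  have h2 : 0 < 1 - ‖ζ‖ ^ 2 := by nlinarith
  refine (exp_norm_le (by positivity) (H.goluzin.2 ζ h1)).trans ?_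
  apply one_div_le_one_div_of_le hρ
  nlinarith

theorem SigmaLog.deriv_bound {ψ h : ℂ → ℂ} (H : SigmaLog ψ h) {ρ : ℝ} (hρ : 0 < ρ) {z : ℂ}
    (hz : 1 + ρ ≤ ‖z‖) : ‖deriv ψ z‖ ≤ (1 + ρ) / ρ := by
  have hz0 : z ≠ 0 := by
    rintro rfl
    rw [norm_zero] at hz
    linarith
  have h1 : deriv ψ z = Complex.exp (toDisc 0 h z⁻¹) := by
    rw [← H.exp_eq z (by linarith)]
    simp only [toDisc]
    rw [if_neg (inv_ne_zero hz0), inv_inv]
  rw [h1]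
  have h2 : ‖z⁻¹‖ ≤ 1 - ρ / (1 + ρ) := by
    rw [norm_inv]
    have : 1 - ρ / (1 + ρ) = (1 + ρ)⁻¹ := by
      field_simp
      ring
    rw [this]
    exact inv_anti₀ (by linarith) hz
  have h3 := H.q_bound (ρ := ρ / (1 + ρ)) (by positivity) h2
  rwa [one_div_div] at h3

/-- oscillation of a bounded holomorphic function -/
theorem osc_bound {f : ℂ → ℂ} {c : ℂ} {ρ M : ℝ} (hρ : 0 < ρ)
    (hf : DifferentiableOn ℂ f (ball c ρ)) (hM : ∀ z ∈ ball c ρ, ‖f z‖ ≤ M) {z : ℂ}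
    (hz : z ∈ ball c ρ) : ‖f z - f c‖ ≤ 2 * M / ρ * ‖z - c‖ := by
  have h := Complex.dist_le_div_mul_dist_of_mapsTo_ball (R₂ := 2 * M) hf (fun w hw => by
    rw [mem_closedBall, dist_eq_norm]
    calc ‖f w - f c‖ ≤ ‖f w‖ + ‖f c‖ := norm_sub_le _ _
      _ ≤ M + M := add_le_add (hM w hw) (hM c (mem_ball_self hρ))
      _ = 2 * M := by ring) hz
  rwa [dist_eq_norm, dist_eq_norm] at h

/-- the difference quotient is uniformly close to the derivative -/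
theorem SigmaLog.quotient {ψ h : ℂ → ℂ} (H : SigmaLog ψ h) {z0 : ℂ} {ρ : ℝ} (hρ : 0 < ρ)
    (hz0 : 1 + 2 * ρ ≤ ‖z0‖) {δ : ℝ} (hδ : 0 < δ) (hδρ : δ < ρ) :
    ‖(ψ (z0 + δ) - ψ z0) / δ - deriv ψ z0‖ ≤ 2 * ((1 + ρ) / ρ) / ρ * δ := by
  have hball : ∀ z ∈ ball z0 ρ, 1 + ρ ≤ ‖z‖ := by
    intro z hz
    rw [mem_ball, dist_eq_norm] at hz
    have h1 : ‖z0‖ ≤ ‖z‖ + ‖z - z0‖ := by
      calc ‖z0‖ = ‖z - (z - z0)‖ := by congr 1; ring
        _ ≤ ‖z‖ + ‖z - z0‖ := norm_sub_le _ _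
    linarith
  have hsub : ball z0 ρ ⊆ {z : ℂ | 1 < ‖z‖} := by
    intro z hz
    have := hball z hz
    show 1 < ‖z‖
    linarith
  have hd : DifferentiableOn ℂ ψ (ball z0 ρ) := H.diff.mono hsub
  have hd2 : DifferentiableOn ℂ (deriv ψ) (ball z0 ρ) := hd.deriv isOpen_ball
  have hosc : ∀ z ∈ ball z0 ρ, ‖deriv ψ z - deriv ψ z0‖ ≤ 2 * ((1 + ρ) / ρ) / ρ * ‖z - z0‖ :=
    fun z hz => osc_bound hρ hd2 (fun w hw => H.deriv_bound hρ (hball w hw)) hz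
  obtain ⟨C, hC⟩ : ∃ C, C = 2 * ((1 + ρ) / ρ) / ρ := ⟨_, rfl⟩
  have hC0 : 0 < C := by rw [hC]; positivity
  rw [← hC] at hosc ⊢
  have hmem : ∀ z ∈ closedBall z0 δ, z ∈ ball z0 ρ := fun z hz => by
    rw [mem_closedBall] at hz
    rw [mem_ball]; linarith
  have key := Convex.norm_image_sub_le_of_norm_deriv_le (𝕜 := ℂ) (f := fun z => ψ z - deriv ψ z0 * z)
    (s := closedBall z0 δ) (x := z0) (y := z0 + δ) (C := C * δ)
    (fun z hz => by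
      have := hd.differentiableAt (isOpen_ball.mem_nhds (hmem z hz))
      exact this.sub ((differentiableAt_id).const_mul _))
    (fun z hz => by
      have h1 := hd.differentiableAt (isOpen_ball.mem_nhds (hmem z hz))
      have h2 : deriv (fun z => ψ z - deriv ψ z0 * z) z = deriv ψ z - deriv ψ z0 := by
        have h3 : HasDerivAt (fun z => ψ z - deriv ψ z0 * z) (deriv ψ z - deriv ψ z0 * 1) z :=
          h1.hasDerivAt.sub ((hasDerivAt_id z).const_mul _)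
        rw [h3.deriv, mul_one]
      rw [h2]
      refine (hosc z (hmem z hz)).trans ?_
      rw [mem_closedBall, dist_eq_norm] at hz
      gcongr)
    (convex_closedBall _ _) (mem_closedBall_self hδ.le)
    (by
      rw [mem_closedBall, dist_eq_norm, add_sub_cancel_left, Complex.norm_real,
        Real.norm_of_nonneg hδ.le])
  have hδ0 : (δ : ℂ) ≠ 0 := by exact_mod_cast hδ.ne'
  have e1 : (ψ (z0 + δ) - ψ z0) / δ - deriv ψ z0
      = ((ψ (z0 + δ) - deriv ψ z0 * (z0 + δ)) - (ψ z0 - deriv ψ z0 * z0)) / δ := by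
    field_simp
    ring
  rw [e1, norm_div, Complex.norm_real, Real.norm_of_nonneg hδ.le, div_le_iff₀ hδ]
  refine key.trans ?_
  rw [add_sub_cancel_left, Complex.norm_real, Real.norm_of_nonneg hδ.le]

theorem HolFam.deriv_hol {ψ h : ℂ → ℂ → ℂ} (H : HolFam ψ h) {z0 : ℂ} (hz0 : 1 < ‖z0‖) :
    DifferentiableOn ℂ (fun l => deriv (ψ l) z0) (ball 0 1) := by
  obtain ⟨ρ, hρ⟩ : ∃ ρ, ρ = (‖z0‖ - 1) / 2 := ⟨_, rfl⟩
  have hρ0 : 0 < ρ := by rw [hρ]; linarith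
  have hz1 : 1 + 2 * ρ ≤ ‖z0‖ := by rw [hρ]; linarith
  have hlim : TendstoLocallyUniformlyOn
      (fun (n : ℕ) (l : ℂ) => (ψ l (z0 + (ρ / (n + 2) : ℝ)) - ψ l z0) / ((ρ / (n + 2) : ℝ) : ℂ))
      (fun l => deriv (ψ l) z0) atTop (ball 0 1) := by
    apply TendstoUniformlyOn.tendstoLocallyUniformlyOn
    rw [Metric.tendstoUniformlyOn_iff]
    intro ε hε
    have h1 : Tendsto (fun n : ℕ => 2 * ((1 + ρ) / ρ) / ρ * (ρ / ((n : ℝ) + 2))) atTop (𝓝 0) := by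
      have h2 : Tendsto (fun n : ℕ => (ρ / ((n : ℝ) + 2))) atTop (𝓝 0) := by
        apply Tendsto.const_div_atTop
        exact tendsto_natCast_atTop_atTop.atTop_add tendsto_const_nhds
      simpa using h2.const_mul (2 * ((1 + ρ) / ρ) / ρ)
    filter_upwards [h1.eventually_lt_const hε] with n hn l hl
    rw [dist_comm, dist_eq_norm]
    have h3 : (0:ℝ) < ρ / ((n : ℝ) + 2) := by positivity
    have h4 : ρ / ((n : ℝ) + 2) < ρ := by
      rw [div_lt_iff₀ (by positivity)]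
      have : (0:ℝ) ≤ n := Nat.cast_nonneg n
      nlinarith
    exact ((H.mem l hl).quotient hρ0 hz1 h3 h4).trans_lt hn
  apply hlim.differentiableOn _ isOpen_ball
  apply Eventually.of_forall
  intro n
  have h3 : (0:ℝ) < ρ / ((n : ℝ) + 2) := by positivity
  have h4 : ρ / ((n : ℝ) + 2) < ρ := by
    rw [div_lt_iff₀ (by positivity)]
    have : (0:ℝ) ≤ n := Nat.cast_nonneg n
    nlinarith
  apply DifferentiableOn.div_const
  apply DifferentiableOn.sub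
  · apply H.hol
    have h5 : ‖z0‖ ≤ ‖z0 + ((ρ / (n + 2) : ℝ) : ℂ)‖ + ‖((ρ / (n + 2) : ℝ) : ℂ)‖ := by
      calc ‖z0‖ = ‖(z0 + ((ρ / (n + 2) : ℝ) : ℂ)) - ((ρ / (n + 2) : ℝ) : ℂ)‖ := by
            congr 1; ring
        _ ≤ _ := norm_sub_le _ _
    rw [Complex.norm_real ((ρ / (n + 2) : ℝ)), Real.norm_of_nonneg h3.le] at h5
    linarith
  · exact H.hol z0 hz0

theorem HolFam.q_hol {ψ h : ℂ → ℂ → ℂ} (H : HolFam ψ h) {ζ : ℂ} (hζ : ζ ∈ ball (0:ℂ) 1) :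
    DifferentiableOn ℂ (fun l => Complex.exp (toDisc 0 (h l) ζ)) (ball 0 1) := by
  by_cases h0 : ζ = 0
  · subst h0
    simp only [toDisc, if_true, Complex.exp_zero]
    exact differentiableOn_const _
  · apply (H.deriv_hol (inv_mem hζ h0)).congr
    intro l hl
    simp only [toDisc]
    rw [if_neg h0, (H.mem l hl).exp_eq _ (inv_mem hζ h0)]

theorem HolFam.q_cont {ψ h : ℂ → ℂ → ℂ} (H : HolFam ψ h) :
    ContinuousOn (fun p : ℂ × ℂ => Complex.exp (toDisc 0 (h p.1) p.2))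
      (ball (0:ℂ) 1 ×ˢ ball (0:ℂ) 1) := by
  rintro ⟨l0, ζ0⟩ ⟨hl0, hζ0⟩
  simp only at hl0 hζ0
  apply ContinuousAt.continuousWithinAt
  obtain ⟨ρ, hρ⟩ : ∃ ρ, ρ = (1 - ‖ζ0‖) / 2 := ⟨_, rfl⟩
  have hζ1 : ‖ζ0‖ < 1 := by rwa [mem_ball_zero_iff] at hζ0
  have hρ0 : 0 < ρ := by rw [hρ]; linarith
  have hball : ∀ ζ ∈ ball ζ0 ρ, ‖ζ‖ ≤ 1 - ρ := by
    intro ζ hζ
    rw [mem_ball, dist_eq_norm] at hζ
    have h1 : ‖ζ‖ ≤ ‖ζ0‖ + ‖ζ - ζ0‖ := by
      calc ‖ζ‖ = ‖ζ0 + (ζ - ζ0)‖ := by congr 1; ring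
        _ ≤ _ := norm_add_le _ _
    have h2 : ‖ζ0‖ = 1 - 2 * ρ := by rw [hρ]; ring
    linarith
  have hsub : ball ζ0 ρ ⊆ ball (0:ℂ) 1 := by
    intro ζ hζ
    rw [mem_ball_zero_iff]
    have := hball ζ hζ
    linarith
  have hosc : ∀ l ∈ ball (0:ℂ) 1, ∀ ζ ∈ ball ζ0 ρ,
      ‖Complex.exp (toDisc 0 (h l) ζ) - Complex.exp (toDisc 0 (h l) ζ0)‖
        ≤ 2 * (1 / ρ) / ρ * ‖ζ - ζ0‖ := by
    intro l hl ζ hζ
    exact osc_bound (f := fun w => Complex.exp (toDisc 0 (h l) w)) hρ0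
      (((H.mem l hl).goluzin.1.mono hsub).cexp)
      (fun w hw => (H.mem l hl).q_bound hρ0 (hball w hw)) hζ
  have hcl : ContinuousAt (fun l => Complex.exp (toDisc 0 (h l) ζ0)) l0 :=
    ((H.q_hol hζ0).differentiableAt (isOpen_ball.mem_nhds hl0)).continuousAt
  have hcp : ContinuousAt (fun p : ℂ × ℂ => Complex.exp (toDisc 0 (h p.1) ζ0)) (l0, ζ0) :=
    ContinuousAt.comp (x := (l0, ζ0)) (f := fun p : ℂ × ℂ => p.1) hcl continuousAt_fst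
  have hdiff : Tendsto (fun p : ℂ × ℂ => Complex.exp (toDisc 0 (h p.1) p.2)
      - Complex.exp (toDisc 0 (h p.1) ζ0)) (𝓝 (l0, ζ0)) (𝓝 0) := by
    apply squeeze_zero_norm' (a := fun p : ℂ × ℂ => 2 * (1 / ρ) / ρ * ‖p.2 - ζ0‖)
    · have hn : (ball (0:ℂ) 1 ×ˢ ball ζ0 ρ) ∈ 𝓝 (l0, ζ0) :=
        (isOpen_ball.prod isOpen_ball).mem_nhds ⟨hl0, mem_ball_self hρ0⟩
      filter_upwards [hn] with p hp
      exact hosc p.1 hp.1 p.2 hp.2
    · have : Continuous (fun p : ℂ × ℂ => 2 * (1 / ρ) / ρ * ‖p.2 - ζ0‖) := by fun_prop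
      have h2 := this.tendsto (l0, ζ0)
      simpa using h2
  have h3 := hdiff.add hcp
  rw [zero_add] at h3
  apply Tendsto.congr _ h3
  intro p
  ring

/-- joint continuity of the logarithm -/
theorem HolFam.h_cont {ψ h : ℂ → ℂ → ℂ} (H : HolFam ψ h) :
    ContinuousOn (fun p : ℂ × ℂ => toDisc 0 (h p.1) p.2) (ball (0:ℂ) 1 ×ˢ ball (0:ℂ) 1) := by
  set U : Set (ℂ × ℂ) := ball 0 1 ×ˢ ball 0 1 with hU
  have hUo : IsOpen U := isOpen_ball.prod isOpen_ball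
  have hUconv : Convex ℝ U := (convex_ball _ _).prod (convex_ball _ _)
  have h0b : (0:ℂ) ∈ ball (0:ℂ) 1 := mem_ball_self one_pos
  have h00 : ((0:ℂ), (0:ℂ)) ∈ U := ⟨h0b, h0b⟩
  have hUs : IsSimplyConnected U := by
    have hc : ContractibleSpace U := hUconv.contractibleSpace ⟨_, h00⟩
    show SimplyConnectedSpace U
    infer_instance
  have hq0 : 0 ∉ (fun p : ℂ × ℂ => Complex.exp (toDisc 0 (h p.1) p.2)) '' U := by
    rintro ⟨p, _, hp⟩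
    exact Complex.exp_ne_zero _ hp
  obtain ⟨Φ, hΦc, hΦ⟩ := Complex.exists_continuousOn_eqOn_exp_comp hUs hUo H.q_cont hq0
  have hΦe : ∀ b ∈ ball (0:ℂ) 1, ∀ ζ ∈ ball (0:ℂ) 1,
      Complex.exp (Φ (b, ζ)) = Complex.exp (toDisc 0 (h b) ζ) :=
    fun b hb ζ hζ => hΦ (show (b, ζ) ∈ U from ⟨hb, hζ⟩)
  have hz : ∀ b : ℂ, toDisc 0 (h b) 0 = 0 := fun b => by simp [toDisc]
  have hΨc : ContinuousOn (fun p : ℂ × ℂ => Φ (p.1, p.2) - Φ (0, 0)) U := by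
    have : ContinuousOn (fun p : ℂ × ℂ => Φ (p.1, p.2)) U := hΦc
    exact this.sub continuousOn_const
  have hΨe : ∀ a ∈ ball (0:ℂ) 1, ∀ b ∈ ball (0:ℂ) 1,
      Complex.exp (Φ (a, b) - Φ (0, 0)) = Complex.exp (toDisc 0 (h a) b) := by
    intro a ha b hb
    rw [Complex.exp_sub, hΦe a ha b hb, hΦe 0 h0b 0 h0b, hz, Complex.exp_zero, div_one]
  have hright0 : ∀ a ∈ ball (0:ℂ) 1, Φ (a, 0) - Φ (0, 0) = 0 := by
    apply eq_zero_of_exp_one (convex_ball (0:ℂ) 1).isPreconnected _ _ h0b (by simp)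
    · exact hΨc.comp (f := fun a => (a, 0)) (by fun_prop) (fun a ha => ⟨ha, h0b⟩)
    · intro a ha
      rw [hΨe a ha 0 h0b, hz, Complex.exp_zero]
  have heq : ∀ a ∈ ball (0:ℂ) 1, ∀ b ∈ ball (0:ℂ) 1,
      (Φ (a, b) - Φ (0, 0)) - toDisc 0 (h a) b = 0 := by
    intro a ha
    apply eq_zero_of_exp_one (convex_ball (0:ℂ) 1).isPreconnected _ _ h0b
      (by rw [hright0 a ha, hz, sub_zero])
    · apply ContinuousOn.sub _ (H.mem a ha).goluzin.1.continuousOn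
      exact hΨc.comp (f := fun b => (a, b)) (by fun_prop) (fun b hb => ⟨ha, hb⟩)
    · intro b hb
      rw [Complex.exp_sub, hΨe a ha b hb, div_self (Complex.exp_ne_zero _)]
  apply hΨc.congr
  rintro ⟨a, b⟩ ⟨ha, hb⟩
  exact (sub_eq_zero.mp (heq a ha b hb)).symm

theorem HolFam.h_hol {ψ h : ℂ → ℂ → ℂ} (H : HolFam ψ h) {ζ : ℂ} (hζ : ζ ∈ ball (0:ℂ) 1) :
    DifferentiableOn ℂ (fun l => toDisc 0 (h l) ζ) (ball 0 1) := by
  apply differentiableOn_of_exp isOpen_ball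
  · exact H.h_cont.comp (f := fun l => (l, ζ)) (by fun_prop) (fun l hl => ⟨hl, hζ⟩)
  · exact H.q_hol hζ

theorem HolFam.h_zero {ψ h : ℂ → ℂ → ℂ} (H : HolFam ψ h) :
    ∀ ζ ∈ ball (0:ℂ) 1, toDisc 0 (h 0) ζ = 0 := by
  have h0b : (0:ℂ) ∈ ball (0:ℂ) 1 := mem_ball_self one_pos
  apply eq_zero_of_exp_one (convex_ball (0:ℂ) 1).isPreconnected
    (H.mem 0 h0b).goluzin.1.continuousOn _ h0b (by simp [toDisc])
  intro ζ hζ
  by_cases h0 : ζ = 0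
  · subst h0
    simp [toDisc]
  · simp only [toDisc]
    rw [if_neg h0, (H.mem 0 h0b).exp_eq _ (inv_mem hζ h0)]
    have h1 : ψ 0 =ᶠ[𝓝 ζ⁻¹] fun z => z := by
      filter_upwards [isOpen_ext.mem_nhds (inv_mem hζ h0)] with z hz
      exact H.base z hz
    rw [h1.deriv_eq]
    exact deriv_id _

end Pool.Agent.Helper22.Half
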