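import Mathlib
import Pool.Agent.Helper22.Half.Family

/-!
Subharmonicity in the parameter.
-/

set_option autoImplicit false

open MeasureTheory Set Metric Filter Topology
open scoped ENNReal NNReal Real ComplexConjugate

namespace Pool.Agent.Helper22.Half

open Pool.Agent.Helper39.Area (Ext phi toDisc eq_zero_of_exp_one inv_mem isOpen_ext)

/-- a Moebius map from the unit disc to the disc of radius `κ` -/
noncomputable def mob (κ : ℝ) (μ w : ℂ) : ℂ := κ * ((w + μ) / (1 + conj μ * w))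

theorem mob_den {μ w : ℂ} (hμ : ‖μ‖ < 1) (hw : ‖w‖ ≤ 1) : 1 + conj μ * w ≠ 0 := by
  intro h
  have h1 : ‖conj μ * w‖ < 1 := by
    rw [norm_mul, RCLike.norm_conj]
    have := norm_nonneg μ
    nlinarith [norm_nonneg w]
  have h2 : conj μ * w = -1 := by linear_combination h
  rw [h2, norm_neg, norm_one] at h1
  exact lt_irrefl _ h1

theorem mob_id {μ w : ℂ} : ‖1 + conj μ * w‖ ^ 2 - ‖w + μ‖ ^ 2 = (1 - ‖w‖ ^ 2) * (1 - ‖μ‖ ^ 2) := by
  rw [← Complex.normSq_eq_norm_sq, ← Complex.normSq_eq_norm_sq, ← Complex.normSq_eq_norm_sq,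
    ← Complex.normSq_eq_norm_sq]
  simp only [Complex.normSq_apply, Complex.add_re, Complex.add_im, Complex.mul_re, Complex.mul_im,
    Complex.conj_re, Complex.conj_im, Complex.one_re, Complex.one_im]
  ring

theorem mob_norm_le {κ : ℝ} (hκ : 0 ≤ κ) {μ w : ℂ} (hμ : ‖μ‖ < 1) (hw : ‖w‖ ≤ 1) :
    ‖mob κ μ w‖ ≤ κ := by
  unfold mob
  rw [norm_mul, Complex.norm_real, Real.norm_of_nonneg hκ, norm_div]
  have h1 := mob_id (μ := μ) (w := w)
  have h2 : 0 < ‖1 + conj μ * w‖ := norm_pos_iff.mpr (mob_den hμ hw)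
  have h3 : ‖w + μ‖ ≤ ‖1 + conj μ * w‖ := by
    apply (pow_le_pow_iff_left₀ (norm_nonneg _) h2.le two_ne_zero).mp
    have : 0 ≤ (1 - ‖w‖ ^ 2) * (1 - ‖μ‖ ^ 2) := by
      apply mul_nonneg
      · nlinarith [norm_nonneg w]
      · nlinarith [norm_nonneg μ]
    linarith
  have h4 : ‖w + μ‖ / ‖1 + conj μ * w‖ ≤ 1 := (div_le_one h2).mpr h3
  calc κ * (‖w + μ‖ / ‖1 + conj μ * w‖) ≤ κ * 1 := by gcongr
    _ = κ := mul_one κ

theorem mob_norm_eq {κ : ℝ} (hκ : 0 ≤ κ) {μ w : ℂ} (hμ : ‖μ‖ < 1) (hw : ‖w‖ = 1) :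
    ‖mob κ μ w‖ = κ := by
  unfold mob
  rw [norm_mul, Complex.norm_real, Real.norm_of_nonneg hκ, norm_div]
  have h1 := mob_id (μ := μ) (w := w)
  rw [hw] at h1
  have h2 : 0 < ‖1 + conj μ * w‖ := norm_pos_iff.mpr (mob_den hμ hw.le)
  have h3 : ‖w + μ‖ = ‖1 + conj μ * w‖ := by
    apply (sq_eq_sq₀ (norm_nonneg _) (norm_nonneg _)).mp
    linarith
  rw [h3, div_self h2.ne', mul_one]

theorem mob_zero {κ : ℝ} {μ : ℂ} : mob κ μ 0 = κ * μ := by
  unfold mob
  simp

/-- the sub mean value inequality for the exponential of a squared modulus -/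
theorem exp_sq_mean {g : ℂ → ℂ} (hg : DifferentiableOn ℂ g (ball 0 1)) {κ : ℝ} (hκ : 0 < κ)
    (hκ1 : κ < 1) {μ : ℂ} (hμ : ‖μ‖ < 1) {A : ℝ} (hA : 0 ≤ A) :
    Real.exp (A * ‖g (κ * μ)‖ ^ 2) ≤ (2 * π)⁻¹ * ∫ t in (0:ℝ)..(2 * π),
      Real.exp (A * ‖g (mob κ μ (circleMap 0 1 t))‖ ^ 2) := by
  have hcl : ContinuousOn (fun w => g (mob κ μ w)) (closedBall 0 1) := by
    apply hg.continuousOn.comp
    · intro w hw
      rw [mem_closedBall_zero_iff] at hw
      have := mob_den hμ hw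
      unfold mob
      fun_prop (disch := assumption)
    · intro w hw
      rw [mem_closedBall_zero_iff] at hw
      rw [mem_ball_zero_iff]
      exact (mob_norm_le hκ.le hμ hw).trans_lt hκ1
  have hcd : DiffContOnCl ℂ (fun w => g (mob κ μ w)) (ball 0 |1|) := by
    rw [abs_one]
    refine ⟨?_, ?_⟩
    · apply hg.comp
      · intro w hw
        rw [mem_ball_zero_iff] at hw
        have := mob_den hμ hw.le
        unfold mob
        apply DifferentiableAt.differentiableWithinAt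
        fun_prop (disch := assumption)
      · intro w hw
        rw [mem_ball_zero_iff] at hw ⊢
        exact (mob_norm_le hκ.le hμ hw.le).trans_lt hκ1
    · rw [closure_ball _ one_ne_zero]
      exact hcl
  have hmean := hcd.circleAverage
  rw [Real.circleAverage_def] at hmean
  rw [mob_zero] at hmean
  have hmem : ∀ t : ℝ, circleMap (0:ℂ) 1 t ∈ closedBall (0:ℂ) 1 := fun t =>
    circleMap_mem_closedBall 0 zero_le_one t
  have hcont : Continuous (fun t : ℝ => g (mob κ μ (circleMap 0 1 t))) :=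
    hcl.comp_continuous (continuous_circleMap 0 1) hmem
  have hconv : ConvexOn ℝ univ (fun x : ℂ => Real.exp (A * ‖x‖ ^ 2)) := by
    have h1 : ConvexOn ℝ univ (fun x : ℂ => A * ‖x‖ ^ 2) := by
      have h2 : ConvexOn ℝ univ (fun x : ℂ => ‖x‖ ^ 2) :=
        (convexOn_univ_norm (E := ℂ)).pow (fun x _ => norm_nonneg x) 2
      simpa [smul_eq_mul] using h2.smul hA
    refine ⟨convex_univ, ?_⟩
    intro x _ y _ a b ha hb hab
    have h3 := h1.2 (mem_univ x) (mem_univ y) ha hb hab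
    have h4 := convexOn_exp.2 (mem_univ (A * ‖x‖ ^ 2)) (mem_univ (A * ‖y‖ ^ 2)) ha hb hab
    simp only [smul_eq_mul] at h3 h4 ⊢
    exact (Real.exp_le_exp.mpr h3).trans h4
  have hpi := Real.pi_pos
  have hvol : volume.real (Ioc (0:ℝ) (2 * π)) = 2 * π := by
    rw [Real.volume_real_Ioc_of_le (by positivity)]
    ring
  have hvol0 : volume (Ioc (0:ℝ) (2 * π)) ≠ 0 := by
    rw [Real.volume_Ioc]
    simp [hpi]
  have hvol1 : volume (Ioc (0:ℝ) (2 * π)) ≠ ∞ := by
    rw [Real.volume_Ioc]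
    exact ENNReal.ofReal_ne_top
  have hφc : Continuous (fun x : ℂ => Real.exp (A * ‖x‖ ^ 2)) := by fun_prop
  have hJ := hconv.map_set_average_le (μ := volume) (t := Ioc (0:ℝ) (2 * π))
    (f := fun t : ℝ => g (mob κ μ (circleMap 0 1 t))) hφc.continuousOn isClosed_univ hvol0 hvol1
    (Eventually.of_forall fun _ => mem_univ _) hcont.integrableOn_Ioc
    (hφc.comp hcont).integrableOn_Ioc
  rw [setAverage_eq, setAverage_eq, hvol, smul_eq_mul, ← intervalIntegral.integral_of_le (by positivity),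
    ← intervalIntegral.integral_of_le (by positivity), hmean] at hJ
  exact hJ

/-- the integrand on the family -/
theorem fam_disc {ψ h : ℂ → ℂ → ℂ} (H : HolFam ψ h) {A C κ L r : ℝ} (hA : 0 ≤ A) (hL : 0 < L)
    (hκ : 0 < κ) (hκ1 : κ < 1) (hr0 : 0 ≤ r) (hr1 : r < 1)
    (hC : ∀ l ∈ ball (0:ℂ) 1, ∫ θ in (0:ℝ)..(2 * π),
      Real.exp (A / κ ^ 2 * ‖toDisc 0 (h l) ((r : ℂ) * Complex.exp ((θ : ℂ) * Complex.I))‖ ^ 2 / L)
        ≤ C) {l0 : ℂ} (hl0 : ‖l0‖ < κ) (hl00 : l0 ≠ 0) :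
    ∫ θ in (0:ℝ)..(2 * π),
      Real.exp (A / ‖l0‖ ^ 2 *
        ‖toDisc 0 (h l0) ((r : ℂ) * Complex.exp ((θ : ℂ) * Complex.I))‖ ^ 2 / L) ≤ C := by
  have hpi := Real.pi_pos
  obtain ⟨μ, hμd⟩ : ∃ μ : ℂ, μ = l0 / κ := ⟨_, rfl⟩
  have hκc : (κ : ℂ) ≠ 0 := by exact_mod_cast hκ.ne'
  have hμ : ‖μ‖ < 1 := by
    rw [hμd, norm_div, Complex.norm_real, Real.norm_of_nonneg hκ.le, div_lt_one hκ]
    exact hl0
  have hκμ : (κ : ℂ) * μ = l0 := by rw [hμd]; field_simp
  have hmem : ∀ θ : ℝ, (r : ℂ) * Complex.exp ((θ : ℂ) * Complex.I) ∈ ball (0 : ℂ) 1 := by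
    intro θ
    rw [mem_ball_zero_iff, norm_mul, Complex.norm_exp_ofReal_mul_I, mul_one, Complex.norm_real,
      Real.norm_of_nonneg hr0]
    exact hr1
  have hm1 : ∀ t : ℝ, ‖mob κ μ (circleMap 0 1 t)‖ = κ := by
    intro t
    apply mob_norm_eq hκ.le hμ
    rw [norm_circleMap_zero, abs_one]
  have hmb : ∀ t : ℝ, mob κ μ (circleMap 0 1 t) ∈ ball (0:ℂ) 1 := by
    intro t
    rw [mem_ball_zero_iff, hm1]; exact hκ1
  have hmc : Continuous (fun t : ℝ => mob κ μ (circleMap 0 1 t)) := by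
    unfold mob
    apply Continuous.mul continuous_const
    apply Continuous.div
    · exact (continuous_circleMap 0 1).add continuous_const
    · exact continuous_const.add (continuous_const.mul (continuous_circleMap 0 1))
    · intro t
      apply mob_den hμ
      rw [norm_circleMap_zero, abs_one]
  -- the integrand of the double integral
  obtain ⟨G, hG⟩ : ∃ G : ℝ → ℝ → ℝ, G = fun (t θ : ℝ) => Real.exp (A / κ ^ 2 *
      ‖toDisc 0 (h (mob κ μ (circleMap 0 1 t))) ((r : ℂ) * Complex.exp ((θ : ℂ) * Complex.I))‖ ^ 2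
        / L) := ⟨_, rfl⟩
  have hGc : Continuous (Function.uncurry G) := by
    have h1 : Continuous (fun p : ℝ × ℝ => toDisc 0 (h (mob κ μ (circleMap 0 1 p.1)))
        ((r : ℂ) * Complex.exp ((p.2 : ℂ) * Complex.I))) := by
      apply H.h_cont.comp_continuous (f := fun p : ℝ × ℝ => (mob κ μ (circleMap 0 1 p.1),
        (r : ℂ) * Complex.exp ((p.2 : ℂ) * Complex.I)))
      · apply Continuous.prodMk
        · exact hmc.comp continuous_fst
        · fun_prop
      · intro p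
        exact ⟨hmb p.1, hmem p.2⟩
    have h2 : Function.uncurry G = fun p : ℝ × ℝ => Real.exp (A / κ ^ 2 *
        ‖toDisc 0 (h (mob κ μ (circleMap 0 1 p.1)))
          ((r : ℂ) * Complex.exp ((p.2 : ℂ) * Complex.I))‖ ^ 2 / L) := by
      rw [hG]; rfl
    rw [h2]
    exact Real.continuous_exp.comp ((continuous_const.mul (h1.norm.pow 2)).div_const L)
  -- pointwise inequality
  have hpt : ∀ θ : ℝ, Real.exp (A / ‖l0‖ ^ 2 *
        ‖toDisc 0 (h l0) ((r : ℂ) * Complex.exp ((θ : ℂ) * Complex.I))‖ ^ 2 / L)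
      ≤ (2 * π)⁻¹ * ∫ t in (0:ℝ)..(2 * π), G t θ := by
    intro θ
    obtain ⟨ζ, hζ⟩ : ∃ ζ : ℂ, ζ = (r : ℂ) * Complex.exp ((θ : ℂ) * Complex.I) := ⟨_, rfl⟩
    have hζm : ζ ∈ ball (0:ℂ) 1 := by rw [hζ]; exact hmem θ
    obtain ⟨F, hF⟩ : ∃ F : ℂ → ℂ, F = fun l => toDisc 0 (h l) ζ := ⟨_, rfl⟩
    have hFd : DifferentiableOn ℂ F (ball 0 1) := by rw [hF]; exact H.h_hol hζm
    have hF0 : F 0 = 0 := by rw [hF]; exact H.h_zero ζ hζm
    have hb : ball (0:ℂ) 1 ∈ 𝓝 (0:ℂ) := ball_mem_nhds 0 one_pos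
    have hgd : DifferentiableOn ℂ (dslope F 0) (ball 0 1) :=
      (Complex.differentiableOn_dslope hb).mpr hFd
    have hgF : ∀ l : ℂ, l ≠ 0 → ‖dslope F 0 l‖ ^ 2 = ‖F l‖ ^ 2 / ‖l‖ ^ 2 := by
      intro l hl
      rw [dslope_of_ne _ hl, slope_def_field, hF0, sub_zero, sub_zero, norm_div, div_pow]
    have key := exp_sq_mean hgd hκ hκ1 hμ (A := A / L) (by positivity)
    rw [hκμ, hgF l0 hl00] at key
    have e1 : A / ‖l0‖ ^ 2 * ‖F l0‖ ^ 2 / L = A / L * (‖F l0‖ ^ 2 / ‖l0‖ ^ 2) := by ring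
    have e2 : toDisc 0 (h l0) ((r : ℂ) * Complex.exp ((θ : ℂ) * Complex.I)) = F l0 := by
      rw [hF, hζ]
    rw [e2, e1]
    refine key.trans (le_of_eq ?_)
    congr 1
    apply intervalIntegral.integral_congr
    intro t _
    have hne : mob κ μ (circleMap 0 1 t) ≠ 0 := by
      intro h0
      have := hm1 t
      rw [h0, norm_zero] at this
      linarith
    simp only
    rw [hgF _ hne, hm1, hG, hF]
    simp only
    rw [hζ]
    congr 1
    ring
  have hGi1 : ∀ θ : ℝ, Continuous (fun t => G t θ) := fun θ =>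
    hGc.comp (f := fun t : ℝ => (t, θ)) (by fun_prop)
  have hGi2 : ∀ t : ℝ, Continuous (fun θ => G t θ) := fun t =>
    hGc.comp (f := fun θ : ℝ => (t, θ)) (by fun_prop)
  have hI1 : Continuous (fun θ : ℝ => ∫ t in (0:ℝ)..(2 * π), G t θ) := by
    apply intervalIntegral.continuous_parametric_intervalIntegral_of_continuous'
    exact hGc.comp (f := fun p : ℝ × ℝ => (p.2, p.1)) (by fun_prop)
  have hI2 : Continuous (fun t : ℝ => ∫ θ in (0:ℝ)..(2 * π), G t θ) :=
    intervalIntegral.continuous_parametric_intervalIntegral_of_continuous' hGc _ _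
  have hfc : Continuous (fun θ : ℝ => toDisc 0 (h l0) ((r : ℂ) * Complex.exp ((θ : ℂ) * Complex.I))) :=
    ((H.mem l0 (by rw [mem_ball_zero_iff]; linarith)).goluzin.1.continuousOn).comp_continuous
      (by fun_prop) hmem
  calc ∫ θ in (0:ℝ)..(2 * π), Real.exp (A / ‖l0‖ ^ 2 *
        ‖toDisc 0 (h l0) ((r : ℂ) * Complex.exp ((θ : ℂ) * Complex.I))‖ ^ 2 / L)
      ≤ ∫ θ in (0:ℝ)..(2 * π), (2 * π)⁻¹ * ∫ t in (0:ℝ)..(2 * π), G t θ := by
        apply intervalIntegral.integral_mono (by positivity)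
        · apply Continuous.intervalIntegrable
          exact Real.continuous_exp.comp ((continuous_const.mul (hfc.norm.pow 2)).div_const L)
        · apply Continuous.intervalIntegrable
          exact continuous_const.mul hI1
        · exact hpt
    _ = (2 * π)⁻¹ * ∫ t in (0:ℝ)..(2 * π), ∫ θ in (0:ℝ)..(2 * π), G t θ := by
        rw [intervalIntegral.integral_const_mul]
        congr 1
        rw [MeasureTheory.intervalIntegral_intervalIntegral_swap]
        apply (hGc.comp (f := fun p : ℝ × ℝ => (p.2, p.1)) (by fun_prop)).continuousOn.integrableOn_compact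
          (isCompact_uIcc.prod isCompact_uIcc) |>.mono_set
        exact Set.prod_mono uIoc_subset_uIcc uIoc_subset_uIcc
    _ ≤ (2 * π)⁻¹ * ∫ t in (0:ℝ)..(2 * π), C := by
        gcongr
        apply intervalIntegral.integral_mono (by positivity)
        · exact hI2.intervalIntegrable _ _
        · exact continuous_const.intervalIntegrable _ _
        · intro t
          simp only
          rw [hG]
          exact hC _ (hmb t)
    _ = C := by
        rw [intervalIntegral.integral_const, smul_eq_mul]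
        field_simp
        ring

end Pool.Agent.Helper22.Half
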